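import Mathlib
import Pool.Agent.Helper663.CertData

/-! # The certificate: the 39 by 39 matrix of values is invertible modulo 32003 -/

namespace Pool.Agent.Helper663

/-- the value of the functional `f` on the test graph `g`, up to the factor `2 ^ 20`,
modulo 32003 -/
def evalN (f : ℕ × ℕ × ℕ × ℕ × ℕ) (g : ℕ × ℕ × ℕ × ℕ) : ℕ :=
  match f, g with
  | (j0, j1, j2, v1, v2), (a, b, e, d) =>
    Nat.mod (thetaN (SN j0 j1 j2 v1 (Nat.mul 32002 v1) v2 (Nat.mul 32002 v2)) a b e d) 32003

/-- the functional number `i` -/
def getF (i : ℕ) : ℕ × ℕ × ℕ × ℕ × ℕ := funcL.getD i (0, 0, 0, 0, 0)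

/-- the test graph number `j` -/
def getM (j : ℕ) : ℕ × ℕ × ℕ × ℕ := monL.getD j (0, 0, 0, 0)

def chk (i j : ℕ) : Bool :=
  Nat.beq (evalN (getF i) (getM j)) ((matL.getD i []).getD j 0)

def chkRow (i : ℕ) : Bool := (List.range 39).all fun j => chk i j

def chkAll : Bool := (List.range 39).all fun i => chkRow i

theorem chkAll_true : chkAll = true := by decide +kernel

/-- the dot product of two lists -/
def dot : List ℕ → List ℕ → ℕ
  | x :: l, y :: l' => Nat.add (Nat.mul x y) (dot l l')
  | _, _ => 0

def chkInv (i k : ℕ) : Bool :=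
  Nat.beq (Nat.mod (dot (matL.getD i []) (invL.getD k [])) 32003)
    (Bool.rec 0 1 (Nat.beq i k))

def chkInvAll : Bool := (List.range 39).all fun i => (List.range 39).all fun k => chkInv i k

theorem chkInvAll_true : chkInvAll = true := by decide +kernel

theorem len_mat : (matL.all fun r => Nat.ble r.length 39) = true := by decide +kernel

theorem dot_eq (l l' : List ℕ) (n : ℕ) (h : l.length ≤ n) :
    dot l l' = ∑ j : Fin n, l.getD j 0 * l'.getD j 0 := by
  induction l generalizing l' n with
  | nil => cases l' <;> simp [dot]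
  | cons x l ih =>
    cases n with
    | zero => simp at h
    | succ n =>
      rw [Fin.sum_univ_succ]
      cases l' with
      | nil => simp [dot]
      | cons y l' =>
        have h' : l.length ≤ n := by simpa using h
        show x * y + dot l l' = _
        rw [ih l' n h']
        simp

end Pool.Agent.Helper663
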