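import Mathlib

/-!
# Vertex-oriented uni-trivalent graphs, the space `B`, and the numbers `β d u`

A vertex-oriented uni-trivalent graph is encoded by its half-edges.
-/

namespace Pool.Agent.Helper663

/-- A vertex-oriented uni-trivalent graph whose set of half-edges is `Fin m`.
The edges are the orbits `{h, ι h}` of the fixed-point free involution `ι`.
The vertices are the cycles of `σ`; since `σ³ = 1`, every cycle has length `1` (a univalent
vertex) or `3` (a trivalent vertex, and `σ` is the cyclic order of its three half-edges).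
Multiple edges and loops are allowed. -/
structure UTGraph (m : ℕ) where
  /-- the vertex permutation -/
  σ : Equiv.Perm (Fin m)
  /-- the edge involution -/
  ι : Equiv.Perm (Fin m)
  σ_cube : ∀ h, σ (σ (σ h)) = h
  ι_ne : ∀ h, ι h ≠ h
  ι_ι : ∀ h, ι (ι h) = h

/-- The rational vector space spanned by all vertex-oriented uni-trivalent graphs. -/
abbrev FreeSpace : Type := (Σ m : ℕ, UTGraph m) →₀ ℚ

/-- The basis element of `FreeSpace` given by the graph `G`. -/
noncomputable def gen {m : ℕ} (G : UTGraph m) : FreeSpace :=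
  Finsupp.single (⟨m, G⟩ : Σ m : ℕ, UTGraph m) (1 : ℚ)

/-- Isomorphic graphs are identified: `τ` is a bijection of half-edges respecting both
permutations. -/
def isoRel : Set FreeSpace :=
  {x | ∃ (m : ℕ) (G G' : UTGraph m) (τ : Equiv.Perm (Fin m)),
    (∀ h, τ (G.σ h) = G'.σ (τ h)) ∧ (∀ h, τ (G.ι h) = G'.ι (τ h)) ∧
    x = gen G - gen G'}

/-- AS: `G'` is `G` with the cyclic order reversed at the trivalent vertex
`{v, σ v, σ (σ v)}`; then `G + G' = 0`. -/
def asRel : Set FreeSpace :=
  {x | ∃ (m : ℕ) (G G' : UTGraph m) (v : Fin m),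
    G.σ v ≠ v ∧ G'.ι = G.ι ∧
    (∀ h, (h = v ∨ h = G.σ v ∨ h = G.σ (G.σ v)) → G'.σ h = G.σ.symm h) ∧
    (∀ h, ¬ (h = v ∨ h = G.σ v ∨ h = G.σ (G.σ v)) → G'.σ h = G.σ h) ∧
    x = gen G + gen G'}

/-- `Cyc σ a b c`: the half-edges `a, b, c` form a trivalent vertex with cyclic order
`a → b → c → a`. -/
def Cyc {m : ℕ} (σ : Equiv.Perm (Fin m)) (a b c : Fin m) : Prop :=
  σ a = b ∧ σ b = c ∧ σ c = a

/-- IHX in its Jacobi form. The three graphs agree except at the two distinct trivalent
vertices joined by the edge `{a, b}`, whose other half-edges are `p, q` and `r, s`: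
the first graph has the vertices a p q and b r s, the second has a q r and
b p s, the third has a r p and b q s (in these cyclic orders), and the sum of the three
is zero.
(By AS this is the same relation as I = H - X.) -/
def ihxRel : Set FreeSpace :=
  {x | ∃ (m : ℕ) (G₁ G₂ G₃ : UTGraph m) (a b p q r s : Fin m),
    [a, b, p, q, r, s].Nodup ∧ G₁.ι a = b ∧ G₂.ι = G₁.ι ∧ G₃.ι = G₁.ι ∧
    Cyc G₁.σ a p q ∧ Cyc G₁.σ b r s ∧
    Cyc G₂.σ a q r ∧ Cyc G₂.σ b p s ∧
    Cyc G₃.σ a r p ∧ Cyc G₃.σ b q s ∧
    (∀ h, h ∉ [a, b, p, q, r, s] → G₂.σ h = G₁.σ h ∧ G₃.σ h = G₁.σ h) ∧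
    x = gen G₁ + gen G₂ + gen G₃}

/-- The subspace spanned by all relations. -/
noncomputable def relSpace : Submodule ℚ FreeSpace :=
  Submodule.span ℚ (isoRel ∪ asRel ∪ ihxRel)

/-- The space `B` of vertex-oriented uni-trivalent graphs modulo isomorphism, AS and IHX. -/
abbrev B : Type := FreeSpace ⧸ relSpace

/-- The class of a graph in `B`. -/
noncomputable def cls {m : ℕ} (G : UTGraph m) : B := Submodule.Quotient.mk (gen G)

namespace UTGraph

variable {m : ℕ} (G : UTGraph m)

/-- The graph is nonempty and connected: any two half-edges are linked by a chain of steps,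
each between half-edges of one vertex (`σ`) or of one edge (`ι`). -/
def Connected : Prop :=
  0 < m ∧ ∀ h h' : Fin m, Relation.EqvGen (fun x y => y = G.σ x ∨ y = G.ι x) h h'

/-- The number of univalent vertices, i.e. of fixed points of `σ`. -/
def numUni : ℕ := (Finset.univ.filter fun h : Fin m => G.σ h = h).card

/-- The number of trivalent vertices, i.e. of `3`-cycles of `σ`. -/
def numTri : ℕ := (Finset.univ.filter fun h : Fin m => G.σ h ≠ h).card / 3

end UTGraph

/-- The subspace of `B` spanned by the connected graphs with `2 d` vertices of which exactly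
`u` are univalent. -/
noncomputable def Bconn (d u : ℕ) : Submodule ℚ B :=
  Submodule.span ℚ {x | ∃ (m : ℕ) (G : UTGraph m),
    G.Connected ∧ G.numUni = u ∧ G.numUni + G.numTri = 2 * d ∧ x = cls G}

/-- `β d u`, the dimension of that subspace. -/
noncomputable def beta (d u : ℕ) : ℕ := Module.finrank ℚ (Bconn d u)

end Pool.Agent.Helper663
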