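import Mathlib

/-!
# State sums of orthogonal type on half-edge structures
-/

set_option linter.unusedSectionVars false

namespace Pool.Agent.Helper663

open Finset

section Basic

variable {H : Type*} [Fintype H] [DecidableEq H] {I : Type*} [Fintype I] [DecidableEq I]

/-- edge weight -/
def Ew (neg : I → I) (l r l' r' : I) : ℤ :=
  (if l = r' ∧ r = l' then 1 else 0) - (if l = neg l' ∧ r = neg r' then 1 else 0)

theorem Ew_symm (neg : I → I) (hn : ∀ i, neg (neg i) = i) (l r l' r' : I) :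
    Ew neg l' r' l r = Ew neg l r l' r' := by
  unfold Ew
  have h1 : (l' = r ∧ r' = l) ↔ (l = r' ∧ r = l') := by
    constructor <;> rintro ⟨rfl, rfl⟩ <;> exact ⟨rfl, rfl⟩
  have h2 : (l' = neg l ∧ r' = neg r) ↔ (l = neg l' ∧ r = neg r') := by
    constructor <;> rintro ⟨rfl, rfl⟩ <;> simp [hn]
  simp only [h1, h2]

theorem Ew_flip (neg : I → I) (hn : ∀ i, neg (neg i) = i) (l r l' r' : I) :
    Ew neg (neg r) (neg l) l' r' = - Ew neg l r l' r' := by
  unfold Ew
  have hinj : ∀ i j, neg i = neg j ↔ i = j := fun i j =>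
    ⟨fun h => by have := congrArg neg h; simpa [hn] using this, fun h => by rw [h]⟩
  have hsw : ∀ i j, neg i = j ↔ i = neg j := fun i j =>
    ⟨fun h => by rw [← h, hn], fun h => by rw [h, hn]⟩
  have h1 : (neg r = r' ∧ neg l = l') ↔ (l = neg l' ∧ r = neg r') := by
    rw [hsw, hsw]; exact and_comm
  have h2 : (neg r = neg l' ∧ neg l = neg r') ↔ (l = r' ∧ r = l') := by
    rw [hinj, hinj]; exact and_comm
  simp only [h1, h2]
  ring

/-- `T` contains exactly one half-edge of every edge. -/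
def IsTrans (ι : H → H) (T : Finset H) : Prop := ∀ h, h ∈ T ↔ ι h ∉ T

theorem prod_trans_indep {ι : H → H} (hι : ∀ h, ι (ι h) = h) {T T' : Finset H}
    (hT : IsTrans ι T) (hT' : IsTrans ι T') (F : H → ℤ) (hF : ∀ h, F (ι h) = F h) :
    ∏ h ∈ T, F h = ∏ h ∈ T', F h := by
  refine Finset.prod_nbij' (fun h => if h ∈ T' then h else ι h)
    (fun h => if h ∈ T then h else ι h) ?_ ?_ ?_ ?_ ?_
  · intro h _
    by_cases h' : h ∈ T'
    · simp [h']
    · simp only [h', if_false]
      by_contra h''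
      exact h' ((hT' h).2 h'')
  · intro h _
    by_cases h' : h ∈ T
    · simp [h']
    · simp only [h', if_false]
      by_contra h''
      exact h' ((hT h).2 h'')
  · intro h hh
    by_cases h' : h ∈ T'
    · simp [h', hh]
    · simp [h', hι, (hT h).1 hh]
  · intro h hh
    by_cases h' : h ∈ T
    · simp [h', hh]
    · simp [h', hι, (hT' h).1 hh]
  · intro h hh
    by_cases h' : h ∈ T'
    · simp [h']
    · simp [h', hF]

theorem prod_trans_mul {ι : H → H} (hι : ∀ h, ι (ι h) = h) {T : Finset H}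
    (hT : IsTrans ι T) (f : H → ℤ) :
    ∏ h ∈ T, (f h * f (ι h)) = ∏ h, f h := by
  rw [Finset.prod_mul_distrib]
  have h2 : ∏ h ∈ T, f (ι h) = ∏ h ∈ Tᶜ, f h := by
    refine Finset.prod_nbij' ι ι ?_ ?_ ?_ ?_ ?_
    · intro h hh
      rw [Finset.mem_compl]
      exact (hT h).1 hh
    · intro h hh
      rw [Finset.mem_compl] at hh
      rw [hT, hι]
      exact hh
    · intro h _; exact hι h
    · intro h _; exact hι h
    · intro h _; rfl
  rw [h2, Finset.prod_mul_prod_compl]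

/-- The weight of an edge at `h`, for given left and right labels. -/
def edgeW (neg : I → I) (ι : H → H) (L R : H → I) (h : H) : ℤ :=
  Ew neg (L h) (R h) (L (ι h)) (R (ι h))

theorem edgeW_symm {neg : I → I} (hn : ∀ i, neg (neg i) = i) {ι : H → H}
    (hι : ∀ h, ι (ι h) = h) (L R : H → I) (h : H) :
    edgeW neg ι L R (ι h) = edgeW neg ι L R h := by
  unfold edgeW
  rw [hι]
  exact Ew_symm neg hn _ _ _ _

/-- flipping the labels on a set changes the sign per half-edge -/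
theorem edgeW_flip {neg : I → I} (hn : ∀ i, neg (neg i) = i) {ι : H → H}
    (L R L' R' : H → I) (ε : H → ℤ)
    (h : H)
    (h1 : (L' h = L h ∧ R' h = R h ∧ ε h = 1) ∨ (L' h = neg (R h) ∧ R' h = neg (L h) ∧ ε h = -1))
    (h2 : (L' (ι h) = L (ι h) ∧ R' (ι h) = R (ι h) ∧ ε (ι h) = 1) ∨
      (L' (ι h) = neg (R (ι h)) ∧ R' (ι h) = neg (L (ι h)) ∧ ε (ι h) = -1)) :
    edgeW neg ι L' R' h = (ε h * ε (ι h)) * edgeW neg ι L R h := by
  unfold edgeW
  rcases h1 with ⟨a1, a2, a3⟩ | ⟨a1, a2, a3⟩ <;> rcases h2 with ⟨b1, b2, b3⟩ | ⟨b1, b2, b3⟩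
  · rw [a1, a2, b1, b2, a3, b3]; ring
  · rw [a1, a2, b1, b2, a3, b3, Ew_symm neg hn, Ew_flip neg hn, Ew_symm neg hn]; ring
  · rw [a1, a2, b1, b2, a3, b3, Ew_flip neg hn]; ring
  · rw [a1, a2, b1, b2, a3, b3, Ew_flip neg hn, Ew_symm neg hn, Ew_flip neg hn,
      Ew_symm neg hn]; ring

/-- The state sum. -/
def stateSum (neg : I → I) (y : I → ℤ) (σ ι : Equiv.Perm H) (T : Finset H)
    (G : (H → I) → ℤ) : ℤ :=
  ∑ c : H → I, G c * (∏ h ∈ univ.filter (fun h => σ h = h), y (c h)) *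
    ∏ h ∈ T, edgeW neg ι c (fun x => c (σ.symm x)) h

theorem stateSum_trans {neg : I → I} (hn : ∀ i, neg (neg i) = i) (y : I → ℤ)
    (σ ι : Equiv.Perm H) (hι : ∀ h, ι (ι h) = h) {T T' : Finset H}
    (hT : IsTrans ι T) (hT' : IsTrans ι T') (G : (H → I) → ℤ) :
    stateSum neg y σ ι T G = stateSum neg y σ ι T' G := by
  unfold stateSum
  refine Finset.sum_congr rfl fun c _ => ?_
  rw [prod_trans_indep hι hT hT' _ (fun h => edgeW_symm hn hι _ _ h)]

end Basic

end Pool.Agent.Helper663
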