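import Mathlib
import Pool.Agent.Helper663.StateSum

set_option linter.unusedSectionVars false

namespace Pool.Agent.Helper663

open Finset

section Kernels

variable {I : Type*} [Fintype I] [DecidableEq I]

theorem neg_inj' {neg : I → I} (hn : ∀ i, neg (neg i) = i) (i j : I) : neg i = neg j ↔ i = j :=
  ⟨fun h => by have := congrArg neg h; simpa [hn] using this, fun h => by rw [h]⟩

theorem neg_sw {neg : I → I} (hn : ∀ i, neg (neg i) = i) (i j : I) : neg i = j ↔ i = neg j :=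
  ⟨fun h => by rw [← h, hn], fun h => by rw [h, hn]⟩

/-- summing out an edge weight -/
theorem sum_Ew {neg : I → I} (hn : ∀ i, neg (neg i) = i) (l r : I) (F : I → I → ℤ) :
    ∑ x, ∑ z, Ew neg l r x z * F x z = F r l - F (neg l) (neg r) := by
  have h1 : ∀ x z, Ew neg l r x z * F x z =
      (if r = x then (if l = z then F x z else 0) else 0) -
      (if neg l = x then (if neg r = z then F x z else 0) else 0) := by
    intro x z
    unfold Ew
    have e1 : (l = neg x ∧ r = neg z) ↔ (neg l = x ∧ neg r = z) := by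
      rw [neg_sw hn, neg_sw hn]
    simp only [e1, ite_and]
    split_ifs <;> ring
  simp only [h1, Finset.sum_sub_distrib]
  congr 1
  · rw [Finset.sum_eq_single r]
    · simp
    · intro b _ hb
      simp [Ne.symm hb]
    · intro h; exact absurd (mem_univ _) h
  · rw [Finset.sum_eq_single (neg l)]
    · simp
    · intro b _ hb
      simp [Ne.symm hb]
    · intro h; exact absurd (mem_univ _) h

theorem sum_pi_succ {n : ℕ} (F : (Fin (n + 1) → I) → ℤ) :
    ∑ c : Fin (n + 1) → I, F c = ∑ x : I, ∑ c : Fin n → I, F (Fin.cons x c) := by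
  rw [← Fintype.sum_prod_type' (fun (x : I) (c : Fin n → I) => F (Fin.cons x c))]
  exact (Fintype.sum_equiv (Fin.consEquiv (fun _ => I)) _ _ (fun _ => rfl)).symm

theorem sum_pi_zero (F : (Fin 0 → I) → ℤ) : ∑ c : Fin 0 → I, F c = F Fin.elim0 := by
  rw [Fintype.sum_unique]
  congr 1

theorem sum_fin4 (F : I → I → I → I → ℤ) :
    ∑ c : Fin 4 → I, F (c 0) (c 1) (c 2) (c 3) =
      ∑ x0, ∑ x1, ∑ x2, ∑ x3, F x0 x1 x2 x3 := by
  rw [sum_pi_succ]
  refine Finset.sum_congr rfl fun x0 _ => ?_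
  rw [sum_pi_succ]
  refine Finset.sum_congr rfl fun x1 _ => ?_
  rw [sum_pi_succ]
  refine Finset.sum_congr rfl fun x2 _ => ?_
  rw [sum_pi_succ]
  refine Finset.sum_congr rfl fun x3 _ => ?_
  rw [sum_pi_zero]
  rfl

theorem sum_fin6 (F : I → I → I → I → I → I → ℤ) :
    ∑ c : Fin 6 → I, F (c 0) (c 1) (c 2) (c 3) (c 4) (c 5) =
      ∑ x0, ∑ x1, ∑ x2, ∑ x3, ∑ x4, ∑ x5, F x0 x1 x2 x3 x4 x5 := by
  rw [sum_pi_succ]
  refine Finset.sum_congr rfl fun x0 _ => ?_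
  rw [sum_pi_succ]
  refine Finset.sum_congr rfl fun x1 _ => ?_
  rw [sum_pi_succ]
  refine Finset.sum_congr rfl fun x2 _ => ?_
  rw [sum_pi_succ]
  refine Finset.sum_congr rfl fun x3 _ => ?_
  rw [sum_pi_succ]
  refine Finset.sum_congr rfl fun x4 _ => ?_
  rw [sum_pi_succ]
  refine Finset.sum_congr rfl fun x5 _ => ?_
  rw [sum_pi_zero]
  rfl

/-- the hair kernel -/
theorem hair_kernel {neg : I → I} (hn : ∀ i, neg (neg i) = i) {y : I → ℤ}
    (hy : ∀ i, y (neg i) = - y i) (l r l' r' : I) :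
    ∑ c : Fin 4 → I, Ew neg l r (c 0) (c 2) * Ew neg l' r' (c 1) (c 0) *
      Ew neg (c 2) (c 1) (c 3) (c 3) * y (c 3) = 2 * (y l - y r) * Ew neg l r l' r' := by
  rw [sum_fin4 (fun x0 x1 x2 x3 => Ew neg l r x0 x2 * Ew neg l' r' x1 x0 *
      Ew neg x2 x1 x3 x3 * y x3)]
  have h1 : ∀ x1 x2 : I, ∑ x3, Ew neg x2 x1 x3 x3 * y x3 = if x2 = x1 then 2 * y x2 else 0 := by
    intro x1 x2
    have : ∀ x3, Ew neg x2 x1 x3 x3 * y x3 =
        (if x2 = x3 then (if x1 = x3 then y x3 else 0) else 0) -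
        (if neg x2 = x3 then (if neg x1 = x3 then y x3 else 0) else 0) := by
      intro x3
      unfold Ew
      have e1 : (x2 = neg x3 ∧ x1 = neg x3) ↔ (neg x2 = x3 ∧ neg x1 = x3) := by
        rw [neg_sw hn, neg_sw hn]
      simp only [e1, ite_and]
      split_ifs <;> ring
    simp only [this, Finset.sum_sub_distrib, Finset.sum_ite_eq, mem_univ, if_true]
    by_cases a : x2 = x1
    · subst a; simp [hy]; ring
    · have a' : ¬ x1 = x2 := fun h => a h.symm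
      have a2 : ¬ neg x1 = neg x2 := fun h => a' ((neg_inj' hn _ _).1 h)
      simp [a, a', a2]
  have h2 : ∀ x0 x2 : I, ∑ x1, ∑ x3, Ew neg l' r' x1 x0 * Ew neg x2 x1 x3 x3 * y x3 =
      2 * y x2 * Ew neg l' r' x2 x0 := by
    intro x0 x2
    have : ∀ x1, ∑ x3, Ew neg l' r' x1 x0 * Ew neg x2 x1 x3 x3 * y x3 =
        if x2 = x1 then 2 * y x2 * Ew neg l' r' x1 x0 else 0 := by
      intro x1
      simp only [mul_assoc]
      rw [← Finset.mul_sum, h1]
      split_ifs <;> ring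
    simp only [this, Finset.sum_ite_eq, mem_univ, if_true]
  have h3 : ∑ x0, ∑ x1, ∑ x2, ∑ x3, Ew neg l r x0 x2 * Ew neg l' r' x1 x0 *
      Ew neg x2 x1 x3 x3 * y x3 =
      ∑ x0, ∑ x2, Ew neg l r x0 x2 * (2 * y x2 * Ew neg l' r' x2 x0) := by
    refine Finset.sum_congr rfl fun x0 _ => ?_
    rw [Finset.sum_comm]
    refine Finset.sum_congr rfl fun x2 _ => ?_
    rw [← h2, Finset.mul_sum]
    refine Finset.sum_congr rfl fun x1 _ => ?_
    rw [Finset.mul_sum]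
    refine Finset.sum_congr rfl fun x3 _ => ?_
    ring
  rw [h3, sum_Ew hn l r (fun x0 x2 => 2 * y x2 * Ew neg l' r' x2 x0)]
  simp only [hy]
  rw [Ew_symm neg hn l r l' r']
  have : Ew neg l' r' (neg r) (neg l) = - Ew neg l r l' r' := by
    rw [Ew_symm neg hn, Ew_flip neg hn]
  rw [this]; ring

theorem ite_mul_expand (P Q R S : Prop) [Decidable P] [Decidable Q] [Decidable R] [Decidable S] :
    ((if P then (1 : ℤ) else 0) - (if Q then 1 else 0)) *
      ((if R then (1 : ℤ) else 0) - (if S then 1 else 0)) =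
    (if P ∧ R then (1 : ℤ) else 0) - (if P ∧ S then (1 : ℤ) else 0)
      - (if Q ∧ R then (1 : ℤ) else 0) + (if Q ∧ S then (1 : ℤ) else 0) := by
  by_cases p1 : P <;> by_cases p2 : Q <;> by_cases p3 : R <;> by_cases p4 : S <;>
    simp [p1, p2, p3, p4]

/-- auxiliary: inner sum of the bubble -/
def kap (neg : I → I) (f : I → I → ℤ) (u v : I) : ℤ :=
  (∑ m, f m u) - f (neg v) u - f (neg u) u

def kapt (neg : I → I) (f : I → I → ℤ) (l r : I) : ℤ :=
  kap neg f r l + kap neg f (neg l) (neg r)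

def phit (neg : I → I) (f : I → I → ℤ) (l l' : I) : ℤ :=
  f (neg l') l - f l' l - f (neg l') (neg l) + f l' (neg l)

theorem bubble_inner {neg : I → I} (hn : ∀ i, neg (neg i) = i) (f : I → I → ℤ)
    (x0 x2 x3 x5 : I) :
    ∑ x1, ∑ x4, Ew neg x1 x0 x5 x4 * Ew neg x2 x1 x4 x3 * f x1 x0 =
      (if x0 = x5 ∧ x2 = x3 then kap neg f x0 x2 else 0) +
      (if x0 = x2 ∧ x5 = x3 then f (neg x3) x0 else 0) := by
  have h1 : ∀ x1 x4, Ew neg x1 x0 x5 x4 * Ew neg x2 x1 x4 x3 * f x1 x0 =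
      (if x1 = x4 then (if x0 = x5 ∧ x2 = x3 then f x1 x0 else 0) else 0)
      - (if x1 = x4 then (if x1 = neg x2 then (if x0 = x5 ∧ x2 = x3 then f x1 x0 else 0) else 0) else 0)
      - (if x1 = x4 then (if x1 = neg x0 then (if x0 = x5 ∧ x2 = x3 then f x1 x0 else 0) else 0) else 0)
      + (if neg x0 = x4 then (if x1 = neg x3 then (if x0 = x2 ∧ x5 = x3 then f x1 x0 else 0) else 0) else 0) := by
    intro x1 x4
    unfold Ew
    rw [ite_mul_expand]
    have q1 : ((x1 = x4 ∧ x0 = x5) ∧ (x2 = x3 ∧ x1 = x4)) ↔ (x1 = x4 ∧ (x0 = x5 ∧ x2 = x3)) := by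
      tauto
    have q2 : ((x1 = x4 ∧ x0 = x5) ∧ (x2 = neg x4 ∧ x1 = neg x3)) ↔
        (x1 = x4 ∧ (x1 = neg x2 ∧ (x0 = x5 ∧ x2 = x3))) := by
      constructor
      · rintro ⟨⟨rfl, rfl⟩, h, h'⟩
        refine ⟨rfl, ?_, rfl, ?_⟩
        · rw [h, hn]
        · rw [h, h', hn]
      · rintro ⟨rfl, h, rfl, rfl⟩
        refine ⟨⟨rfl, rfl⟩, ?_, h⟩
        rw [h, hn]
    have q3 : ((x1 = neg x5 ∧ x0 = neg x4) ∧ (x2 = x3 ∧ x1 = x4)) ↔
        (x1 = x4 ∧ (x1 = neg x0 ∧ (x0 = x5 ∧ x2 = x3))) := by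
      constructor
      · rintro ⟨⟨h, h'⟩, rfl, rfl⟩
        refine ⟨rfl, ?_, ?_, rfl⟩
        · rw [h', hn]
        · rw [h', h, hn]
      · rintro ⟨rfl, h, rfl, rfl⟩
        refine ⟨⟨h, ?_⟩, rfl, rfl⟩
        rw [h, hn]
    have q4 : ((x1 = neg x5 ∧ x0 = neg x4) ∧ (x2 = neg x4 ∧ x1 = neg x3)) ↔
        (neg x0 = x4 ∧ (x1 = neg x3 ∧ (x0 = x2 ∧ x5 = x3))) := by
      constructor
      · rintro ⟨⟨h1, h2⟩, h3, h4⟩
        refine ⟨?_, h4, ?_, ?_⟩
        · rw [h2, hn]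
        · rw [h2, h3]
        · have : neg x5 = neg x3 := by rw [← h1, h4]
          exact (neg_inj' hn _ _).1 this
      · rintro ⟨rfl, h4, rfl, rfl⟩
        exact ⟨⟨h4, (hn _).symm⟩, (hn _).symm, h4⟩
    simp only [q1, q2, q3, q4, ite_and]
    split_ifs <;> ring
  simp only [h1, Finset.sum_add_distrib, Finset.sum_sub_distrib, Finset.sum_ite_eq, mem_univ,
    if_true, Finset.sum_ite_eq']
  unfold kap
  by_cases a : x0 = x5 ∧ x2 = x3 <;> by_cases b : x0 = x2 ∧ x5 = x3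
  · simp only [if_pos a, if_pos b]
  · simp only [if_pos a, if_neg b]
  · simp only [if_neg a, if_pos b, Finset.sum_const_zero, sub_zero]
  · simp only [if_neg a, if_neg b, Finset.sum_const_zero, sub_zero]

/-- the bubble kernel -/
theorem bubble_kernel {neg : I → I} (hn : ∀ i, neg (neg i) = i) (f : I → I → ℤ)
    (l r l' r' : I) :
    ∑ c : Fin 6 → I, Ew neg l r (c 0) (c 2) * Ew neg l' r' (c 3) (c 5) *
      Ew neg (c 1) (c 0) (c 5) (c 4) * Ew neg (c 2) (c 1) (c 4) (c 3) * f (c 1) (c 0) =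
    kapt neg f l r * Ew neg l r l' r' + (if l = r ∧ l' = r' then phit neg f l l' else 0) := by
  rw [sum_fin6 (fun x0 x1 x2 x3 x4 x5 => Ew neg l r x0 x2 * Ew neg l' r' x3 x5 *
      Ew neg x1 x0 x5 x4 * Ew neg x2 x1 x4 x3 * f x1 x0)]
  have h1 : ∑ x0, ∑ x1, ∑ x2, ∑ x3, ∑ x4, ∑ x5, Ew neg l r x0 x2 * Ew neg l' r' x3 x5 *
      Ew neg x1 x0 x5 x4 * Ew neg x2 x1 x4 x3 * f x1 x0 =
      ∑ x0, ∑ x2, Ew neg l r x0 x2 * ∑ x3, ∑ x5, Ew neg l' r' x3 x5 *
        ∑ x1, ∑ x4, Ew neg x1 x0 x5 x4 * Ew neg x2 x1 x4 x3 * f x1 x0 := by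
    refine Finset.sum_congr rfl fun x0 _ => ?_
    rw [Finset.sum_comm]
    refine Finset.sum_congr rfl fun x2 _ => ?_
    rw [Finset.mul_sum, Finset.sum_comm]
    refine Finset.sum_congr rfl fun x3 _ => ?_
    rw [Finset.mul_sum]
    have : ∑ x1, ∑ x4, ∑ x5, Ew neg l r x0 x2 * Ew neg l' r' x3 x5 *
      Ew neg x1 x0 x5 x4 * Ew neg x2 x1 x4 x3 * f x1 x0 =
      ∑ x5, ∑ x1, ∑ x4, Ew neg l r x0 x2 * Ew neg l' r' x3 x5 *
      Ew neg x1 x0 x5 x4 * Ew neg x2 x1 x4 x3 * f x1 x0 := by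
      have : ∀ x1, ∑ x4, ∑ x5, Ew neg l r x0 x2 * Ew neg l' r' x3 x5 *
        Ew neg x1 x0 x5 x4 * Ew neg x2 x1 x4 x3 * f x1 x0 =
        ∑ x5, ∑ x4, Ew neg l r x0 x2 * Ew neg l' r' x3 x5 *
        Ew neg x1 x0 x5 x4 * Ew neg x2 x1 x4 x3 * f x1 x0 := fun x1 => Finset.sum_comm
      simp only [this]
      rw [Finset.sum_comm]
    rw [this]
    refine Finset.sum_congr rfl fun x5 _ => ?_
    rw [Finset.mul_sum, Finset.mul_sum]
    refine Finset.sum_congr rfl fun x1 _ => ?_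
    rw [Finset.mul_sum, Finset.mul_sum]
    refine Finset.sum_congr rfl fun x4 _ => ?_
    ring
  rw [h1]
  simp only [bubble_inner hn]
  rw [sum_Ew hn l r (fun x0 x2 => ∑ x3, ∑ x5, Ew neg l' r' x3 x5 *
    ((if x0 = x5 ∧ x2 = x3 then kap neg f x0 x2 else 0) +
      (if x0 = x2 ∧ x5 = x3 then f (neg x3) x0 else 0)))]
  rw [sum_Ew hn l' r' (fun x3 x5 => ((if r = x5 ∧ l = x3 then kap neg f r l else 0) +
      (if r = l ∧ x5 = x3 then f (neg x3) r else 0))),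
    sum_Ew hn l' r' (fun x3 x5 => ((if neg l = x5 ∧ neg r = x3 then kap neg f (neg l) (neg r) else 0) +
      (if neg l = neg r ∧ x5 = x3 then f (neg x3) (neg l) else 0)))]
  unfold kapt phit Ew
  have c1 : (neg l = l' ∧ neg r = r') ↔ (l = neg l' ∧ r = neg r') := by
    rw [neg_sw hn, neg_sw hn]
  have c2 : (neg l = neg r' ∧ neg r = neg l') ↔ (l = r' ∧ r = l') := by
    rw [neg_inj' hn, neg_inj' hn]
  have c3 : (r = l' ∧ l = r') ↔ (l = r' ∧ r = l') := and_comm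
  have c4 : (r = neg r' ∧ l = neg l') ↔ (l = neg l' ∧ r = neg r') := and_comm
  have c5 : (r = l ∧ l' = r') ↔ (l = r ∧ l' = r') := by rw [eq_comm (a := r)]
  have c6 : (r = l ∧ neg r' = neg l') ↔ (l = r ∧ l' = r') := by
    rw [neg_inj' hn, eq_comm (a := r), eq_comm (a := r')]
  have c7 : (neg l = neg r ∧ l' = r') ↔ (l = r ∧ l' = r') := by rw [neg_inj' hn]
  have c8 : (neg l = neg r ∧ neg r' = neg l') ↔ (l = r ∧ l' = r') := by
    rw [neg_inj' hn, neg_inj' hn, eq_comm (a := r')]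
  simp only [c1, c2, c3, c4, c5, c6, c7, c8, hn]
  by_cases a : l = r' ∧ r = l' <;> by_cases b : l = neg l' ∧ r = neg r' <;>
    by_cases d : l = r ∧ l' = r'
  · simp only [if_pos a, if_pos b, if_pos d]
    obtain ⟨rfl, rfl⟩ := d
    ring
  · simp only [if_pos a, if_pos b, if_neg d]
    ring
  · simp only [if_pos a, if_neg b, if_pos d]
    obtain ⟨rfl, rfl⟩ := d
    ring
  · simp only [if_pos a, if_neg b, if_neg d]
    ring
  · simp only [if_neg a, if_pos b, if_pos d]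
    obtain ⟨rfl, rfl⟩ := d
    ring
  · simp only [if_neg a, if_pos b, if_neg d]
    ring
  · simp only [if_neg a, if_neg b, if_pos d]
    obtain ⟨rfl, rfl⟩ := d
    ring
  · simp only [if_neg a, if_neg b, if_neg d]
    ring

end Kernels

end Pool.Agent.Helper663
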