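import Mathlib
import Pool.Agent.Helper663.Kernels

set_option linter.unusedSectionVars false
set_option linter.unusedSimpArgs false

namespace Pool.Agent.Helper663

open Finset

section Theta

variable {I : Type*} [Fintype I] [DecidableEq I]

/-- generalised edge kernel with a Cartan part -/
def Kg (neg : I → I) (A P : I → I → ℤ) (l r l' r' : I) : ℤ :=
  A l r * Ew neg l r l' r' + (if l = r ∧ l' = r' then P l l' else 0)

theorem sum_first {neg : I → I} (hn : ∀ i, neg (neg i) = i) (A P : I → I → ℤ)
    (c0 c1 u : I) (G : I → ℤ) :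
    ∑ x, Kg neg A P c1 c0 x u * G x =
      (if c1 = u then A c1 c0 * G c0 else 0) - (if u = neg c0 then A c1 c0 * G (neg c1) else 0)
      + (if c1 = c0 then P c1 u * G u else 0) := by
  have h1 : ∀ x, Kg neg A P c1 c0 x u * G x =
      (if c0 = x then (if c1 = u then A c1 c0 * G x else 0) else 0)
      - (if neg c1 = x then (if u = neg c0 then A c1 c0 * G x else 0) else 0)
      + (if u = x then (if c1 = c0 then P c1 x * G x else 0) else 0) := by
    intro x
    unfold Kg Ew
    have e1 : (c1 = u ∧ c0 = x) ↔ (c0 = x ∧ c1 = u) := and_comm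
    have e2 : (c1 = neg x ∧ c0 = neg u) ↔ (neg c1 = x ∧ u = neg c0) := by
      rw [neg_sw hn, eq_comm (a := u), neg_sw hn]
    have e3 : (c1 = c0 ∧ x = u) ↔ (u = x ∧ c1 = c0) := by
      rw [eq_comm (a := x)]; exact and_comm
    simp only [e1, e2, e3, ite_and]
    split_ifs <;> ring
  simp only [h1, Finset.sum_add_distrib, Finset.sum_sub_distrib, Finset.sum_ite_eq, mem_univ,
    if_true]

/-- the second factor -/
theorem theta_Q1 {neg : I → I} (hn : ∀ i, neg (neg i) = i) (A B PA PB : I → I → ℤ)
    (c0 c1 c2 : I) :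
    ∑ x, Kg neg A PA c1 c0 x c2 * Kg neg B PB c2 c1 c0 x =
      (if c1 = c0 then (if c2 = c0 then A c1 c0 * B c2 c1 + PA c1 c2 * PB c2 c0 else 0) else 0)
      - (if c1 = neg c0 then (if c2 = neg c0 then A c1 c0 * B c2 c1 + A c1 c0 * PB c2 c0 else 0) else 0)
      - (if c1 = c0 then (if c2 = neg c0 then A c1 c0 * B c2 c1 + PA c1 c2 * B c2 c1 else 0) else 0)
      + (if c2 = neg c0 then A c1 c0 * B c2 c1 else 0)
      + (if c2 = c1 then A c1 c0 * PB c2 c0 else 0)
      + (if c1 = c0 then PA c1 c2 * B c2 c1 else 0) := by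
  rw [sum_first hn A PA c0 c1 c2 (fun x => Kg neg B PB c2 c1 c0 x)]
  unfold Kg Ew
  by_cases h1 : c1 = c0
  · subst h1
    by_cases h2 : c2 = c1
    · subst h2
      by_cases h3 : c2 = neg c2
      · have h4 : neg c2 = c2 := h3.symm
        simp only [h4, if_true, and_self]
        ring
      · have h4 : ¬ neg c2 = c2 := fun h => h3 h.symm
        simp only [if_neg h3, if_true, and_self, hn, if_neg h4, h3, h4, if_false]
        ring
    · have h2' : ¬ c1 = c2 := fun h => h2 h.symm
      by_cases h3 : c2 = neg c1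
      · subst h3
        simp only [hn, if_true, and_self, h2, h2', if_false, and_false, and_true, false_and,
          true_and, ite_self]
        ring
      · simp only [hn, if_true, and_self, h2, h2', h3, if_false, and_false, and_true, false_and,
          true_and, ite_self]
        ring
  · have h1' : ¬ c0 = c1 := fun h => h1 h.symm
    by_cases h2 : c2 = c1
    · subst h2
      by_cases h3 : c2 = neg c0
      · subst h3
        simp only [hn, if_true, and_self, h1, h1', if_false, and_false, and_true, false_and,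
          true_and, ite_self]
        ring
      · have h4 : ¬ c0 = neg c2 := fun h => h3 (by rw [h, hn])
        simp only [hn, if_true, and_self, h1, h1', h3, h4, if_false, and_false, and_true,
          false_and, true_and, ite_self]
        ring
    · have h2' : ¬ c1 = c2 := fun h => h2 h.symm
      by_cases h3 : c2 = neg c0
      · subst h3
        simp only [hn, if_true, and_self, h1, h1', h2, h2', if_false, and_false, and_true,
          false_and, true_and, ite_self]
        ring
      · simp only [hn, if_true, and_self, h1, h1', h2, h2', h3, if_false, and_false, and_true,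
          false_and, true_and, ite_self]
        ring

theorem theta_Q2 {neg : I → I} (hn : ∀ i, neg (neg i) = i) (A B PA PB : I → I → ℤ)
    (c0 c1 c2 : I) :
    ∑ x, Kg neg A PA c1 c0 x (neg c0) * Kg neg B PB c2 c1 (neg c2) x =
      A c1 c0 * B c2 c1
      - (if c1 = neg c0 then A c1 c0 * B c2 c1 else 0)
      - (if c2 = neg c1 then A c1 c0 * B c2 c1 else 0)
      + (if c1 = neg c0 then (if c2 = c0 then A c1 c0 * B c2 c1 else 0) else 0)
      + (if c1 = neg c0 then (if c2 = neg c0 then A c1 c0 * PB c2 (neg c2) else 0) else 0)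
      - (if c2 = c1 then A c1 c0 * PB c2 (neg c2) else 0)
      + (if c1 = c0 then (if c2 = neg c0 then PA c1 (neg c0) * B c2 c1 else 0) else 0)
      - (if c1 = c0 then PA c1 (neg c0) * B c2 c1 else 0)
      + (if c1 = c0 then (if c2 = c0 then PA c1 (neg c0) * PB c2 (neg c2) else 0) else 0) := by
  rw [sum_first hn A PA c0 c1 (neg c0) (fun x => Kg neg B PB c2 c1 (neg c2) x)]
  unfold Kg Ew
  by_cases h1 : c1 = c0
  · subst h1
    by_cases h2 : c2 = c1
    · subst h2
      by_cases h3 : c2 = neg c2
      · have h4 : neg c2 = c2 := h3.symm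
        simp only [h4, if_true, and_self]
        ring
      · have h4 : ¬ neg c2 = c2 := fun h => h3 h.symm
        simp only [if_neg h3, if_true, and_self, hn, if_neg h4, h3, h4, if_false, true_and,
          and_true]
        ring
    · have h2' : ¬ c1 = c2 := fun h => h2 h.symm
      have h2'' : ¬ neg c2 = neg c1 := fun h => h2 ((neg_inj' hn _ _).1 h)
      have h2a : ¬ neg c1 = neg c2 := fun h => h2'' h.symm
      by_cases h3 : c2 = neg c1
      · subst h3
        simp only [hn, if_true, and_self, h2, h2', if_false, and_false, and_true, false_and,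
          true_and, ite_self]
        ring
      · have h4 : ¬ c1 = neg c2 := fun h => h3 (by rw [h, hn])
        simp only [hn, if_true, and_self, h2, h2', h2'', h2a, h3, h4, if_false, and_false,
          and_true, false_and, true_and, ite_self]
        split_ifs <;> ring
  · have h1' : ¬ c0 = c1 := fun h => h1 h.symm
    have h1'' : ¬ neg c1 = neg c0 := fun h => h1 ((neg_inj' hn _ _).1 h)
    have h1a : ¬ neg c0 = neg c1 := fun h => h1'' h.symm
    by_cases h5 : c1 = neg c0
    · subst h5
      by_cases h2 : c2 = neg c0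
      · subst h2
        simp only [hn, if_true, and_self, h1, h1', if_false, and_false, and_true, false_and,
          true_and, ite_self]
        ring
      · have h2a : ¬ neg c0 = c2 := fun h => h2 h.symm
        have h2b : ¬ c0 = neg c2 := fun h => h2 (by rw [h, hn])
        have h2c : ¬ neg c2 = c0 := fun h => h2b h.symm
        by_cases h3 : c2 = c0
        · subst h3
          simp only [hn, if_true, and_self, h1, h1', h2, h2a, h2b, h2c, if_false, and_false,
            and_true, false_and, true_and, ite_self]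
          ring
        · have h3a : ¬ c0 = c2 := fun h => h3 h.symm
          simp only [hn, if_true, and_self, h1, h1', h2, h2a, h2b, h2c, h3, h3a, if_false,
            and_false, and_true, false_and, true_and, ite_self]
          ring
    · have h5a : ¬ neg c0 = c1 := fun h => h5 h.symm
      have h5b : ¬ c0 = neg c1 := fun h => h5 (by rw [h, hn])
      have h5c : ¬ neg c1 = c0 := fun h => h5b h.symm
      by_cases h2 : c2 = c1
      · subst h2
        by_cases h6 : c2 = neg c2
        · have h6' : neg c2 = c2 := h6.symm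
          simp only [hn, h6', if_true, and_self, h1, h1', h5, h5a, h5b, h5c, if_false,
            and_false, and_true, false_and, true_and, ite_self]
          ring
        · have h6' : ¬ neg c2 = c2 := fun h => h6 h.symm
          simp only [hn, h6, h6', if_true, and_self, h1, h1', h5, h5a, h5b, h5c, if_false,
            and_false, and_true, false_and, true_and, ite_self]
          ring
      · have h2a : ¬ c1 = c2 := fun h => h2 h.symm
        have h2b : ¬ neg c2 = neg c1 := fun h => h2 ((neg_inj' hn _ _).1 h)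
        have h2c : ¬ neg c1 = neg c2 := fun h => h2b h.symm
        by_cases h6 : c2 = neg c1
        · subst h6
          simp only [hn, if_true, and_self, h1, h1', h5, h5a, h5b, h5c, h2, h2a, if_false,
            and_false, and_true, false_and, true_and, ite_self]
          ring
        · have h6a : ¬ c1 = neg c2 := fun h => h6 (by rw [h, hn])
          simp only [hn, if_true, and_self, h1, h1', h5, h5a, h5b, h5c, h2, h2a, h2b, h2c, h6,
            h6a, if_false, and_false, and_true, false_and, true_and, ite_self]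
          ring

/-- the state sum of the theta graph with generalised kernels on two edges -/
theorem theta_sum {neg : I → I} (hn : ∀ i, neg (neg i) = i) (A B PA PB : I → I → ℤ) :
    ∑ c : Fin 6 → I, Ew neg (c 0) (c 2) (c 3) (c 5) * Kg neg A PA (c 1) (c 0) (c 4) (c 3) *
      Kg neg B PB (c 2) (c 1) (c 5) (c 4) =
    - (∑ x, ∑ t, ∑ z, A t x * B z t)
    + (∑ x, ∑ t, (A t x * B (neg t) t + A (neg x) x * B t (neg x) + A t x * B (neg x) t))
    - (∑ x, (A (neg x) x * B x (neg x) + A x x * B (neg x) x + A (neg x) x * B (neg x) (neg x)))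
    + (∑ x, A x x * B x x)
    + (∑ x, ∑ z, (PA x z * B z x + PA x (neg x) * B z x)) - 2 * (∑ x, PA x (neg x) * B (neg x) x)
    + (∑ x, ∑ t, A t x * (PB t x + PB t (neg t))) - 2 * (∑ x, A (neg x) x * PB (neg x) x)
    + (∑ x, (PA x x * PB x x - PA x (neg x) * PB x (neg x))) := by
  rw [sum_fin6 (fun x0 x1 x2 x3 x4 x5 => Ew neg x0 x2 x3 x5 * Kg neg A PA x1 x0 x4 x3 *
      Kg neg B PB x2 x1 x5 x4)]
  have h1 : ∀ x0 x1 x2 : I, ∑ x3, ∑ x4, ∑ x5, Ew neg x0 x2 x3 x5 * Kg neg A PA x1 x0 x4 x3 *
      Kg neg B PB x2 x1 x5 x4 =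
      (∑ x, Kg neg A PA x1 x0 x x2 * Kg neg B PB x2 x1 x0 x) -
      (∑ x, Kg neg A PA x1 x0 x (neg x0) * Kg neg B PB x2 x1 (neg x2) x) := by
    intro x0 x1 x2
    have : ∑ x3, ∑ x4, ∑ x5, Ew neg x0 x2 x3 x5 * Kg neg A PA x1 x0 x4 x3 *
      Kg neg B PB x2 x1 x5 x4 = ∑ x4, ∑ x3, ∑ x5, Ew neg x0 x2 x3 x5 *
        (Kg neg A PA x1 x0 x4 x3 * Kg neg B PB x2 x1 x5 x4) := by
      rw [Finset.sum_comm]
      refine Finset.sum_congr rfl fun x4 _ => ?_
      refine Finset.sum_congr rfl fun x3 _ => ?_
      refine Finset.sum_congr rfl fun x5 _ => ?_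
      ring
    rw [this, ← Finset.sum_sub_distrib]
    refine Finset.sum_congr rfl fun x4 _ => ?_
    exact sum_Ew hn x0 x2 (fun x3 x5 => Kg neg A PA x1 x0 x4 x3 * Kg neg B PB x2 x1 x5 x4)
  simp only [h1, theta_Q1 hn, theta_Q2 hn]
  have S1 : ∀ F : I → I → I → ℤ, ∑ x0, ∑ x1, ∑ x2, (if x1 = x0 then
      (if x2 = x0 then F x0 x1 x2 else 0) else 0) = ∑ x, F x x x := by
    intro F
    refine Finset.sum_congr rfl fun x0 _ => ?_
    simp only [Finset.sum_ite_irrel, Finset.sum_const_zero, Finset.sum_ite_eq', mem_univ, if_true]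
  have S2 : ∀ F : I → I → I → ℤ, ∑ x0, ∑ x1, ∑ x2, (if x1 = neg x0 then
      (if x2 = neg x0 then F x0 x1 x2 else 0) else 0) = ∑ x, F x (neg x) (neg x) := by
    intro F
    refine Finset.sum_congr rfl fun x0 _ => ?_
    simp only [Finset.sum_ite_irrel, Finset.sum_const_zero, Finset.sum_ite_eq', mem_univ, if_true]
  have S3 : ∀ F : I → I → I → ℤ, ∑ x0, ∑ x1, ∑ x2, (if x1 = x0 then
      (if x2 = neg x0 then F x0 x1 x2 else 0) else 0) = ∑ x, F x x (neg x) := by
    intro F
    refine Finset.sum_congr rfl fun x0 _ => ?_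
    simp only [Finset.sum_ite_irrel, Finset.sum_const_zero, Finset.sum_ite_eq', mem_univ, if_true]
  have S4 : ∀ F : I → I → I → ℤ, ∑ x0, ∑ x1, ∑ x2, (if x1 = neg x0 then
      (if x2 = x0 then F x0 x1 x2 else 0) else 0) = ∑ x, F x (neg x) x := by
    intro F
    refine Finset.sum_congr rfl fun x0 _ => ?_
    simp only [Finset.sum_ite_irrel, Finset.sum_const_zero, Finset.sum_ite_eq', mem_univ, if_true]
  have S5 : ∀ F : I → I → I → ℤ, ∑ x0, ∑ x1, ∑ x2, (if x2 = neg x0 then F x0 x1 x2 else 0) =
      ∑ x, ∑ t, F x t (neg x) := by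
    intro F
    simp only [Finset.sum_ite_eq', mem_univ, if_true]
  have S6 : ∀ F : I → I → I → ℤ, ∑ x0, ∑ x1, ∑ x2, (if x2 = x1 then F x0 x1 x2 else 0) =
      ∑ x, ∑ t, F x t t := by
    intro F
    simp only [Finset.sum_ite_eq', mem_univ, if_true]
  have S7 : ∀ F : I → I → I → ℤ, ∑ x0, ∑ x1, ∑ x2, (if x1 = x0 then F x0 x1 x2 else 0) =
      ∑ x, ∑ t, F x x t := by
    intro F
    refine Finset.sum_congr rfl fun x0 _ => ?_
    simp only [Finset.sum_ite_irrel, Finset.sum_const_zero, Finset.sum_ite_eq', mem_univ, if_true]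
  have S8 : ∀ F : I → I → I → ℤ, ∑ x0, ∑ x1, ∑ x2, (if x1 = neg x0 then F x0 x1 x2 else 0) =
      ∑ x, ∑ t, F x (neg x) t := by
    intro F
    refine Finset.sum_congr rfl fun x0 _ => ?_
    simp only [Finset.sum_ite_irrel, Finset.sum_const_zero, Finset.sum_ite_eq', mem_univ, if_true]
  have S9 : ∀ F : I → I → I → ℤ, ∑ x0, ∑ x1, ∑ x2, (if x2 = neg x1 then F x0 x1 x2 else 0) =
      ∑ x, ∑ t, F x t (neg t) := by
    intro F
    simp only [Finset.sum_ite_eq', mem_univ, if_true]
  simp only [Finset.sum_add_distrib, Finset.sum_sub_distrib, S1, S2, S3, S4, S5, S6, S7, S8, S9,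
    mul_add, hn]
  ring

end Theta

end Pool.Agent.Helper663
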