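import Mathlib
import Pool.Agent.Helper663.Defs
import Pool.Agent.Helper663.Theta

set_option linter.unusedSectionVars false
set_option linter.unusedSimpArgs false

namespace Pool.Agent.Helper663

open Finset

/-- the core graph: a theta graph with bubbles inserted in two of its edges -/
def coreσ : Equiv.Perm (Fin 18) where
  toFun := ![1, 2, 0, 4, 5, 3, 7, 8, 6, 10, 11, 9, 13, 14, 12, 16, 17, 15]
  invFun := ![2, 0, 1, 5, 3, 4, 8, 6, 7, 11, 9, 10, 14, 12, 13, 17, 15, 16]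
  left_inv := by decide
  right_inv := by decide

def coreι : Equiv.Perm (Fin 18) where
  toFun := ![3, 6, 12, 0, 9, 15, 1, 11, 10, 4, 8, 7, 2, 17, 16, 5, 14, 13]
  invFun := ![3, 6, 12, 0, 9, 15, 1, 11, 10, 4, 8, 7, 2, 17, 16, 5, 14, 13]
  left_inv := by decide
  right_inv := by decide

def core : UTGraph 18 where
  σ := coreσ
  ι := coreι
  σ_cube := by decide
  ι_ne := by decide
  ι_ι := by decide

/-- a transversal -/
def coreT : Finset (Fin 18) := {0, 1, 4, 7, 8, 2, 5, 13, 14}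

theorem coreT_isTrans : IsTrans coreι coreT := by
  unfold IsTrans coreT
  decide

section Eval

variable {I : Type*} [Fintype I] [DecidableEq I]

/-- the formula for the state sum of the theta graph -/
def thetaForm (neg : I → I) (A B PA PB : I → I → ℤ) : ℤ :=
    - (∑ x, ∑ t, ∑ z, A t x * B z t)
    + (∑ x, ∑ t, (A t x * B (neg t) t + A (neg x) x * B t (neg x) + A t x * B (neg x) t))
    - (∑ x, (A (neg x) x * B x (neg x) + A x x * B (neg x) x + A (neg x) x * B (neg x) (neg x)))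
    + (∑ x, A x x * B x x)
    + (∑ x, ∑ z, (PA x z * B z x + PA x (neg x) * B z x)) - 2 * (∑ x, PA x (neg x) * B (neg x) x)
    + (∑ x, ∑ t, A t x * (PB t x + PB t (neg t))) - 2 * (∑ x, A (neg x) x * PB (neg x) x)
    + (∑ x, (PA x x * PB x x - PA x (neg x) * PB x (neg x)))

def hairF (y : I → ℤ) (a : ℕ) (m u : I) : ℤ := (y m - y u) ^ a

def Aker (neg : I → I) (y : I → ℤ) (a e : ℕ) (l r : I) : ℤ :=
  (y l - y r) ^ e * kapt neg (hairF y a) l r

def Pker (neg : I → I) (y : I → ℤ) (a e : ℕ) (l l' : I) : ℤ :=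
  0 ^ e * phit neg (hairF y a) l l'

/-- the hair polynomial -/
def coreG (y : I → ℤ) (a b e d : ℕ) (c : Fin 18 → I) : ℤ :=
  (y (c 1) - y (c (coreσ.symm 1))) ^ e * (y (c 2) - y (c (coreσ.symm 2))) ^ d *
  (y (c 7) - y (c (coreσ.symm 7))) ^ a * (y (c 13) - y (c (coreσ.symm 13))) ^ b

theorem sum_split (F : (Fin 18 → I) → ℤ) :
    ∑ c : Fin 18 → I, F c = ∑ c0 : Fin 6 → I, ∑ c1 : Fin 6 → I, ∑ c2 : Fin 6 → I,
      F (Fin.append c0 (Fin.append c1 c2) : Fin (6 + (6 + 6)) → I) := by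
  have h1 := Fintype.sum_equiv (Fin.appendEquiv (α := I) 6 12)
    (fun p => F (Fin.append p.1 p.2 : Fin (6 + 12) → I)) F (fun _ => rfl)
  rw [← h1, Fintype.sum_prod_type]
  refine Finset.sum_congr rfl fun c0 _ => ?_
  have h2 := Fintype.sum_equiv (Fin.appendEquiv (α := I) 6 6)
    (fun p => F (Fin.append c0 (Fin.append p.1 p.2 : Fin (6 + 6) → I) : Fin (6 + 12) → I))
    (fun c' => F (Fin.append c0 c' : Fin (6 + 12) → I)) (fun _ => rfl)
  simp only []
  rw [← h2, Fintype.sum_prod_type]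

theorem core_eval {neg : I → I} (hn : ∀ i, neg (neg i) = i) (y : I → ℤ) (a b e d : ℕ) :
    stateSum neg y coreσ coreι coreT (coreG y a b e d) =
      thetaForm neg (Aker neg y a e) (Aker neg y b d) (Pker neg y a e) (Pker neg y b d) := by
  unfold stateSum
  have hfix : (univ.filter fun h => coreσ h = h) = ∅ := by decide
  rw [hfix]
  simp only [Finset.prod_empty, mul_one]
  rw [sum_split]
  have key : ∀ c0 c1 c2 : Fin 6 → I,
      coreG y a b e d (Fin.append c0 (Fin.append c1 c2) : Fin (6 + (6 + 6)) → I) *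
      ∏ h ∈ coreT, edgeW neg coreι (Fin.append c0 (Fin.append c1 c2) : Fin (6 + (6 + 6)) → I)
        (fun x => (Fin.append c0 (Fin.append c1 c2) : Fin (6 + (6 + 6)) → I) (coreσ.symm x)) h =
      Ew neg (c0 0) (c0 2) (c0 3) (c0 5) *
      ((y (c0 1) - y (c0 0)) ^ e * (Ew neg (c0 1) (c0 0) (c1 0) (c1 2) *
        Ew neg (c0 4) (c0 3) (c1 3) (c1 5) * Ew neg (c1 1) (c1 0) (c1 5) (c1 4) *
        Ew neg (c1 2) (c1 1) (c1 4) (c1 3) * hairF y a (c1 1) (c1 0))) *
      ((y (c0 2) - y (c0 1)) ^ d * (Ew neg (c0 2) (c0 1) (c2 0) (c2 2) *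
        Ew neg (c0 5) (c0 4) (c2 3) (c2 5) * Ew neg (c2 1) (c2 0) (c2 5) (c2 4) *
        Ew neg (c2 2) (c2 1) (c2 4) (c2 3) * hairF y b (c2 1) (c2 0))) := by
    intro c0 c1 c2
    have hprod : ∀ f : Fin 18 → ℤ, ∏ h ∈ coreT, f h =
        f 0 * (f 1 * (f 4 * (f 7 * (f 8 * (f 2 * (f 5 * (f 13 * f 14))))))) := by
      intro f
      unfold coreT
      rw [Finset.prod_insert (by decide), Finset.prod_insert (by decide),
        Finset.prod_insert (by decide), Finset.prod_insert (by decide),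
        Finset.prod_insert (by decide), Finset.prod_insert (by decide),
        Finset.prod_insert (by decide), Finset.prod_insert (by decide), Finset.prod_singleton]
    rw [hprod]
    have e0 : edgeW neg coreι (Fin.append c0 (Fin.append c1 c2) : Fin (6 + (6 + 6)) → I)
        (fun x => (Fin.append c0 (Fin.append c1 c2) : Fin (6 + (6 + 6)) → I) (coreσ.symm x)) 0 =
        Ew neg (c0 0) (c0 2) (c0 3) (c0 5) := rfl
    have e1 : edgeW neg coreι (Fin.append c0 (Fin.append c1 c2) : Fin (6 + (6 + 6)) → I)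
        (fun x => (Fin.append c0 (Fin.append c1 c2) : Fin (6 + (6 + 6)) → I) (coreσ.symm x)) 1 =
        Ew neg (c0 1) (c0 0) (c1 0) (c1 2) := rfl
    have e4 : edgeW neg coreι (Fin.append c0 (Fin.append c1 c2) : Fin (6 + (6 + 6)) → I)
        (fun x => (Fin.append c0 (Fin.append c1 c2) : Fin (6 + (6 + 6)) → I) (coreσ.symm x)) 4 =
        Ew neg (c0 4) (c0 3) (c1 3) (c1 5) := rfl
    have e7 : edgeW neg coreι (Fin.append c0 (Fin.append c1 c2) : Fin (6 + (6 + 6)) → I)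
        (fun x => (Fin.append c0 (Fin.append c1 c2) : Fin (6 + (6 + 6)) → I) (coreσ.symm x)) 7 =
        Ew neg (c1 1) (c1 0) (c1 5) (c1 4) := rfl
    have e8 : edgeW neg coreι (Fin.append c0 (Fin.append c1 c2) : Fin (6 + (6 + 6)) → I)
        (fun x => (Fin.append c0 (Fin.append c1 c2) : Fin (6 + (6 + 6)) → I) (coreσ.symm x)) 8 =
        Ew neg (c1 2) (c1 1) (c1 4) (c1 3) := rfl
    have e2 : edgeW neg coreι (Fin.append c0 (Fin.append c1 c2) : Fin (6 + (6 + 6)) → I)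
        (fun x => (Fin.append c0 (Fin.append c1 c2) : Fin (6 + (6 + 6)) → I) (coreσ.symm x)) 2 =
        Ew neg (c0 2) (c0 1) (c2 0) (c2 2) := rfl
    have e5 : edgeW neg coreι (Fin.append c0 (Fin.append c1 c2) : Fin (6 + (6 + 6)) → I)
        (fun x => (Fin.append c0 (Fin.append c1 c2) : Fin (6 + (6 + 6)) → I) (coreσ.symm x)) 5 =
        Ew neg (c0 5) (c0 4) (c2 3) (c2 5) := rfl
    have e13 : edgeW neg coreι (Fin.append c0 (Fin.append c1 c2) : Fin (6 + (6 + 6)) → I)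
        (fun x => (Fin.append c0 (Fin.append c1 c2) : Fin (6 + (6 + 6)) → I) (coreσ.symm x)) 13 =
        Ew neg (c2 1) (c2 0) (c2 5) (c2 4) := rfl
    have e14 : edgeW neg coreι (Fin.append c0 (Fin.append c1 c2) : Fin (6 + (6 + 6)) → I)
        (fun x => (Fin.append c0 (Fin.append c1 c2) : Fin (6 + (6 + 6)) → I) (coreσ.symm x)) 14 =
        Ew neg (c2 2) (c2 1) (c2 4) (c2 3) := rfl
    have eG : coreG y a b e d (Fin.append c0 (Fin.append c1 c2) : Fin (6 + (6 + 6)) → I) =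
        (y (c0 1) - y (c0 0)) ^ e * (y (c0 2) - y (c0 1)) ^ d *
        (y (c1 1) - y (c1 0)) ^ a * (y (c2 1) - y (c2 0)) ^ b := rfl
    rw [e0, e1, e4, e7, e8, e2, e5, e13, e14, eG]
    unfold hairF
    ring
  simp only [key]
  have h2 : ∀ c0 : Fin 6 → I, ∑ c1 : Fin 6 → I, ∑ c2 : Fin 6 → I,
      Ew neg (c0 0) (c0 2) (c0 3) (c0 5) *
      ((y (c0 1) - y (c0 0)) ^ e * (Ew neg (c0 1) (c0 0) (c1 0) (c1 2) *
        Ew neg (c0 4) (c0 3) (c1 3) (c1 5) * Ew neg (c1 1) (c1 0) (c1 5) (c1 4) *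
        Ew neg (c1 2) (c1 1) (c1 4) (c1 3) * hairF y a (c1 1) (c1 0))) *
      ((y (c0 2) - y (c0 1)) ^ d * (Ew neg (c0 2) (c0 1) (c2 0) (c2 2) *
        Ew neg (c0 5) (c0 4) (c2 3) (c2 5) * Ew neg (c2 1) (c2 0) (c2 5) (c2 4) *
        Ew neg (c2 2) (c2 1) (c2 4) (c2 3) * hairF y b (c2 1) (c2 0))) =
      Ew neg (c0 0) (c0 2) (c0 3) (c0 5) *
        Kg neg (Aker neg y a e) (Pker neg y a e) (c0 1) (c0 0) (c0 4) (c0 3) *
        Kg neg (Aker neg y b d) (Pker neg y b d) (c0 2) (c0 1) (c0 5) (c0 4) := by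
    intro c0
    have k1 : ∀ (a e : ℕ) (l r l' r' : I), (y l - y r) ^ e *
        (kapt neg (hairF y a) l r * Ew neg l r l' r' +
          (if l = r ∧ l' = r' then phit neg (hairF y a) l l' else 0)) =
        Kg neg (Aker neg y a e) (Pker neg y a e) l r l' r' := by
      intro a e l r l' r'
      unfold Kg Aker Pker
      by_cases h : l = r ∧ l' = r'
      · rw [if_pos h, if_pos h]
        obtain ⟨rfl, rfl⟩ := h
        rw [sub_self]; ring
      · rw [if_neg h, if_neg h]; ring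
    rw [← k1, ← k1, ← bubble_kernel hn (hairF y a) (c0 1) (c0 0) (c0 4) (c0 3),
      ← bubble_kernel hn (hairF y b) (c0 2) (c0 1) (c0 5) (c0 4)]
    simp only [Finset.mul_sum, Finset.sum_mul]
    exact Finset.sum_comm
  simp only [h2]
  rw [theta_sum hn]
  rfl

end Eval

end Pool.Agent.Helper663
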