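import Mathlib
import Pool.Agent.Helper663.Cert

/-! # The integer matrix of values has nonzero determinant -/

namespace Pool.Agent.Helper663

/-- the value of the functional `f` on the test graph `g`, up to the factor `2 ^ 20` -/
def evalZ (f : ℕ × ℕ × ℕ × ℕ × ℕ) (g : ℕ × ℕ × ℕ × ℕ) : ℤ :=
  thetaZ (SZ f.1 f.2.1 f.2.2.1 f.2.2.2.1 f.2.2.2.2) g.1 g.2.1 g.2.2.1 g.2.2.2

theorem evalN_rep (f : ℕ × ℕ × ℕ × ℕ × ℕ) (g : ℕ × ℕ × ℕ × ℕ) :
    Rep (evalN f g) (evalZ f g) := by
  obtain ⟨j0, j1, j2, v1, v2⟩ := f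
  obtain ⟨a, b, e, d⟩ := g
  exact (theta_rep (fun F G h => Rep.S (Rep.ofNat v1).neg (Rep.ofNat v2).neg h) a b e d).mod

theorem getD_matL_length (i : ℕ) : (matL.getD i []).length ≤ 39 := by
  by_cases h : i < matL.length
  · rw [List.getD_eq_getElem _ _ h]
    have := List.all_eq_true.1 len_mat _ (List.getElem_mem h)
    exact Nat.le_of_ble_eq_true this
  · rw [List.getD_eq_default _ _ (by omega)]
    simp

/-- the matrix of values -/
def TZ : Matrix (Fin 39) (Fin 39) ℤ := fun i j => evalZ (getF i) (getM j)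

/-- the inverse modulo 32003 -/
def NP : Matrix (Fin 39) (Fin 39) (ZMod 32003) :=
  fun j k => (((invL.getD k []).getD j 0 : ℕ) : ZMod 32003)

theorem TZ_map (i j : Fin 39) : ((TZ i j : ℤ) : ZMod 32003) =
    (((matL.getD i []).getD j 0 : ℕ) : ZMod 32003) := by
  have h1 : chkRow i = true :=
    List.all_eq_true.1 chkAll_true _ (List.mem_range.2 i.2)
  have h2 : chk i j = true :=
    List.all_eq_true.1 h1 _ (List.mem_range.2 j.2)
  have h3 : evalN (getF i) (getM j) = (matL.getD i []).getD j 0 := Nat.eq_of_beq_eq_true h2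
  rw [← h3]
  exact (evalN_rep (getF i) (getM j)).symm

theorem TZ_mul_NP : (TZ.map (Int.castRingHom (ZMod 32003))) * NP = 1 := by
  ext i k
  rw [Matrix.mul_apply, Matrix.one_apply]
  have h1 : ((List.range 39).all fun k => chkInv i k) = true :=
    List.all_eq_true.1 chkInvAll_true _ (List.mem_range.2 i.2)
  have h2 : chkInv i k = true :=
    List.all_eq_true.1 h1 _ (List.mem_range.2 k.2)
  have h3 := Nat.eq_of_beq_eq_true h2
  rw [dot_eq _ _ 39 (getD_matL_length i)] at h3
  have h4 : ∀ j : Fin 39, (TZ.map (Int.castRingHom (ZMod 32003))) i j * NP j k =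
      (((matL.getD i []).getD j 0 * (invL.getD k []).getD j 0 : ℕ) : ZMod 32003) := by
    intro j
    rw [Nat.cast_mul, ← TZ_map i j]
    rfl
  simp only [h4]
  rw [← Nat.cast_sum]
  have h5 : ((Nat.mod (∑ j : Fin 39, (matL.getD i []).getD j 0 * (invL.getD k []).getD j 0)
      32003 : ℕ) : ZMod 32003) =
      ((∑ j : Fin 39, (matL.getD i []).getD j 0 * (invL.getD k []).getD j 0 : ℕ) :
        ZMod 32003) := ZMod.natCast_mod _ _
  rw [← h5, h3]
  by_cases hik : i = k
  · subst hik
    rw [if_pos rfl]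
    have : Nat.beq i i = true := Nat.beq_refl _
    rw [this]
    simp
  · rw [if_neg hik]
    have : Nat.beq i k = false := by
      rw [Bool.eq_false_iff]
      intro h
      exact hik (Fin.ext (Nat.eq_of_beq_eq_true h))
    rw [this]
    simp

theorem TZ_det : TZ.det ≠ 0 := by
  intro h
  have h1 : (TZ.map (Int.castRingHom (ZMod 32003))).det = 0 := by
    have := RingHom.map_det (Int.castRingHom (ZMod 32003)) TZ
    rw [h, map_zero] at this
    exact this.symm
  have h2 := congrArg Matrix.det TZ_mul_NP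
  rw [Matrix.det_mul, h1, zero_mul, Matrix.det_one] at h2
  exact absurd h2 (by decide)

/-- no nonzero rational combination of the columns vanishes -/
theorem TZ_indep (c : Fin 39 → ℚ) (h : ∀ i, ∑ j, c j * ((TZ i j : ℤ) : ℚ) = 0) : c = 0 := by
  have hdet : (TZ.map (Int.castRingHom ℚ)).det ≠ 0 := by
    have := RingHom.map_det (Int.castRingHom ℚ) TZ
    intro h0
    have h1 : (Int.castRingHom ℚ) TZ.det = 0 := by rw [this]; exact h0
    have h2 : ((TZ.det : ℤ) : ℚ) = 0 := h1
    exact TZ_det (by exact_mod_cast h2)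
  refine Matrix.eq_zero_of_mulVec_eq_zero hdet ?_
  funext i
  rw [Matrix.mulVec, dotProduct]
  simp only [Pi.zero_apply]
  rw [← h i]
  refine Finset.sum_congr rfl fun j _ => ?_
  rw [mul_comm]
  rfl

end Pool.Agent.Helper663
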