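import Mathlib
import Pool.Agent.Helper663.StateSum

set_option linter.unusedSectionVars false

namespace Pool.Agent.Helper663

open Finset

section IHX

variable {H : Type*} [Fintype H] [DecidableEq H] {I : Type*} [Fintype I] [DecidableEq I]

/-- product over fixed points -/
def fixW (y : I → ℤ) (σ : Equiv.Perm H) (c : H → I) : ℤ :=
  ∏ h ∈ univ.filter (fun h => σ h = h), y (c h)

def partA (neg : I → I) (y : I → ℤ) (σ ι : Equiv.Perm H) (T : Finset H) (a : H) : ℤ :=
  ∑ c ∈ univ.filter (fun c : H → I => c a = c (σ.symm (ι a)) ∧ c (σ.symm a) = c (ι a)),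
    fixW y σ c * ∏ h ∈ T.erase a, edgeW neg ι c (fun x => c (σ.symm x)) h

def partB (neg : I → I) (y : I → ℤ) (σ ι : Equiv.Perm H) (T : Finset H) (a : H) : ℤ :=
  ∑ c ∈ univ.filter (fun c : H → I => c a = neg (c (ι a)) ∧
      c (σ.symm a) = neg (c (σ.symm (ι a)))),
    fixW y σ c * ∏ h ∈ T.erase a, edgeW neg ι c (fun x => c (σ.symm x)) h

theorem stateSum_parts (neg : I → I) (y : I → ℤ) (σ ι : Equiv.Perm H) {T : Finset H} {a : H}
    (ha : a ∈ T) :
    stateSum neg y σ ι T (fun _ => 1) = partA neg y σ ι T a - partB neg y σ ι T a := by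
  unfold stateSum partA partB
  rw [Finset.sum_filter, Finset.sum_filter, ← Finset.sum_sub_distrib]
  refine Finset.sum_congr rfl fun c _ => ?_
  rw [← Finset.mul_prod_erase T _ ha]
  have : edgeW neg ι c (fun x => c (σ.symm x)) a =
      (if c a = c (σ.symm (ι a)) ∧ c (σ.symm a) = c (ι a) then 1 else 0) -
      (if c a = neg (c (ι a)) ∧ c (σ.symm a) = neg (c (σ.symm (ι a))) then 1 else 0) := rfl
  rw [this]
  unfold fixW
  split_ifs <;> ring

theorem partA_eq_partB {neg : I → I} (hn : ∀ i, neg (neg i) = i) (y : I → ℤ)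
    (σ τ ι : Equiv.Perm H) (hι : ∀ h, ι (ι h) = h) {T : Finset H} (hT : IsTrans ι T)
    {a b p q r s : H} (ha : a ∈ T) (hab : ι a = b)
    (nd : [a, b, p, q, r, s].Nodup)
    (s1 : σ a = p) (s2 : σ p = q) (s3 : σ q = a) (s4 : σ b = r) (s5 : σ r = s) (s6 : σ s = b)
    (t1 : τ a = q) (t2 : τ q = r) (t3 : τ r = a) (t4 : τ b = p) (t5 : τ p = s) (t6 : τ s = b)
    (ho : ∀ h, h ∉ [a, b, p, q, r, s] → τ h = σ h) :
    partA neg y σ ι T a = partB neg y τ ι T a := by
  classical
  simp only [List.nodup_cons, List.mem_cons, List.not_mem_nil, or_false, not_or,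
    List.nodup_nil, and_true, not_false_eq_true] at nd
  obtain ⟨⟨nab, nap, naq, nar, nas⟩, ⟨nbp, nbq, nbr, nbs⟩, ⟨npq, npr, nps⟩, ⟨nqr, nqs⟩, nrs⟩ := nd
  have σa : σ.symm a = q := by rw [Equiv.symm_apply_eq, s3]
  have σp : σ.symm p = a := by rw [Equiv.symm_apply_eq, s1]
  have σq : σ.symm q = p := by rw [Equiv.symm_apply_eq, s2]
  have σb : σ.symm b = s := by rw [Equiv.symm_apply_eq, s6]
  have σr : σ.symm r = b := by rw [Equiv.symm_apply_eq, s4]
  have σs : σ.symm s = r := by rw [Equiv.symm_apply_eq, s5]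
  have τa : τ.symm a = r := by rw [Equiv.symm_apply_eq, t3]
  have τq : τ.symm q = a := by rw [Equiv.symm_apply_eq, t1]
  have τr : τ.symm r = q := by rw [Equiv.symm_apply_eq, t2]
  have τb : τ.symm b = s := by rw [Equiv.symm_apply_eq, t6]
  have τp : τ.symm p = b := by rw [Equiv.symm_apply_eq, t4]
  have τs : τ.symm s = p := by rw [Equiv.symm_apply_eq, t5]
  have hsix : ∀ h, ¬ (h ∉ [a, b, p, q, r, s]) → h = a ∨ h = b ∨ h = p ∨ h = q ∨ h = r ∨ h = s := by
    intro h hh
    have hh' := not_not.1 hh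
    simpa using hh'
  have hoth : ∀ h, h ∉ [a, b, p, q, r, s] → σ.symm h ∉ [a, b, p, q, r, s] := by
    intro h hh hc
    apply hh
    simp only [List.mem_cons, List.not_mem_nil, or_false] at hc ⊢
    have hσ : h = σ (σ.symm h) := (Equiv.apply_symm_apply σ h).symm
    rcases hc with h' | h' | h' | h' | h' | h' <;> rw [h'] at hσ <;> rw [hσ]
    · right; right; left; exact s1
    · right; right; right; right; left; exact s4
    · right; right; right; left; exact s2
    · left; exact s3
    · right; right; right; right; right; exact s5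
    · right; left; exact s6
  have hτoth : ∀ h, h ∉ [a, b, p, q, r, s] → τ.symm h = σ.symm h := by
    intro h hh
    rw [Equiv.symm_apply_eq, ho _ (hoth h hh), Equiv.apply_symm_apply]
  let i : (H → I) → (H → I) := fun c h =>
    if h = a then c p else if h = b then neg (c p) else if h = p then neg (c a)
    else if h = s then neg (c r) else c h
  let j : (H → I) → (H → I) := fun c h =>
    if h = a then neg (c p) else if h = b then c q else if h = p then c a
    else if h = s then neg (c p) else c h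
  have ia : ∀ c, i c a = c p := fun c => by simp [i]
  have ib : ∀ c, i c b = neg (c p) := fun c => by simp [i, Ne.symm nab]
  have ip : ∀ c, i c p = neg (c a) := fun c => by simp [i, Ne.symm nap, Ne.symm nbp]
  have is' : ∀ c, i c s = neg (c r) := fun c => by simp [i, Ne.symm nas, Ne.symm nbs, Ne.symm nps]
  have iq : ∀ c, i c q = c q := fun c => by
    simp [i, Ne.symm naq, Ne.symm nbq, Ne.symm npq, nqs]
  have ir : ∀ c, i c r = c r := fun c => by
    simp [i, Ne.symm nar, Ne.symm nbr, Ne.symm npr, nrs]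
  have io : ∀ c h, h ∉ [a, b, p, q, r, s] → i c h = c h := fun c h hh => by
    simp only [List.mem_cons, List.not_mem_nil, or_false, not_or] at hh
    simp [i, hh.1, hh.2.1, hh.2.2.1, hh.2.2.2.2.2]
  have ja : ∀ c, j c a = neg (c p) := fun c => by simp [j]
  have jb : ∀ c, j c b = c q := fun c => by simp [j, Ne.symm nab]
  have jp : ∀ c, j c p = c a := fun c => by simp [j, Ne.symm nap, Ne.symm nbp]
  have js : ∀ c, j c s = neg (c p) := fun c => by simp [j, Ne.symm nas, Ne.symm nbs, Ne.symm nps]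
  have jq : ∀ c, j c q = c q := fun c => by
    simp [j, Ne.symm naq, Ne.symm nbq, Ne.symm npq, nqs]
  have jr : ∀ c, j c r = c r := fun c => by
    simp [j, Ne.symm nar, Ne.symm nbr, Ne.symm npr, nrs]
  have jo : ∀ c h, h ∉ [a, b, p, q, r, s] → j c h = c h := fun c h hh => by
    simp only [List.mem_cons, List.not_mem_nil, or_false, not_or] at hh
    simp [j, hh.1, hh.2.1, hh.2.2.1, hh.2.2.2.2.2]
  unfold partA partB
  refine Finset.sum_nbij' i j ?_ ?_ ?_ ?_ ?_
  · intro c _
    simp only [mem_filter, mem_univ, true_and]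
    rw [hab, τa, τb, ia, ib, ir, is', hn, hn]
    exact ⟨rfl, rfl⟩
  · intro c _
    simp only [mem_filter, mem_univ, true_and]
    rw [hab, σa, σb, ja, jb, jq, js]
    exact ⟨rfl, rfl⟩
  · intro c hc
    simp only [mem_filter, mem_univ, true_and] at hc
    rw [hab, σa, σb] at hc
    funext h
    by_cases hh : h ∉ [a, b, p, q, r, s]
    · rw [jo _ _ hh, io _ _ hh]
    · rcases hsix h hh with rfl | rfl | rfl | rfl | rfl | rfl
      · rw [ja, ip, hn]
      · rw [jb, iq, hc.2]
      · rw [jp, ia]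
      · rw [jq, iq]
      · rw [jr, ir]
      · rw [js, ip, hn, hc.1]
  · intro c hc
    simp only [mem_filter, mem_univ, true_and] at hc
    rw [hab, τa, τb] at hc
    funext h
    by_cases hh : h ∉ [a, b, p, q, r, s]
    · rw [io _ _ hh, jo _ _ hh]
    · rcases hsix h hh with rfl | rfl | rfl | rfl | rfl | rfl
      · rw [ia, jp]
      · rw [ib, jp, hc.1, hn]
      · rw [ip, ja, hn]
      · rw [iq, jq]
      · rw [ir, jr]
      · rw [is', jr, hc.2, hn]
  · intro c hc
    simp only [mem_filter, mem_univ, true_and] at hc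
    rw [hab, σa, σb] at hc
    have hfix : (univ.filter fun h => τ h = h) = univ.filter fun h => σ h = h := by
      ext h
      simp only [mem_filter, mem_univ, true_and]
      by_cases hh : h ∉ [a, b, p, q, r, s]
      · rw [ho h hh]
      · rcases hsix h hh with rfl | rfl | rfl | rfl | rfl | rfl
        · rw [s1, t1]; exact ⟨fun h => absurd h.symm naq, fun h => absurd h.symm nap⟩
        · rw [s4, t4]; exact ⟨fun h => absurd h.symm nbp, fun h => absurd h.symm nbr⟩
        · rw [s2, t5]; exact ⟨fun h => absurd h.symm nps, fun h => absurd h.symm npq⟩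
        · rw [s3, t2]; exact ⟨fun h => absurd h.symm nqr, fun h => absurd h naq⟩
        · rw [s5, t3]; exact ⟨fun h => absurd h nar, fun h => absurd h.symm nrs⟩
        · rw [s6, t6]
    have e1 : fixW y τ (i c) = fixW y σ c := by
      unfold fixW
      rw [hfix]
      refine Finset.prod_congr rfl fun h hh => ?_
      simp only [mem_filter, mem_univ, true_and] at hh
      rw [io]
      intro hc'
      simp only [List.mem_cons, List.not_mem_nil, or_false] at hc'
      rcases hc' with rfl | rfl | rfl | rfl | rfl | rfl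
      · rw [s1] at hh; exact nap hh.symm
      · rw [s4] at hh; exact nbr hh.symm
      · rw [s2] at hh; exact npq hh.symm
      · rw [s3] at hh; exact naq hh
      · rw [s5] at hh; exact nrs hh.symm
      · rw [s6] at hh; exact nbs hh
    let ε : H → ℤ := fun h => if h = p ∨ h = s then -1 else 1
    have hcase : ∀ h, h ≠ a → h ≠ b →
        (i c h = c h ∧ i c (τ.symm h) = c (σ.symm h) ∧ ε h = 1) ∨
        (i c h = neg (c (σ.symm h)) ∧ i c (τ.symm h) = neg (c h) ∧ ε h = -1) := by
      intro h h1 h2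
      by_cases hh : h ∉ [a, b, p, q, r, s]
      · left
        have hh' := hh
        simp only [List.mem_cons, List.not_mem_nil, or_false, not_or] at hh'
        refine ⟨io _ _ hh, ?_, ?_⟩
        · rw [hτoth h hh, io _ _ (hoth h hh)]
        · simp [ε, hh'.2.2.1, hh'.2.2.2.2.2]
      · rcases hsix h hh with rfl | rfl | rfl | rfl | rfl | rfl
        · exact absurd rfl h1
        · exact absurd rfl h2
        · right
          refine ⟨?_, ?_, ?_⟩
          · rw [ip, σp]
          · rw [τp, ib]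
          · simp [ε]
        · left
          refine ⟨iq c, ?_, ?_⟩
          · rw [τq, ia, σq]
          · simp [ε, Ne.symm npq, nqs]
        · left
          refine ⟨ir c, ?_, ?_⟩
          · rw [τr, iq, σr, hc.2]
          · simp [ε, Ne.symm npr, nrs]
        · right
          refine ⟨?_, ?_, ?_⟩
          · rw [is', σs]
          · rw [τs, ip, hc.1]
          · simp [ε]
    have hbT : b ∉ T := by rw [← hab]; exact (hT a).1 ha
    have e2 : (∏ h ∈ T.erase a, edgeW neg ι (i c) (fun x => i c (τ.symm x)) h) =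
        ∏ h ∈ T.erase a, edgeW neg ι c (fun x => c (σ.symm x)) h := by
      have : ∀ h ∈ T.erase a, edgeW neg ι (i c) (fun x => i c (τ.symm x)) h =
          (ε h * ε (ι h)) * edgeW neg ι c (fun x => c (σ.symm x)) h := by
        intro h hh
        rw [Finset.mem_erase] at hh
        have g1 : h ≠ b := fun h' => hbT (h' ▸ hh.2)
        have g2 : ι h ≠ a := by
          intro h'
          apply g1
          rw [← hab, ← h', hι]
        have g3 : ι h ≠ b := by
          intro h'
          apply hh.1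
          rw [← hι h, h', ← hab, hι]
        exact edgeW_flip hn c (fun x => c (σ.symm x)) (i c) (fun x => i c (τ.symm x)) ε h
          (hcase h hh.1 g1) (hcase (ι h) g2 g3)
      rw [Finset.prod_congr rfl this, Finset.prod_mul_distrib]
      have hE : ∏ h ∈ T.erase a, (ε h * ε (ι h)) = 1 := by
        have h1 := Finset.mul_prod_erase T (fun h => ε h * ε (ι h)) ha
        rw [prod_trans_mul hι hT] at h1
        have h2 : ε a * ε (ι a) = 1 := by
          rw [hab]; simp [ε, nap, nas, nbp, nbs]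
        simp only [h2, one_mul] at h1
        rw [h1]
        have h3 : ∏ h, ε h = ∏ h ∈ ({p, s} : Finset H), ε h := by
          symm
          refine Finset.prod_subset (Finset.subset_univ _) fun h _ hh => ?_
          simp only [Finset.mem_insert, Finset.mem_singleton] at hh
          simp only [ε, hh, if_false]
        rw [h3, Finset.prod_pair nps]
        simp [ε]
      rw [hE, one_mul]
    rw [e1, e2]

theorem stateSum_IHX {neg : I → I} (hn : ∀ i, neg (neg i) = i) (y : I → ℤ)
    (σ₁ σ₂ σ₃ ι : Equiv.Perm H) (hι : ∀ h, ι (ι h) = h) {T : Finset H} (hT : IsTrans ι T)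
    {a b p q r s : H} (hab : ι a = b)
    (nd : [a, b, p, q, r, s].Nodup)
    (s1 : σ₁ a = p) (s2 : σ₁ p = q) (s3 : σ₁ q = a)
    (s4 : σ₁ b = r) (s5 : σ₁ r = s) (s6 : σ₁ s = b)
    (t1 : σ₂ a = q) (t2 : σ₂ q = r) (t3 : σ₂ r = a)
    (t4 : σ₂ b = p) (t5 : σ₂ p = s) (t6 : σ₂ s = b)
    (u1 : σ₃ a = r) (u2 : σ₃ r = p) (u3 : σ₃ p = a)
    (u4 : σ₃ b = q) (u5 : σ₃ q = s) (u6 : σ₃ s = b)
    (ho : ∀ h, h ∉ [a, b, p, q, r, s] → σ₂ h = σ₁ h ∧ σ₃ h = σ₁ h) :
    stateSum neg y σ₁ ι T (fun _ => 1) + stateSum neg y σ₂ ι T (fun _ => 1) +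
      stateSum neg y σ₃ ι T (fun _ => 1) = 0 := by
  classical
  -- choose a transversal containing `a`
  obtain ⟨T', hT', haT'⟩ : ∃ T' : Finset H, IsTrans ι T' ∧ a ∈ T' := by
    by_cases ha : a ∈ T
    · exact ⟨T, hT, ha⟩
    · refine ⟨Tᶜ, ?_, by simpa using ha⟩
      intro h
      simp only [Finset.mem_compl, not_not]
      constructor
      · intro hh
        rw [hT, hι]; exact hh
      · intro hh hc
        exact ((hT h).1 hc) hh
  rw [stateSum_trans hn y σ₁ ι hι hT hT', stateSum_trans hn y σ₂ ι hι hT hT',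
    stateSum_trans hn y σ₃ ι hι hT hT', stateSum_parts neg y σ₁ ι haT',
    stateSum_parts neg y σ₂ ι haT', stateSum_parts neg y σ₃ ι haT']
  have nd2 : [a, b, q, r, p, s].Nodup := by
    simp only [List.nodup_cons, List.mem_cons, List.not_mem_nil, or_false, not_or,
      List.nodup_nil, and_true, not_false_eq_true] at nd ⊢
    obtain ⟨⟨nab, nap, naq, nar, nas⟩, ⟨nbp, nbq, nbr, nbs⟩, ⟨npq, npr, nps⟩, ⟨nqr, nqs⟩, nrs⟩ := nd
    exact ⟨⟨nab, naq, nar, nap, nas⟩, ⟨nbq, nbr, nbp, nbs⟩, ⟨nqr, Ne.symm npq, nqs⟩,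
      ⟨Ne.symm npr, nrs⟩, nps⟩
  have nd3 : [a, b, r, p, q, s].Nodup := by
    simp only [List.nodup_cons, List.mem_cons, List.not_mem_nil, or_false, not_or,
      List.nodup_nil, and_true, not_false_eq_true] at nd ⊢
    obtain ⟨⟨nab, nap, naq, nar, nas⟩, ⟨nbp, nbq, nbr, nbs⟩, ⟨npq, npr, nps⟩, ⟨nqr, nqs⟩, nrs⟩ := nd
    exact ⟨⟨nab, nar, nap, naq, nas⟩, ⟨nbr, nbp, nbq, nbs⟩, ⟨Ne.symm npr, Ne.symm nqr, nrs⟩,
      ⟨npq, nps⟩, nqs⟩
  have m2 : ∀ h, h ∉ [a, b, q, r, p, s] → h ∉ [a, b, p, q, r, s] := by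
    intro h hh hc
    apply hh
    simp only [List.mem_cons, List.not_mem_nil, or_false] at hc ⊢
    tauto
  have m3 : ∀ h, h ∉ [a, b, r, p, q, s] → h ∉ [a, b, p, q, r, s] := by
    intro h hh hc
    apply hh
    simp only [List.mem_cons, List.not_mem_nil, or_false] at hc ⊢
    tauto
  have A1 := partA_eq_partB hn y σ₁ σ₂ ι hι hT' haT' hab nd s1 s2 s3 s4 s5 s6
    t1 t2 t3 t4 t5 t6 (fun h hh => (ho h hh).1)
  have A2 := partA_eq_partB hn y σ₂ σ₃ ι hι hT' haT' hab nd2 t1 t2 t3 t4 t5 t6
    u1 u2 u3 u4 u5 u6 (fun h hh => by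
      rw [(ho h (m2 h hh)).1, (ho h (m2 h hh)).2])
  have A3 := partA_eq_partB hn y σ₃ σ₁ ι hι hT' haT' hab nd3 u1 u2 u3 u4 u5 u6
    s1 s2 s3 s4 s5 s6 (fun h hh => by
      rw [(ho h (m3 h hh)).2])
  rw [A1, A2, A3]
  ring

end IHX

end Pool.Agent.Helper663
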