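import Mathlib
import Pool.Agent.Helper663.StateSum

set_option linter.unusedSectionVars false

namespace Pool.Agent.Helper663

open Finset

section Rel

variable {H : Type*} [Fintype H] [DecidableEq H] {I : Type*} [Fintype I] [DecidableEq I]

theorem stateSum_iso {H' : Type*} [Fintype H'] [DecidableEq H'] {neg : I → I}
    (hn : ∀ i, neg (neg i) = i) (y : I → ℤ)
    (σ ι : Equiv.Perm H) (σ' ι' : Equiv.Perm H') (τ : H ≃ H')
    (hσ : ∀ h, τ (σ h) = σ' (τ h)) (hι' : ∀ h, τ (ι h) = ι' (τ h))
    (hιι : ∀ h, ι (ι h) = h)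
    {T : Finset H} {T' : Finset H'} (hT : IsTrans ι T) (hT' : IsTrans ι' T')
    (G : (H → I) → ℤ) :
    stateSum neg y σ' ι' T' (fun c => G (fun h => c (τ h))) = stateSum neg y σ ι T G := by
  have hιι' : ∀ h, ι' (ι' h) = h := by
    intro h
    obtain ⟨x, rfl⟩ := τ.surjective h
    rw [← hι', ← hι', hιι]
  have hσs : ∀ x, σ'.symm (τ x) = τ (σ.symm x) := by
    intro x
    rw [Equiv.symm_apply_eq, ← hσ, Equiv.apply_symm_apply]
  have hT2 : IsTrans ι' (T.map τ.toEmbedding) := by
    intro h
    obtain ⟨x, rfl⟩ := τ.surjective h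
    rw [← hι']
    have := hT x
    simpa using this
  rw [stateSum_trans hn y σ' ι' hιι' hT' hT2]
  unfold stateSum
  refine Fintype.sum_equiv (Equiv.arrowCongr τ.symm (Equiv.refl I)) _ _ fun c => ?_
  have e1 : (∏ h ∈ univ.filter (fun h => σ' h = h), y (c h)) =
      ∏ h ∈ univ.filter (fun h => σ h = h), y (c (τ h)) := by
    refine (Finset.prod_nbij' τ τ.symm ?_ ?_ ?_ ?_ ?_).symm
    · intro h hh
      simp only [mem_filter, mem_univ, true_and] at hh ⊢
      rw [← hσ, hh]
    · intro h hh
      simp only [mem_filter, mem_univ, true_and] at hh ⊢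
      apply τ.injective
      rw [hσ, Equiv.apply_symm_apply, hh]
    · intro h _; simp
    · intro h _; simp
    · intro h _; rfl
  have e2 : (∏ h ∈ T.map τ.toEmbedding, edgeW neg ι' c (fun x => c (σ'.symm x)) h) =
      ∏ h ∈ T, edgeW neg ι (fun h => c (τ h)) (fun x => c (τ (σ.symm x))) h := by
    rw [Finset.prod_map]
    refine Finset.prod_congr rfl fun h _ => ?_
    unfold edgeW
    simp only [Equiv.coe_toEmbedding]
    rw [← hι', hσs, hσs]
  rw [e1, e2]
  rfl

/-- AS for the state sum. -/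
theorem stateSum_AS {neg : I → I} (hn : ∀ i, neg (neg i) = i) (y : I → ℤ)
    (σ σ' ι : Equiv.Perm H) (hσ : ∀ h, σ (σ (σ h)) = h) (hι : ∀ h, ι (ι h) = h)
    (v : H) (hv : σ v ≠ v)
    (h1 : ∀ h, (h = v ∨ h = σ v ∨ h = σ (σ v)) → σ' h = σ.symm h)
    (h2 : ∀ h, ¬ (h = v ∨ h = σ v ∨ h = σ (σ v)) → σ' h = σ h)
    {T : Finset H} (hT : IsTrans ι T) :
    stateSum neg y σ' ι T (fun _ => 1) = - stateSum neg y σ ι T (fun _ => 1) := by
  classical
  set O : H → Prop := fun h => h = v ∨ h = σ v ∨ h = σ (σ v) with hO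
  have hsymm : ∀ h, σ.symm h = σ (σ h) := by
    intro h; rw [Equiv.symm_apply_eq, hσ]
  have hv1 : σ (σ v) ≠ v := by
    intro h
    apply hv
    have := hσ v
    rw [h] at this
    exact this
  have hv2 : σ (σ v) ≠ σ v := fun h => hv (σ.injective h)
  have hOσ : ∀ h, O h → O (σ h) := by
    rintro h (rfl | rfl | rfl)
    · exact Or.inr (Or.inl rfl)
    · exact Or.inr (Or.inr rfl)
    · exact Or.inl (hσ v)
  have hOσ2 : ∀ h, O (σ h) → O h := by
    intro h hh
    have := hOσ _ (hOσ _ hh)
    rwa [hσ] at this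
  have hOσs : ∀ h, O (σ.symm h) ↔ O h := by
    intro h
    rw [hsymm]
    exact ⟨fun hh => hOσ2 _ (hOσ2 _ hh), fun hh => hOσ _ (hOσ _ hh)⟩
  have hσ'symm1 : ∀ h, O h → σ'.symm h = σ h := by
    intro h hh
    rw [Equiv.symm_apply_eq, h1 _ (hOσ h hh), Equiv.symm_apply_apply]
  have hσ'symm2 : ∀ h, ¬ O h → σ'.symm h = σ.symm h := by
    intro h hh
    rw [Equiv.symm_apply_eq, h2 _ (fun hc => hh ((hOσs h).1 hc)), Equiv.apply_symm_apply]
  -- the change of variables
  let Φ : (H → I) → (H → I) := fun c h => if O h then neg (c (σ.symm h)) else c h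
  let Ψ : (H → I) → (H → I) := fun c h => if O h then neg (c (σ h)) else c h
  have hΨΦ : ∀ c, Ψ (Φ c) = c := by
    intro c; funext h
    by_cases hh : O h
    · simp only [Ψ, Φ, hh, if_true, hOσ h hh, hn, Equiv.symm_apply_apply]
    · simp only [Ψ, Φ, hh, if_false]
  have hΦΨ : ∀ c, Φ (Ψ c) = c := by
    intro c; funext h
    by_cases hh : O h
    · simp only [Ψ, Φ, hh, if_true, (hOσs h).2 hh, hn, Equiv.apply_symm_apply]
    · simp only [Ψ, Φ, hh, if_false]
  let e : (H → I) ≃ (H → I) := ⟨Φ, Ψ, hΨΦ, hΦΨ⟩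
  unfold stateSum
  rw [← Finset.sum_neg_distrib]
  symm
  refine Fintype.sum_equiv e _ _ fun c => ?_
  have hfix : (univ.filter fun h => σ' h = h) = univ.filter fun h => σ h = h := by
    ext h
    simp only [mem_filter, mem_univ, true_and]
    by_cases hh : O h
    · rw [h1 h hh, hsymm]
      rcases hh with rfl | rfl | rfl
      · exact ⟨fun h => absurd h hv1, fun h => absurd h hv⟩
      · rw [hσ]
        exact ⟨fun h => absurd h.symm hv, fun h => absurd h hv2⟩
      · rw [hσ (σ v), hσ v]
        exact ⟨fun h => absurd h.symm hv2, fun h => absurd h.symm hv1⟩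
    · rw [h2 h hh]
  have hfixO : ∀ h ∈ univ.filter (fun h => σ h = h), ¬ O h := by
    intro h hh
    simp only [mem_filter, mem_univ, true_and] at hh
    rintro (rfl | rfl | rfl)
    · exact hv hh
    · exact hv2 hh
    · exact hv1 (by rw [hσ] at hh; exact hh.symm)
  have e1 : (∏ h ∈ univ.filter (fun h => σ' h = h), y (e c h)) =
      ∏ h ∈ univ.filter (fun h => σ h = h), y (c h) := by
    rw [hfix]
    refine Finset.prod_congr rfl fun h hh => ?_
    have := hfixO h hh
    show y (Φ c h) = _
    simp only [Φ, this, if_false]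
  let ε : H → ℤ := fun h => if O h then -1 else 1
  have hcase : ∀ h, (e c h = c h ∧ e c (σ'.symm h) = c (σ.symm h) ∧ ε h = 1) ∨
      (e c h = neg (c (σ.symm h)) ∧ e c (σ'.symm h) = neg (c h) ∧ ε h = -1) := by
    intro h
    by_cases hh : O h
    · right
      refine ⟨?_, ?_, ?_⟩
      · show Φ c h = _
        simp only [Φ, hh, if_true]
      · rw [hσ'symm1 h hh]
        show Φ c (σ h) = _
        simp only [Φ, hOσ h hh, if_true, Equiv.symm_apply_apply]
      · simp only [ε, hh, if_true]
    · left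
      refine ⟨?_, ?_, ?_⟩
      · show Φ c h = _
        simp only [Φ, hh, if_false]
      · rw [hσ'symm2 h hh]
        show Φ c (σ.symm h) = _
        have : ¬ O (σ.symm h) := fun hc => hh ((hOσs h).1 hc)
        simp only [Φ, this, if_false]
      · simp only [ε, hh, if_false]
  have e2 : (∏ h ∈ T, edgeW neg ι (e c) (fun x => e c (σ'.symm x)) h) =
      - ∏ h ∈ T, edgeW neg ι c (fun x => c (σ.symm x)) h := by
    have : ∀ h ∈ T, edgeW neg ι (e c) (fun x => e c (σ'.symm x)) h =
        (ε h * ε (ι h)) * edgeW neg ι c (fun x => c (σ.symm x)) h := by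
      intro h _
      exact edgeW_flip hn c (fun x => c (σ.symm x)) (e c) (fun x => e c (σ'.symm x)) ε h
        (hcase h) (hcase (ι h))
    rw [Finset.prod_congr rfl this, Finset.prod_mul_distrib, prod_trans_mul hι hT]
    have hprod : ∏ h, ε h = -1 := by
      have hεeq : ∏ h, ε h = ∏ h ∈ ({v, σ v, σ (σ v)} : Finset H), ε h := by
        symm
        refine Finset.prod_subset (Finset.subset_univ _) fun h _ hh => ?_
        have : ¬ O h := by
          simpa [hO] using hh
        simp only [ε, this, if_false]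
      rw [hεeq, Finset.prod_insert, Finset.prod_insert, Finset.prod_singleton]
      · have a1 : O v := Or.inl rfl
        have a2 : O (σ v) := Or.inr (Or.inl rfl)
        have a3 : O (σ (σ v)) := Or.inr (Or.inr rfl)
        simp only [ε, a1, a2, a3, if_true]
        norm_num
      · simp only [Finset.mem_singleton]
        exact fun h => hv2 h.symm
      · simp only [Finset.mem_insert, Finset.mem_singleton]
        rintro (h | h)
        · exact hv h.symm
        · exact hv1 h.symm
    rw [hprod]; ring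
  show -(1 * _ * _) = 1 * _ * _
  rw [e1, e2]
  ring

end Rel

end Pool.Agent.Helper663
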