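import Mathlib
import Pool.Agent.Helper663.Defs
import Pool.Agent.Helper663.Relations
import Pool.Agent.Helper663.IHX

set_option linter.unusedSectionVars false

namespace Pool.Agent.Helper663

open Finset

section Functional

variable {I : Type} [Fintype I] [DecidableEq I]

/-- the standard transversal -/
def stdT {m : ℕ} (ι : Equiv.Perm (Fin m)) : Finset (Fin m) := univ.filter fun h => h < ι h

theorem stdT_isTrans {m : ℕ} (ι : Equiv.Perm (Fin m)) (h1 : ∀ h, ι h ≠ h)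
    (h2 : ∀ h, ι (ι h) = h) : IsTrans ι (stdT ι) := by
  intro h
  simp only [stdT, mem_filter, mem_univ, true_and, h2, not_lt]
  constructor
  · exact fun hh => le_of_lt hh
  · exact fun hh => lt_of_le_of_ne hh (h1 h).symm

/-- value of the functional on a graph -/
def Wval (neg : I → I) (y : I → ℤ) {m : ℕ} (G : UTGraph m) : ℤ :=
  stateSum neg y G.σ G.ι (stdT G.ι) (fun _ => 1)

/-- the functional on the free space -/
noncomputable def Wfree (neg : I → I) (y : I → ℤ) : FreeSpace →ₗ[ℚ] ℚ :=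
  Finsupp.linearCombination ℚ (fun x : (Σ m : ℕ, UTGraph m) => ((Wval neg y x.2 : ℤ) : ℚ))

theorem Wfree_gen (neg : I → I) (y : I → ℤ) {m : ℕ} (G : UTGraph m) :
    Wfree neg y (gen G) = ((Wval neg y G : ℤ) : ℚ) := by
  unfold Wfree gen
  rw [Finsupp.linearCombination_single]
  simp

theorem Wfree_rel (neg : I → I) (hn : ∀ i, neg (neg i) = i) (y : I → ℤ) :
    relSpace ≤ LinearMap.ker (Wfree neg y) := by
  unfold relSpace
  rw [Submodule.span_le]
  rintro x ((hx | hx) | hx)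
  · obtain ⟨m, G, G', τ, h1, h2, rfl⟩ := hx
    rw [SetLike.mem_coe, LinearMap.mem_ker, map_sub, Wfree_gen, Wfree_gen]
    have := stateSum_iso hn y G.σ G.ι G'.σ G'.ι τ h1 h2 G.ι_ι
      (stdT_isTrans G.ι G.ι_ne G.ι_ι) (stdT_isTrans G'.ι G'.ι_ne G'.ι_ι) (fun _ => 1)
    unfold Wval
    rw [← this]
    ring
  · obtain ⟨m, G, G', v, h1, h2, h3, h4, rfl⟩ := hx
    rw [SetLike.mem_coe, LinearMap.mem_ker, map_add, Wfree_gen, Wfree_gen]
    have := stateSum_AS hn y G.σ G'.σ G.ι G.σ_cube G.ι_ι v h1 h3 h4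
      (stdT_isTrans G.ι G.ι_ne G.ι_ι)
    unfold Wval
    rw [h2, this]
    push_cast
    ring
  · obtain ⟨m, G₁, G₂, G₃, a, b, p, q, r, s, nd, hab, e2, e3, c1, c2, c3, c4, c5, c6, ho, rfl⟩ := hx
    rw [SetLike.mem_coe, LinearMap.mem_ker, map_add, map_add, Wfree_gen, Wfree_gen, Wfree_gen]
    have := stateSum_IHX hn y G₁.σ G₂.σ G₃.σ G₁.ι G₁.ι_ι
      (stdT_isTrans G₁.ι G₁.ι_ne G₁.ι_ι) hab nd c1.1 c1.2.1 c1.2.2 c2.1 c2.2.1 c2.2.2
      c3.1 c3.2.1 c3.2.2 c4.1 c4.2.1 c4.2.2 c5.1 c5.2.1 c5.2.2 c6.1 c6.2.1 c6.2.2 ho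
    unfold Wval
    rw [e2, e3]
    exact_mod_cast this

/-- the functional on `B` -/
noncomputable def WB (neg : I → I) (hn : ∀ i, neg (neg i) = i) (y : I → ℤ) : B →ₗ[ℚ] ℚ :=
  relSpace.liftQ (Wfree neg y) (Wfree_rel neg hn y)

theorem WB_cls (neg : I → I) (hn : ∀ i, neg (neg i) = i) (y : I → ℤ) {m : ℕ}
    (G : UTGraph m) : WB neg hn y (cls G) = ((Wval neg y G : ℤ) : ℚ) := by
  unfold WB cls
  rw [← Wfree_gen]
  exact Submodule.liftQ_apply _ _ _

end Functional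

end Pool.Agent.Helper663
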