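import Mathlib
import Pool.Agent.Helper663.Defs
import Pool.Agent.Helper663.Relations
import Pool.Agent.Helper663.Functional
import Pool.Agent.Helper663.Kernels

set_option linter.unusedSectionVars false
set_option linter.unusedSimpArgs false

namespace Pool.Agent.Helper663

open Finset

/-- the permutation of the four half-edges of a hair: a trivalent vertex and a univalent one -/
def t4 : Equiv.Perm (Fin 4) where
  toFun := ![1, 2, 0, 3]
  invFun := ![2, 0, 1, 3]
  left_inv := by decide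
  right_inv := by decide

section General

variable {H : Type*} [Fintype H] [DecidableEq H] {I : Type*} [Fintype I] [DecidableEq I]

def hairσ (σ : Equiv.Perm H) : Equiv.Perm (H ⊕ Fin 4) := Equiv.sumCongr σ t4

def hairFun (ι : H → H) (h : H) : H ⊕ Fin 4 → H ⊕ Fin 4 :=
  Sum.elim (fun x => if x = h then Sum.inr 0 else if x = ι h then Sum.inr 1 else Sum.inl (ι x))
    ![Sum.inl h, Sum.inl (ι h), Sum.inr 3, Sum.inr 2]

theorem hairFun_invol (ι : H → H) (hι : ∀ h, ι (ι h) = h) (hne : ∀ h, ι h ≠ h) (h : H) :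
    Function.Involutive (hairFun ι h) := by
  rintro (x | x)
  · by_cases h1 : x = h
    · subst h1
      simp [hairFun]
    · by_cases h2 : x = ι h
      · subst h2
        simp [hairFun, hne]
      · have h3 : ¬ ι x = h := fun hh => h2 (by rw [← hh, hι])
        have h4 : ¬ ι x = ι h := fun hh => h1 (by rw [← hι x, hh, hι])
        simp [hairFun, h1, h2, h3, h4, hι]
  · fin_cases x <;> simp [hairFun, hne]

def hairι (ι : Equiv.Perm H) (hι : ∀ h, ι (ι h) = h) (hne : ∀ h, ι h ≠ h) (h : H) :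
    Equiv.Perm (H ⊕ Fin 4) :=
  (hairFun_invol ι hι hne h).toPerm

theorem hairι_apply (ι : Equiv.Perm H) (hι : ∀ h, ι (ι h) = h) (hne : ∀ h, ι h ≠ h) (h : H)
    (x : H ⊕ Fin 4) : hairι ι hι hne h x = hairFun ι h x := rfl

theorem hairι_ne (ι : Equiv.Perm H) (hι : ∀ h, ι (ι h) = h) (hne : ∀ h, ι h ≠ h) (h : H)
    (x : H ⊕ Fin 4) : hairι ι hι hne h x ≠ x := by
  rw [hairι_apply]
  rcases x with x | x
  · by_cases h1 : x = h
    · simp [hairFun, h1]
    · by_cases h2 : x = ι h
      · simp [hairFun, h2, hne]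
      · simp [hairFun, h1, h2, hne]
  · fin_cases x <;> simp [hairFun]

theorem hair_stateSum {neg : I → I} (hn : ∀ i, neg (neg i) = i) {y : I → ℤ}
    (hy : ∀ i, y (neg i) = - y i) (σ ι : Equiv.Perm H) (hι : ∀ h, ι (ι h) = h)
    (hne : ∀ h, ι h ≠ h) (h : H) {T : Finset H} (hT : IsTrans ι T) (hhT : h ∈ T)
    (G : (H → I) → ℤ) :
    stateSum neg y (hairσ σ) (hairι ι hι hne h) ((insert (ι h) T).disjSum {2})
      (fun c => G (fun x => c (Sum.inl x))) =
    2 * stateSum neg y σ ι T (fun c => G c * (y (c h) - y (c (σ.symm h)))) := by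
  unfold stateSum
  have hfix : (univ.filter fun x : H ⊕ Fin 4 => hairσ σ x = x) =
      (univ.filter fun x : H => σ x = x).disjSum {3} := by
    ext x
    rcases x with x | x
    · simp [hairσ]
    · fin_cases x <;> simp [hairσ, t4]
  rw [hfix]
  rw [Fintype.sum_equiv (Equiv.sumArrowEquivProdArrow H (Fin 4) I) _
    (fun p : (H → I) × (Fin 4 → I) => G p.1 *
      (∏ x ∈ (univ.filter fun x : H => σ x = x).disjSum {3}, y (Sum.elim p.1 p.2 x)) *
      ∏ x ∈ (insert (ι h) T).disjSum {2}, edgeW neg (hairι ι hι hne h) (Sum.elim p.1 p.2)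
        (fun x => Sum.elim p.1 p.2 ((hairσ σ).symm x)) x)
    (by
      intro c
      have hc : c = Sum.elim (fun x => c (Sum.inl x)) (fun x => c (Sum.inr x)) := by
        funext x; rcases x with x | x <;> rfl
      show G _ * (∏ x ∈ _, y (c x)) * ∏ x ∈ _, edgeW neg _ c (fun x => c ((hairσ σ).symm x)) x = _
      conv_lhs => rw [hc]
      rfl)]
  rw [Fintype.sum_prod_type, Finset.mul_sum]
  refine Finset.sum_congr rfl fun c1 _ => ?_
  have hιhT : ι h ∉ T := (hT h).1 hhT
  have key : ∀ c2 : Fin 4 → I, G c1 *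
      (∏ x ∈ (univ.filter fun x : H => σ x = x).disjSum {3}, y (Sum.elim c1 c2 x)) *
      ∏ x ∈ (insert (ι h) T).disjSum {2}, edgeW neg (hairι ι hι hne h) (Sum.elim c1 c2)
        (fun x => Sum.elim c1 c2 ((hairσ σ).symm x)) x =
      (G c1 * (∏ x ∈ univ.filter (fun x : H => σ x = x), y (c1 x)) *
        ∏ x ∈ T.erase h, edgeW neg ι c1 (fun x => c1 (σ.symm x)) x) *
      (Ew neg (c1 h) (c1 (σ.symm h)) (c2 0) (c2 2) *
        Ew neg (c1 (ι h)) (c1 (σ.symm (ι h))) (c2 1) (c2 0) *
        Ew neg (c2 2) (c2 1) (c2 3) (c2 3) * y (c2 3)) := by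
    intro c2
    rw [Finset.prod_disjSum, Finset.prod_disjSum, Finset.prod_singleton, Finset.prod_singleton,
      Finset.prod_insert hιhT, ← Finset.mul_prod_erase T _ hhT]
    have e1 : edgeW neg (hairι ι hι hne h) (Sum.elim c1 c2)
        (fun x => Sum.elim c1 c2 ((hairσ σ).symm x)) (Sum.inl (ι h)) =
        Ew neg (c1 (ι h)) (c1 (σ.symm (ι h))) (c2 1) (c2 0) := by
      unfold edgeW
      rw [hairι_apply]
      have : hairFun ι h (Sum.inl (ι h)) = Sum.inr 1 := by simp [hairFun, hne]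
      rw [this]
      rfl
    have e2 : edgeW neg (hairι ι hι hne h) (Sum.elim c1 c2)
        (fun x => Sum.elim c1 c2 ((hairσ σ).symm x)) (Sum.inl h) =
        Ew neg (c1 h) (c1 (σ.symm h)) (c2 0) (c2 2) := by
      unfold edgeW
      rw [hairι_apply]
      have : hairFun ι h (Sum.inl h) = Sum.inr 0 := by simp [hairFun]
      rw [this]
      rfl
    have e3 : edgeW neg (hairι ι hι hne h) (Sum.elim c1 c2)
        (fun x => Sum.elim c1 c2 ((hairσ σ).symm x)) (Sum.inr 2) =
        Ew neg (c2 2) (c2 1) (c2 3) (c2 3) := by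
      unfold edgeW
      rw [hairι_apply]
      have : hairFun ι h (Sum.inr 2) = Sum.inr 3 := by simp [hairFun]
      rw [this]
      rfl
    have e4 : ∏ x ∈ T.erase h, edgeW neg (hairι ι hι hne h) (Sum.elim c1 c2)
        (fun x => Sum.elim c1 c2 ((hairσ σ).symm x)) (Sum.inl x) =
        ∏ x ∈ T.erase h, edgeW neg ι c1 (fun x => c1 (σ.symm x)) x := by
      refine Finset.prod_congr rfl fun x hx => ?_
      rw [Finset.mem_erase] at hx
      unfold edgeW
      rw [hairι_apply]
      have h2 : x ≠ ι h := fun hh => hιhT (hh ▸ hx.2)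
      have : hairFun ι h (Sum.inl x) = Sum.inl (ι x) := by simp [hairFun, hx.1, h2]
      rw [this]
      rfl
    rw [e1, e2, e3, e4]
    simp only [Sum.elim_inl, Sum.elim_inr]
    ring
  simp only [key]
  rw [← Finset.mul_sum, hair_kernel hn hy, ← Finset.mul_prod_erase T _ hhT]
  have e5 : edgeW neg ι c1 (fun x => c1 (σ.symm x)) h =
      Ew neg (c1 h) (c1 (σ.symm h)) (c1 (ι h)) (c1 (σ.symm (ι h))) := rfl
  rw [e5]
  ring

theorem hair_isTrans (ι : Equiv.Perm H) (hι : ∀ h, ι (ι h) = h) (hne : ∀ h, ι h ≠ h) (h : H)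
    {T : Finset H} (hT : IsTrans ι T) (hhT : h ∈ T) :
    IsTrans (hairι ι hι hne h) ((insert (ι h) T).disjSum {2}) := by
  have hιhT : ι h ∉ T := (hT h).1 hhT
  intro x
  rw [hairι_apply]
  rcases x with x | x
  · by_cases h1 : x = h
    · subst h1
      simp [hairFun, hhT]
    · by_cases h2 : x = ι h
      · subst h2
        simp [hairFun, hne]
      · have h3 : ¬ ι x = h := fun hh => h2 (by rw [← hh, hι])
        have h4 : ¬ ι x = ι h := fun hh => h1 (by rw [← hι x, hh, hι])
        have := hT x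
        simp [hairFun, h1, h2, h4, this]
  · fin_cases x <;> simp [hairFun, hhT]

end General

/-- attach a hair to the edge of the half-edge `h` -/
def addHair {m : ℕ} (G : UTGraph m) (h : Fin m) : UTGraph (m + 4) where
  σ := finSumFinEquiv.permCongr (hairσ G.σ)
  ι := finSumFinEquiv.permCongr (hairι G.ι G.ι_ι G.ι_ne h)
  σ_cube := by
    intro x
    obtain ⟨z, rfl⟩ := finSumFinEquiv.surjective x
    simp only [Equiv.permCongr_apply, Equiv.symm_apply_apply]
    rcases z with z | z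
    · simp [hairσ, G.σ_cube]
    · fin_cases z <;> simp [hairσ, t4]
  ι_ne := by
    intro x
    obtain ⟨z, rfl⟩ := finSumFinEquiv.surjective x
    simp only [Equiv.permCongr_apply, Equiv.symm_apply_apply]
    intro hh
    exact hairι_ne G.ι G.ι_ι G.ι_ne h z (finSumFinEquiv.injective hh)
  ι_ι := by
    intro x
    obtain ⟨z, rfl⟩ := finSumFinEquiv.surjective x
    simp only [Equiv.permCongr_apply, Equiv.symm_apply_apply]
    congr 1
    exact hairFun_invol G.ι G.ι_ι G.ι_ne h z

section Fin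

variable {I : Type*} [Fintype I] [DecidableEq I] {m : ℕ}

theorem exists_trans_mem (ι : Equiv.Perm (Fin m)) (h1 : ∀ h, ι h ≠ h)
    (h2 : ∀ h, ι (ι h) = h) (h : Fin m) : ∃ T, IsTrans ι T ∧ h ∈ T := by
  have hT := stdT_isTrans ι h1 h2
  by_cases ha : h ∈ stdT ι
  · exact ⟨_, hT, ha⟩
  · refine ⟨(stdT ι)ᶜ, ?_, by simpa using ha⟩
    intro x
    simp only [Finset.mem_compl, not_not]
    constructor
    · intro hh
      rw [hT, h2]; exact hh
    · intro hh hc
      exact ((hT x).1 hc) hh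

theorem addHair_stateSum {neg : I → I} (hn : ∀ i, neg (neg i) = i) {y : I → ℤ}
    (hy : ∀ i, y (neg i) = - y i) (G : UTGraph m) (h : Fin m) (F : (Fin m → I) → ℤ) :
    stateSum neg y (addHair G h).σ (addHair G h).ι (stdT (addHair G h).ι)
      (fun c => F (fun x => c (Fin.castAdd 4 x))) =
    2 * stateSum neg y G.σ G.ι (stdT G.ι) (fun c => F c * (y (c h) - y (c (G.σ.symm h)))) := by
  obtain ⟨T, hT, hhT⟩ := exists_trans_mem G.ι G.ι_ne G.ι_ι h
  rw [stateSum_trans hn y G.σ G.ι G.ι_ι (stdT_isTrans G.ι G.ι_ne G.ι_ι) hT,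
    ← hair_stateSum hn hy G.σ G.ι G.ι_ι G.ι_ne h hT hhT F]
  exact stateSum_iso hn y (hairσ G.σ) (hairι G.ι G.ι_ι G.ι_ne h) (addHair G h).σ (addHair G h).ι
    finSumFinEquiv
    (by intro x; simp [addHair, Equiv.permCongr_apply])
    (by intro x; simp [addHair, Equiv.permCongr_apply])
    (by intro x; exact hairFun_invol G.ι G.ι_ι G.ι_ne h x)
    (hair_isTrans G.ι G.ι_ι G.ι_ne h hT hhT)
    (stdT_isTrans _ (addHair G h).ι_ne (addHair G h).ι_ι)
    (fun c => F (fun x => c (Sum.inl x)))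

end Fin

/-- attach a list of hairs -/
def hairs {m : ℕ} (G : UTGraph m) : List (Fin m) → Σ n : ℕ, (UTGraph n × (Fin m → Fin n))
  | [] => ⟨m, G, id⟩
  | h :: l => ⟨(hairs G l).1 + 4, addHair (hairs G l).2.1 ((hairs G l).2.2 h),
      fun x => Fin.castAdd 4 ((hairs G l).2.2 x)⟩

theorem addHair_σ_cast {m : ℕ} (G : UTGraph m) (h x : Fin m) :
    (addHair G h).σ (Fin.castAdd 4 x) = Fin.castAdd 4 (G.σ x) := by
  have : (Fin.castAdd 4 x : Fin (m + 4)) = finSumFinEquiv (Sum.inl x) := rfl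
  rw [this]
  simp only [addHair, Equiv.permCongr_apply, Equiv.symm_apply_apply]
  rfl

theorem hairs_σ {m : ℕ} (G : UTGraph m) (l : List (Fin m)) (x : Fin m) :
    (hairs G l).2.1.σ ((hairs G l).2.2 x) = (hairs G l).2.2 (G.σ x) := by
  induction l with
  | nil => rfl
  | cons h l ih =>
    show (addHair (hairs G l).2.1 ((hairs G l).2.2 h)).σ (Fin.castAdd 4 ((hairs G l).2.2 x)) =
      Fin.castAdd 4 ((hairs G l).2.2 (G.σ x))
    rw [addHair_σ_cast, ih]

theorem hairs_σ_symm {m : ℕ} (G : UTGraph m) (l : List (Fin m)) (x : Fin m) :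
    (hairs G l).2.1.σ.symm ((hairs G l).2.2 x) = (hairs G l).2.2 (G.σ.symm x) := by
  rw [Equiv.symm_apply_eq, hairs_σ, Equiv.apply_symm_apply]

theorem hairs_stateSum {I : Type*} [Fintype I] [DecidableEq I] {neg : I → I}
    (hn : ∀ i, neg (neg i) = i) {y : I → ℤ}
    (hy : ∀ i, y (neg i) = - y i) {m : ℕ} (G : UTGraph m) (l : List (Fin m)) :
    ∀ F : (Fin m → I) → ℤ,
    stateSum neg y (hairs G l).2.1.σ (hairs G l).2.1.ι (stdT (hairs G l).2.1.ι)
      (fun c => F (fun x => c ((hairs G l).2.2 x))) =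
    2 ^ l.length * stateSum neg y G.σ G.ι (stdT G.ι)
      (fun c => F c * (l.map (fun h => y (c h) - y (c (G.σ.symm h)))).prod) := by
  induction l with
  | nil =>
    intro F
    simp only [hairs, List.length_nil, pow_zero, List.map_nil, List.prod_nil, mul_one, one_mul]
    rfl
  | cons h l ih =>
    intro F
    have h1 := addHair_stateSum hn hy (hairs G l).2.1 ((hairs G l).2.2 h)
      (fun c => F (fun x => c ((hairs G l).2.2 x)))
    have h2 := ih (fun c => F c * (y (c h) - y (c (G.σ.symm h))))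
    simp only [hairs_σ_symm] at h1
    rw [h2] at h1
    have h3 : stateSum neg y (hairs G (h :: l)).2.1.σ (hairs G (h :: l)).2.1.ι
        (stdT (hairs G (h :: l)).2.1.ι) (fun c => F (fun x => c ((hairs G (h :: l)).2.2 x))) =
        stateSum neg y (addHair (hairs G l).2.1 ((hairs G l).2.2 h)).σ
        (addHair (hairs G l).2.1 ((hairs G l).2.2 h)).ι
        (stdT (addHair (hairs G l).2.1 ((hairs G l).2.2 h)).ι)
        (fun c => F (fun x => c (Fin.castAdd 4 ((hairs G l).2.2 x)))) := rfl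
    rw [h3, h1, List.length_cons, pow_succ]
    simp only [List.map_cons, List.prod_cons, mul_assoc]
    ring

end Pool.Agent.Helper663
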