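import Mathlib
import Pool.Agent.Helper663.Hair

set_option linter.unusedSectionVars false
set_option linter.unusedSimpArgs false

namespace Pool.Agent.Helper663

open Finset

theorem card_filter_sum {m : ℕ} (P : Fin (m + 4) → Prop) [DecidablePred P] :
    (univ.filter P).card = (univ.filter fun x : Fin m => P (finSumFinEquiv (Sum.inl x))).card +
      (univ.filter fun x : Fin 4 => P (finSumFinEquiv (Sum.inr x))).card := by
  have h1 : (univ.filter P) = (univ.filter fun z : Fin m ⊕ Fin 4 => P (finSumFinEquiv z)).map
      finSumFinEquiv.toEmbedding := by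
    ext x
    obtain ⟨z, rfl⟩ := finSumFinEquiv.surjective x
    simp
  rw [h1, Finset.card_map]
  have h2 : (univ.filter fun z : Fin m ⊕ Fin 4 => P (finSumFinEquiv z)) =
      (univ.filter fun x : Fin m => P (finSumFinEquiv (Sum.inl x))).disjSum
      (univ.filter fun x : Fin 4 => P (finSumFinEquiv (Sum.inr x))) := by
    ext z
    rcases z with z | z <;> simp
  rw [h2, Finset.card_disjSum]

theorem addHair_numUni {m : ℕ} (G : UTGraph m) (h : Fin m) :
    (addHair G h).numUni = G.numUni + 1 := by
  unfold UTGraph.numUni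
  rw [card_filter_sum]
  congr 1
  · congr 1
    ext x
    simp [addHair, Equiv.permCongr_apply, hairσ]
  · have : (univ.filter fun x : Fin 4 => (addHair G h).σ (finSumFinEquiv (Sum.inr x)) =
        finSumFinEquiv (Sum.inr x)) = {3} := by
      ext x
      simp only [addHair, Equiv.permCongr_apply, Equiv.symm_apply_apply, mem_filter, mem_univ,
        true_and, EmbeddingLike.apply_eq_iff_eq, mem_singleton]
      fin_cases x <;> simp [hairσ, t4]
    rw [this, Finset.card_singleton]

theorem addHair_nonfixed {m : ℕ} (G : UTGraph m) (h : Fin m) :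
    (univ.filter fun x => (addHair G h).σ x ≠ x).card =
    (univ.filter fun x => G.σ x ≠ x).card + 3 := by
  rw [card_filter_sum]
  congr 1
  · congr 1
    ext x
    simp [addHair, Equiv.permCongr_apply, hairσ]
  · have : (univ.filter fun x : Fin 4 => (addHair G h).σ (finSumFinEquiv (Sum.inr x)) ≠
        finSumFinEquiv (Sum.inr x)) = {0, 1, 2} := by
      ext x
      simp only [addHair, Equiv.permCongr_apply, Equiv.symm_apply_apply, mem_filter, mem_univ,
        true_and, ne_eq, EmbeddingLike.apply_eq_iff_eq]
      fin_cases x <;> simp [hairσ, t4]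
    rw [this]
    rfl

theorem hairs_numUni {m : ℕ} (G : UTGraph m) (l : List (Fin m)) :
    (hairs G l).2.1.numUni = G.numUni + l.length := by
  induction l with
  | nil => rfl
  | cons h l ih =>
    show (addHair (hairs G l).2.1 ((hairs G l).2.2 h)).numUni = _
    rw [addHair_numUni, ih, List.length_cons]
    ring

theorem hairs_nonfixed {m : ℕ} (G : UTGraph m) (l : List (Fin m)) :
    (univ.filter fun x => (hairs G l).2.1.σ x ≠ x).card =
    (univ.filter fun x => G.σ x ≠ x).card + 3 * l.length := by
  induction l with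
  | nil => rfl
  | cons h l ih =>
    show (univ.filter fun x => (addHair (hairs G l).2.1 ((hairs G l).2.2 h)).σ x ≠ x).card = _
    rw [addHair_nonfixed, ih, List.length_cons]
    ring

/-- one step -/
def Step {m : ℕ} (G : UTGraph m) (x y : Fin m) : Prop := y = G.σ x ∨ y = G.ι x

theorem addHair_connected {m : ℕ} (G : UTGraph m) (hG : G.Connected) (h : Fin m) :
    (addHair G h).Connected := by
  refine ⟨by omega, ?_⟩
  set r : Fin (m + 4) → Fin (m + 4) → Prop :=
    fun x y => y = (addHair G h).σ x ∨ y = (addHair G h).ι x with hr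
  have hσ : ∀ z : Fin m ⊕ Fin 4, (addHair G h).σ (finSumFinEquiv z) =
      finSumFinEquiv (hairσ G.σ z) := by
    intro z; simp [addHair, Equiv.permCongr_apply]
  have hι : ∀ z : Fin m ⊕ Fin 4, (addHair G h).ι (finSumFinEquiv z) =
      finSumFinEquiv (hairFun G.ι h z) := by
    intro z; simp [addHair, Equiv.permCongr_apply, hairι_apply]
  have s1 : ∀ z : Fin m ⊕ Fin 4, Relation.EqvGen r (finSumFinEquiv z)
      (finSumFinEquiv (hairσ G.σ z)) := fun z =>
    Relation.EqvGen.rel _ _ (Or.inl (hσ z).symm)
  have s2 : ∀ z : Fin m ⊕ Fin 4, Relation.EqvGen r (finSumFinEquiv z)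
      (finSumFinEquiv (hairFun G.ι h z)) := fun z =>
    Relation.EqvGen.rel _ _ (Or.inr (hι z).symm)
  -- the new half-edges
  have a0 : Relation.EqvGen r (finSumFinEquiv (Sum.inr 0)) (finSumFinEquiv (Sum.inl h)) := by
    have := s2 (Sum.inr 0)
    simpa [hairFun] using this
  have a01 : Relation.EqvGen r (finSumFinEquiv (Sum.inr 0)) (finSumFinEquiv (Sum.inr 1)) := by
    have := s1 (Sum.inr 0)
    simpa [hairσ, t4] using this
  have a12 : Relation.EqvGen r (finSumFinEquiv (Sum.inr 1)) (finSumFinEquiv (Sum.inr 2)) := by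
    have := s1 (Sum.inr 1)
    simpa [hairσ, t4] using this
  have a23 : Relation.EqvGen r (finSumFinEquiv (Sum.inr 2)) (finSumFinEquiv (Sum.inr 3)) := by
    have := s2 (Sum.inr 2)
    simpa [hairFun] using this
  have a1 : Relation.EqvGen r (finSumFinEquiv (Sum.inr 1)) (finSumFinEquiv (Sum.inl (G.ι h))) := by
    have := s2 (Sum.inr 1)
    simpa [hairFun] using this
  have b : Relation.EqvGen r (finSumFinEquiv (Sum.inl h)) (finSumFinEquiv (Sum.inl (G.ι h))) :=
    ((a0.symm _ _).trans _ _ _ a01).trans _ _ _ a1
  -- old half-edges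
  have old : ∀ x y : Fin m, Relation.EqvGen (fun x y => y = G.σ x ∨ y = G.ι x) x y →
      Relation.EqvGen r (finSumFinEquiv (Sum.inl x)) (finSumFinEquiv (Sum.inl y)) := by
    intro x y hxy
    induction hxy with
    | rel x y hxy =>
      rcases hxy with rfl | rfl
      · have := s1 (Sum.inl x)
        simpa [hairσ] using this
      · by_cases h1 : x = h
        · subst h1; exact b
        · by_cases h2 : x = G.ι h
          · subst h2
            rw [G.ι_ι]
            exact b.symm _ _
          · have := s2 (Sum.inl x)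
            simpa [hairFun, h1, h2] using this
    | refl x => exact Relation.EqvGen.refl _
    | symm x y _ ih => exact ih.symm _ _
    | trans x y z _ _ ih1 ih2 => exact ih1.trans _ _ _ ih2
  have all : ∀ z : Fin m ⊕ Fin 4, Relation.EqvGen r (finSumFinEquiv z)
      (finSumFinEquiv (Sum.inl h)) := by
    rintro (x | x)
    · exact old x h (hG.2 x h)
    · fin_cases x
      · exact a0
      · exact (a01.symm _ _).trans _ _ _ a0
      · exact (a12.symm _ _).trans _ _ _ ((a01.symm _ _).trans _ _ _ a0)
      · exact (a23.symm _ _).trans _ _ _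
          ((a12.symm _ _).trans _ _ _ ((a01.symm _ _).trans _ _ _ a0))
  intro x y
  obtain ⟨z, rfl⟩ := finSumFinEquiv.surjective x
  obtain ⟨w, rfl⟩ := finSumFinEquiv.surjective y
  exact (all z).trans _ _ _ ((all w).symm _ _)

theorem hairs_connected {m : ℕ} (G : UTGraph m) (hG : G.Connected) (l : List (Fin m)) :
    (hairs G l).2.1.Connected := by
  induction l with
  | nil => exact hG
  | cons h l ih => exact addHair_connected _ ih _

end Pool.Agent.Helper663
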