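import Mathlib
import Pool.Agent.Helper663.Det
import Pool.Agent.Helper663.HairCount

/-! # The values of the functionals on the test graphs -/

set_option linter.unusedSectionVars false

namespace Pool.Agent.Helper663

open Finset

/-- the index set of a functional: `j0` labels `0`, `j1` pairs of labels `± v1` and `j2` pairs
of labels `± v2` -/
abbrev Idx (j0 j1 j2 : ℕ) : Type := Fin j0 ⊕ ((Bool × Fin j1) ⊕ (Bool × Fin j2))

def negI {j0 j1 j2 : ℕ} : Idx j0 j1 j2 → Idx j0 j1 j2 :=
  Sum.elim Sum.inl (Sum.elim (fun p => Sum.inr (Sum.inl (!p.1, p.2)))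
    (fun p => Sum.inr (Sum.inr (!p.1, p.2))))

def labI {j0 j1 j2 : ℕ} (v1 v2 : ℤ) : Idx j0 j1 j2 → ℤ :=
  Sum.elim (fun _ => 0) (Sum.elim (fun p => if p.1 = true then v1 else -v1)
    (fun p => if p.1 = true then v2 else -v2))

theorem negI_negI {j0 j1 j2 : ℕ} (i : Idx j0 j1 j2) : negI (negI i) = i := by
  rcases i with i | ⟨i, k⟩ | ⟨i, k⟩ <;> simp [negI]

theorem labI_negI {j0 j1 j2 : ℕ} (v1 v2 : ℤ) (i : Idx j0 j1 j2) :
    labI v1 v2 (negI i) = - labI v1 v2 i := by
  rcases i with i | ⟨i, k⟩ | ⟨i, k⟩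
  · simp [negI, labI]
  · cases i <;> simp [negI, labI]
  · cases i <;> simp [negI, labI]

theorem sum_labI {j0 j1 j2 : ℕ} (v1 v2 : ℤ) (F : ℤ → ℤ) :
    ∑ i : Idx j0 j1 j2, F (labI v1 v2 i) = SZ j0 j1 j2 v1 v2 F := by
  rw [Fintype.sum_sum_type, Fintype.sum_sum_type, Fintype.sum_prod_type, Fintype.sum_prod_type]
  simp only [labI, Sum.elim_inl, Sum.elim_inr, Fintype.sum_bool, Finset.sum_const,
    Finset.card_univ, Fintype.card_fin, nsmul_eq_mul, SZ]
  simp
  ring

/-- the list of half-edges of the core to which hairs are attached -/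
def hairList (g : ℕ × ℕ × ℕ × ℕ) : List (Fin 18) :=
  List.replicate g.2.2.1 1 ++ (List.replicate g.2.2.2 2 ++
    (List.replicate g.1 7 ++ List.replicate g.2.1 13))

/-- the number of half-edges of the test graph `g` -/
def testSize (g : ℕ × ℕ × ℕ × ℕ) : ℕ := (hairs core (hairList g)).1

/-- the test graph `g` -/
def testGraph (g : ℕ × ℕ × ℕ × ℕ) : UTGraph (testSize g) := (hairs core (hairList g)).2.1

theorem length_hairList (g : ℕ × ℕ × ℕ × ℕ) :
    (hairList g).length = g.2.2.1 + (g.2.2.2 + (g.1 + g.2.1)) := by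
  simp [hairList]

theorem Wval_test {I : Type} [Fintype I] [DecidableEq I] {neg : I → I}
    (hn : ∀ i, neg (neg i) = i) {y : I → ℤ} (hy : ∀ i, y (neg i) = - y i)
    (g : ℕ × ℕ × ℕ × ℕ) :
    Wval neg y (testGraph g) = 2 ^ (hairList g).length *
      thetaZ (fun F => ∑ i, F (y i)) g.1 g.2.1 g.2.2.1 g.2.2.2 := by
  have h1 := hairs_stateSum hn hy core (hairList g) (fun _ => 1)
  have h2 : Wval neg y (testGraph g) = stateSum neg y (hairs core (hairList g)).2.1.σ
    (hairs core (hairList g)).2.1.ι (stdT (hairs core (hairList g)).2.1.ι) (fun _ => 1) := rfl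
  rw [h2, h1, ← thetaForm_eq hy, ← core_eval hn]
  have h3 := stateSum_trans hn y coreσ coreι core.ι_ι
    (stdT_isTrans coreι core.ι_ne core.ι_ι) coreT_isTrans (coreG y g.1 g.2.1 g.2.2.1 g.2.2.2)
  rw [← h3]
  congr 1
  have h4 : (fun c : Fin 18 → I => (1 : ℤ) *
      ((hairList g).map (fun h => y (c h) - y (c (core.σ.symm h)))).prod) =
      coreG y g.1 g.2.1 g.2.2.1 g.2.2.2 := by
    funext c
    unfold hairList coreG
    simp only [List.map_append, List.prod_append, List.map_replicate, List.prod_replicate]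
    have : core.σ = coreσ := rfl
    rw [this]
    ring
  rw [h4]
  rfl

/-- the functional number `i` on `B` -/
noncomputable def funI (f : ℕ × ℕ × ℕ × ℕ × ℕ) : B →ₗ[ℚ] ℚ :=
  WB (I := Idx f.1 f.2.1 f.2.2.1) negI negI_negI (labI (f.2.2.2.1 : ℤ) (f.2.2.2.2 : ℤ))

theorem funI_test (f : ℕ × ℕ × ℕ × ℕ × ℕ) (g : ℕ × ℕ × ℕ × ℕ) :
    funI f (cls (testGraph g)) = 2 ^ (hairList g).length * ((evalZ f g : ℤ) : ℚ) := by
  unfold funI
  rw [WB_cls, Wval_test negI_negI (labI_negI _ _)]
  push_cast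
  congr 2
  unfold evalZ
  congr 1
  funext F
  exact sum_labI _ _ F

theorem length_getM (j : Fin 39) : (hairList (getM j)).length = 20 := by
  rw [length_hairList]
  revert j
  decide

/-- the 39 classes are linearly independent -/
theorem test_indep : LinearIndependent ℚ (fun j : Fin 39 => cls (testGraph (getM j))) := by
  rw [Fintype.linearIndependent_iff]
  intro c hc
  have h1 : c = 0 := by
    apply TZ_indep
    intro i
    have h2 := congrArg (funI (getF i)) hc
    rw [map_zero, map_sum] at h2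
    simp only [map_smul, funI_test, length_getM, smul_eq_mul] at h2
    have h3 : (2 : ℚ) ^ 20 * ∑ j, c j * ((TZ i j : ℤ) : ℚ) = 0 := by
      rw [← h2, Finset.mul_sum]
      refine Finset.sum_congr rfl fun j _ => ?_
      have : TZ i j = evalZ (getF i) (getM j) := rfl
      rw [this]
      ring
    rcases mul_eq_zero.1 h3 with h4 | h4
    · norm_num at h4
    · exact h4
  intro i
  rw [h1]
  rfl

end Pool.Agent.Helper663
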