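import Mathlib
import Pool.Agent.Helper663.Values

/-! # The test graphs lie in the right degree; finite dimension; the lower bound -/

set_option linter.unusedSectionVars false

namespace Pool.Agent.Helper663

open Finset

/-- for each half-edge of the core, the previous one on a path from the half-edge `0` -/
def par : Fin 18 → Fin 18 := ![0, 0, 1, 0, 3, 4, 1, 6, 7, 4, 9, 10, 2, 12, 13, 5, 15, 16]

theorem par_spec : ∀ h : Fin 18, h ≠ 0 →
    par h < h ∧ (h = coreσ (par h) ∨ h = coreι (par h)) := by decide

theorem core_connected : core.Connected := by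
  refine ⟨by norm_num, ?_⟩
  have key : ∀ n : ℕ, ∀ h : Fin 18, h.val ≤ n →
      Relation.EqvGen (fun x y => y = core.σ x ∨ y = core.ι x) 0 h := by
    intro n
    induction n with
    | zero =>
      intro h hh
      have : h = 0 := Fin.ext (by simpa using hh)
      subst this
      exact Relation.EqvGen.refl _
    | succ n ih =>
      intro h hh
      by_cases h0 : h = 0
      · subst h0
        exact Relation.EqvGen.refl _
      · obtain ⟨h1, h2⟩ := par_spec h h0
        have h3 : (par h).val ≤ n := by
          have : (par h).val < h.val := h1
          omega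
        exact (ih (par h) h3).trans _ _ _ (Relation.EqvGen.rel _ _ h2)
  intro x y
  exact ((key 18 x (by omega)).symm _ _).trans _ _ _ (key 18 y (by omega))

theorem core_numUni : core.numUni = 0 := by
  unfold UTGraph.numUni
  decide

theorem core_nonfixed : (univ.filter fun h : Fin 18 => core.σ h ≠ h).card = 18 := by
  decide

theorem testGraph_mem (j : Fin 39) : cls (testGraph (getM j)) ∈ Bconn 23 20 := by
  refine Submodule.subset_span ⟨testSize (getM j), testGraph (getM j), ?_, ?_, ?_, rfl⟩
  · exact hairs_connected core core_connected _
  · have := hairs_numUni core (hairList (getM j))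
    rw [core_numUni, length_getM] at this
    exact this
  · have h1 := hairs_numUni core (hairList (getM j))
    have h2 := hairs_nonfixed core (hairList (getM j))
    rw [core_numUni, length_getM] at h1
    rw [core_nonfixed, length_getM] at h2
    have h3 : (testGraph (getM j)).numUni = 20 := h1
    have h4 : (testGraph (getM j)).numTri = 26 := by
      unfold UTGraph.numTri
      have h5 : (univ.filter fun h : Fin (testSize (getM j)) =>
        (testGraph (getM j)).σ h ≠ h).card = 78 := h2
      rw [h5]
    rw [h3, h4]

instance finite_UTGraph (m : ℕ) : Finite (UTGraph m) := by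
  refine Finite.of_injective (fun G : UTGraph m => (G.σ, G.ι)) ?_
  intro G G' h
  cases G
  cases G'
  simp only [Prod.mk.injEq] at h
  obtain ⟨rfl, rfl⟩ := h
  rfl

theorem size_le {m : ℕ} (G : UTGraph m) (d u : ℕ) (h1 : G.numUni = u)
    (h2 : G.numUni + G.numTri = 2 * d) : m ≤ 6 * d + 3 := by
  have h3 : G.numUni + (univ.filter fun h : Fin m => G.σ h ≠ h).card = m := by
    unfold UTGraph.numUni
    have := Finset.card_filter_add_card_filter_not (s := (univ : Finset (Fin m)))
      (fun h => G.σ h = h)
    rw [Finset.card_univ, Fintype.card_fin] at this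
    exact this
  have h4 : (univ.filter fun h : Fin m => G.σ h ≠ h).card ≤ 3 * G.numTri + 2 := by
    unfold UTGraph.numTri
    omega
  omega

instance finite_Bconn (d u : ℕ) : Module.Finite ℚ (Bconn d u) := by
  refine FiniteDimensional.span_of_finite ℚ ?_
  refine Set.Finite.subset (Set.finite_range
    (fun p : Σ m : Fin (6 * d + 4), UTGraph m.val => cls p.2)) ?_
  rintro x ⟨m, G, _, h2, h3, rfl⟩
  exact ⟨⟨⟨m, by have := size_le G d u h2 h3; omega⟩, G⟩, rfl⟩

theorem beta_ge : 39 ≤ beta 23 20 := by
  unfold beta
  have h1 : LinearIndependent ℚ
      (fun j : Fin 39 => (⟨cls (testGraph (getM j)), testGraph_mem j⟩ : Bconn 23 20)) := by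
    refine LinearIndependent.of_comp (Bconn 23 20).subtype ?_
    exact test_indep
  have := h1.fintype_card_le_finrank
  rwa [Fintype.card_fin] at this

end Pool.Agent.Helper663
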