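import Mathlib
import Pool.Agent.Helper663.Core

set_option linter.unusedSectionVars false
set_option linter.unusedSimpArgs false

namespace Pool.Agent.Helper663

open Finset

/-! ### The formula on the level of integer labels -/

def kapZ (S : (ℤ → ℤ) → ℤ) (a : ℕ) (u v : ℤ) : ℤ :=
  S (fun x => (x + -u) ^ a) + -((-v + -u) ^ a + (-u + -u) ^ a)

def AZ (S : (ℤ → ℤ) → ℤ) (a e : ℕ) (l r : ℤ) : ℤ :=
  (l + -r) ^ e * (kapZ S a r l + kapZ S a (-l) (-r))

def PZ (a e : ℕ) (l m : ℤ) : ℤ :=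
  if e = 0 then ((-m + -l) ^ a + (m + l) ^ a) + -((m + -l) ^ a + (-m + l) ^ a) else 0

def thetaZ (S : (ℤ → ℤ) → ℤ) (a b e d : ℕ) : ℤ :=
  -S (fun t => S (fun x => AZ S a e t x) * S (fun z => AZ S b d z t)) +
  (S (fun t => S (fun x => AZ S a e t x) * AZ S b d (-t) t) +
  (S (fun x => AZ S a e (-x) x * S (fun z => AZ S b d z (-x))) +
  (S (fun x => S (fun t => AZ S a e t x * AZ S b d (-x) t)) +
  (-S (fun x => AZ S a e (-x) x * AZ S b d x (-x) + (AZ S a e x x * AZ S b d (-x) x +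
      AZ S a e (-x) x * AZ S b d (-x) (-x))) +
  (S (fun x => AZ S a e x x * AZ S b d x x) +
  (S (fun x => S (fun z => (PZ a e x z + PZ a e x (-x)) * AZ S b d z x)) +
  (-(2 * S (fun x => PZ a e x (-x) * AZ S b d (-x) x)) +
  (S (fun x => S (fun t => AZ S a e t x * (PZ b d t x + PZ b d t (-t)))) +
  (-(2 * S (fun x => AZ S a e (-x) x * PZ b d (-x) x)) +
  (S (fun x => PZ a e x x * PZ b d x x) + -S (fun x => PZ a e x (-x) * PZ b d x (-x))))))))))))

section

variable {I : Type*} [Fintype I] [DecidableEq I]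

theorem Aker_eq {neg : I → I} {y : I → ℤ} (hy : ∀ i, y (neg i) = - y i) (a e : ℕ) (l r : I) :
    Aker neg y a e l r = AZ (fun F => ∑ i, F (y i)) a e (y l) (y r) := by
  unfold Aker AZ kapt kap kapZ hairF
  simp only [hy, neg_neg]
  ring_nf

theorem Pker_eq {neg : I → I} {y : I → ℤ} (hy : ∀ i, y (neg i) = - y i) (a e : ℕ) (l m : I) :
    Pker neg y a e l m = PZ a e (y l) (y m) := by
  unfold Pker PZ phit hairF
  simp only [hy, neg_neg]
  by_cases h : e = 0
  · subst h
    simp only [if_true, pow_zero]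
    ring
  · rw [if_neg h, zero_pow h]
    ring

theorem thetaForm_eq {neg : I → I} {y : I → ℤ}
    (hy : ∀ i, y (neg i) = - y i) (a b e d : ℕ) :
    thetaForm neg (Aker neg y a e) (Aker neg y b d) (Pker neg y a e) (Pker neg y b d) =
      thetaZ (fun F => ∑ i, F (y i)) a b e d := by
  unfold thetaForm thetaZ
  simp only [Aker_eq hy, Pker_eq hy, hy]
  have h1 : ∑ x, ∑ t, ∑ z, AZ (fun F => ∑ i, F (y i)) a e (y t) (y x) *
      AZ (fun F => ∑ i, F (y i)) b d (y z) (y t) =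
      ∑ t, (∑ x, AZ (fun F => ∑ i, F (y i)) a e (y t) (y x)) *
        ∑ z, AZ (fun F => ∑ i, F (y i)) b d (y z) (y t) := by
    rw [Finset.sum_comm]
    refine Finset.sum_congr rfl fun t _ => ?_
    rw [Finset.sum_mul_sum]
  have h2 : ∑ x, ∑ t, (AZ (fun F => ∑ i, F (y i)) a e (y t) (y x) *
      AZ (fun F => ∑ i, F (y i)) b d (-y t) (y t) +
      AZ (fun F => ∑ i, F (y i)) a e (-y x) (y x) *
        AZ (fun F => ∑ i, F (y i)) b d (y t) (-y x) +
      AZ (fun F => ∑ i, F (y i)) a e (y t) (y x) *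
        AZ (fun F => ∑ i, F (y i)) b d (-y x) (y t)) =
      (∑ t, (∑ x, AZ (fun F => ∑ i, F (y i)) a e (y t) (y x)) *
        AZ (fun F => ∑ i, F (y i)) b d (-y t) (y t)) +
      (∑ x, AZ (fun F => ∑ i, F (y i)) a e (-y x) (y x) *
        ∑ t, AZ (fun F => ∑ i, F (y i)) b d (y t) (-y x)) +
      (∑ x, ∑ t, AZ (fun F => ∑ i, F (y i)) a e (y t) (y x) *
        AZ (fun F => ∑ i, F (y i)) b d (-y x) (y t)) := by
    simp only [Finset.sum_add_distrib]
    congr 2
    · rw [Finset.sum_comm]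
      refine Finset.sum_congr rfl fun t _ => ?_
      rw [Finset.sum_mul]
    · refine Finset.sum_congr rfl fun t _ => ?_
      rw [Finset.mul_sum]
  rw [h1, h2]
  simp only [Finset.sum_add_distrib, Finset.sum_sub_distrib, add_mul]
  ring

end

end Pool.Agent.Helper663
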