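import Mathlib
import Pool.Agent.Helper663.Formula

/-!
# Evaluation of the formula modulo 32003 with natural numbers

All residues are natural numbers; the negative of `x` is represented by `32002 * x`.
-/

namespace Pool.Agent.Helper663

/-- the natural number `x` represents the integer `z` modulo 32003 -/
def Rep (x : ℕ) (z : ℤ) : Prop := ((x : ℕ) : ZMod 32003) = ((z : ℤ) : ZMod 32003)

theorem c32002 : ((32002 : ℕ) : ZMod 32003) = -1 := by decide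

theorem c32003 : ((32003 : ℕ) : ZMod 32003) = 0 := by decide

theorem Rep.add {x y : ℕ} {a b : ℤ} (h1 : Rep x a) (h2 : Rep y b) :
    Rep (Nat.add x y) (a + b) := by
  unfold Rep at *
  rw [Nat.add_eq, Nat.cast_add, Int.cast_add, h1, h2]

theorem Rep.mul {x y : ℕ} {a b : ℤ} (h1 : Rep x a) (h2 : Rep y b) :
    Rep (Nat.mul x y) (a * b) := by
  unfold Rep at *
  rw [Nat.mul_eq, Nat.cast_mul, Int.cast_mul, h1, h2]

theorem Rep.pow {x : ℕ} {a : ℤ} (h1 : Rep x a) (n : ℕ) :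
    Rep (Nat.pow x n) (a ^ n) := by
  unfold Rep at *
  rw [Nat.pow_eq, Nat.cast_pow, Int.cast_pow, h1]

theorem Rep.neg {x : ℕ} {a : ℤ} (h1 : Rep x a) :
    Rep (Nat.mul 32002 x) (-a) := by
  unfold Rep at *
  rw [Nat.mul_eq, Nat.cast_mul, Int.cast_neg, h1, c32002]
  ring

theorem Rep.mod {x : ℕ} {a : ℤ} (h1 : Rep x a) : Rep (Nat.mod x 32003) a := by
  unfold Rep at *
  rw [← h1]
  show ((x % 32003 : ℕ) : ZMod 32003) = _
  exact ZMod.natCast_mod x 32003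

theorem Rep.ofNat (n : ℕ) : Rep n (n : ℤ) := by
  unfold Rep
  rw [Int.cast_natCast]

/-- multiply by a multiplicity, without evaluating when it is zero -/
def sm (j x : ℕ) : ℕ := Bool.rec (Nat.mul j x) 0 (Nat.beq j 0)

theorem sm_eq (j x : ℕ) : sm j x = j * x := by
  unfold sm
  cases h : Nat.beq j 0
  · rfl
  · have := Nat.eq_of_beq_eq_true h
    subst this
    simp

/-- the sum over the multiset of labels -/
def SN (j0 j1 j2 v1 w1 v2 w2 : ℕ) (F : ℕ → ℕ) : ℕ :=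
  Nat.mod (Nat.add (sm j0 (F 0)) (Nat.add (sm j1 (Nat.add (F v1) (F w1)))
    (sm j2 (Nat.add (F v2) (F w2))))) 32003

/-- the sum over the multiset of labels -/
def SZ (j0 j1 j2 : ℕ) (v1 v2 : ℤ) (F : ℤ → ℤ) : ℤ :=
  j0 * F 0 + (j1 * (F v1 + F (-v1)) + j2 * (F v2 + F (-v2)))

theorem Rep.S {j0 j1 j2 v1 v2 w1 w2 : ℕ} {F : ℕ → ℕ} {G : ℤ → ℤ}
    (h1 : Rep w1 (-(v1 : ℤ))) (h2 : Rep w2 (-(v2 : ℤ)))
    (h : ∀ x z, Rep x z → Rep (F x) (G z)) :
    Rep (SN j0 j1 j2 v1 w1 v2 w2 F) (SZ j0 j1 j2 v1 v2 G) := by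
  unfold SN SZ
  rw [sm_eq, sm_eq, sm_eq]
  have h0 : Rep 0 0 := by simp [Rep]
  exact (((Rep.ofNat j0).mul (h _ _ h0)).add
    (((Rep.ofNat j1).mul ((h _ _ (Rep.ofNat v1)).add (h _ _ h1))).add
      ((Rep.ofNat j2).mul ((h _ _ (Rep.ofNat v2)).add (h _ _ h2))))).mod

def kapN (S : (ℕ → ℕ) → ℕ) (a : ℕ) (u v : ℕ) : ℕ :=
  Nat.add (S (fun x => Nat.pow (Nat.add x (Nat.mul 32002 u)) a))
    (Nat.mul 32002 (Nat.add (Nat.pow (Nat.add (Nat.mul 32002 v) (Nat.mul 32002 u)) a)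
      (Nat.pow (Nat.add (Nat.mul 32002 u) (Nat.mul 32002 u)) a)))

def AN (S : (ℕ → ℕ) → ℕ) (a e : ℕ) (l r : ℕ) : ℕ :=
  Nat.mod (Nat.mul (Nat.pow (Nat.add l (Nat.mul 32002 r)) e) (Nat.add (kapN S a r l)
    (kapN S a (Nat.mul 32002 l) (Nat.mul 32002 r)))) 32003

def PN (a e : ℕ) (l m : ℕ) : ℕ :=
  Bool.rec 0 (Nat.add (Nat.add (Nat.pow (Nat.add (Nat.mul 32002 m) (Nat.mul 32002 l)) a)
      (Nat.pow (Nat.add m l) a))
    (Nat.mul 32002 (Nat.add (Nat.pow (Nat.add m (Nat.mul 32002 l)) a)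
      (Nat.pow (Nat.add (Nat.mul 32002 m) l) a)))) (Nat.beq e 0)

/-- the value of the formula modulo 32003 -/
def thetaN (S : (ℕ → ℕ) → ℕ) (a b e d : ℕ) : ℕ :=
  Nat.add (Nat.mul 32002 (S (fun t => Nat.mul (S (fun x => AN S a e t x))
    (S (fun z => AN S b d z t)))))
  (Nat.add (S (fun t => Nat.mul (S (fun x => AN S a e t x)) (AN S b d (Nat.mul 32002 t) t)))
  (Nat.add (S (fun x => Nat.mul (AN S a e (Nat.mul 32002 x) x)
    (S (fun z => AN S b d z (Nat.mul 32002 x)))))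
  (Nat.add (S (fun x => S (fun t => Nat.mul (AN S a e t x) (AN S b d (Nat.mul 32002 x) t))))
  (Nat.add (Nat.mul 32002 (S (fun x => Nat.add (Nat.mul (AN S a e (Nat.mul 32002 x) x)
      (AN S b d x (Nat.mul 32002 x)))
    (Nat.add (Nat.mul (AN S a e x x) (AN S b d (Nat.mul 32002 x) x))
      (Nat.mul (AN S a e (Nat.mul 32002 x) x)
        (AN S b d (Nat.mul 32002 x) (Nat.mul 32002 x)))))))
  (Nat.add (S (fun x => Nat.mul (AN S a e x x) (AN S b d x x)))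
  (Nat.add (S (fun x => S (fun z => Nat.mul (Nat.add (PN a e x z) (PN a e x (Nat.mul 32002 x)))
    (AN S b d z x))))
  (Nat.add (Nat.mul 32002 (Nat.mul 2 (S (fun x => Nat.mul (PN a e x (Nat.mul 32002 x))
    (AN S b d (Nat.mul 32002 x) x)))))
  (Nat.add (S (fun x => S (fun t => Nat.mul (AN S a e t x)
    (Nat.add (PN b d t x) (PN b d t (Nat.mul 32002 t))))))
  (Nat.add (Nat.mul 32002 (Nat.mul 2 (S (fun x => Nat.mul (AN S a e (Nat.mul 32002 x) x)
    (PN b d (Nat.mul 32002 x) x)))))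
  (Nat.add (S (fun x => Nat.mul (PN a e x x) (PN b d x x)))
    (Nat.mul 32002 (S (fun x => Nat.mul (PN a e x (Nat.mul 32002 x))
      (PN b d x (Nat.mul 32002 x)))))))))))))))

section

variable {S : (ℕ → ℕ) → ℕ} {T : (ℤ → ℤ) → ℤ}

theorem kap_rep (hS : ∀ F G, (∀ x z, Rep x z → Rep (F x) (G z)) → Rep (S F) (T G))
    (a : ℕ) {u v : ℕ} {u' v' : ℤ} (hu : Rep u u') (hv : Rep v v') :
    Rep (kapN S a u v) (kapZ T a u' v') := by
  unfold kapN kapZ
  exact (hS _ _ (fun x z h => (h.add hu.neg).pow a)).add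
    (((hv.neg.add hu.neg).pow a).add ((hu.neg.add hu.neg).pow a)).neg

theorem A_rep (hS : ∀ F G, (∀ x z, Rep x z → Rep (F x) (G z)) → Rep (S F) (T G))
    (a e : ℕ) {l r : ℕ} {l' r' : ℤ} (hl : Rep l l') (hr : Rep r r') :
    Rep (AN S a e l r) (AZ T a e l' r') := by
  unfold AN AZ
  exact (((hl.add hr.neg).pow e).mul ((kap_rep hS a hr hl).add
    (kap_rep hS a hl.neg hr.neg))).mod

theorem P_rep (a e : ℕ) {l m : ℕ} {l' m' : ℤ} (hl : Rep l l') (hm : Rep m m') :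
    Rep (PN a e l m) (PZ a e l' m') := by
  unfold PN PZ
  cases h : Nat.beq e 0
  · have h' : ¬ e = 0 := by
      intro hh
      rw [hh] at h
      exact absurd h (by decide)
    rw [if_neg h']
    simp [Rep]
  · have h' : e = 0 := Nat.eq_of_beq_eq_true h
    rw [if_pos h']
    exact (((hm.neg.add hl.neg).pow a).add ((hm.add hl).pow a)).add
      (((hm.add hl.neg).pow a).add ((hm.neg.add hl).pow a)).neg

theorem theta_rep (hS : ∀ F G, (∀ x z, Rep x z → Rep (F x) (G z)) → Rep (S F) (T G))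
    (a b e d : ℕ) :
    Rep (thetaN S a b e d) (thetaZ T a b e d) := by
  unfold thetaN thetaZ
  have h2 : Rep 2 2 := Rep.ofNat 2
  have hA : ∀ (a e : ℕ) {l r : ℕ} {l' r' : ℤ}, Rep l l' → Rep r r' →
    Rep (AN S a e l r) (AZ T a e l' r') := fun a e _ _ _ _ hl hr => A_rep hS a e hl hr
  refine (hS _ _ fun t t' ht => (hS _ _ fun x x' hx => hA _ _ ht hx).mul
    (hS _ _ fun z z' hz => hA _ _ hz ht)).neg.add ?_
  refine (hS _ _ fun t t' ht => (hS _ _ fun x x' hx => hA _ _ ht hx).mul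
    (hA _ _ ht.neg ht)).add ?_
  refine (hS _ _ fun x x' hx => (hA _ _ hx.neg hx).mul
    (hS _ _ fun z z' hz => hA _ _ hz hx.neg)).add ?_
  refine (hS _ _ fun x x' hx => hS _ _ fun t t' ht => (hA _ _ ht hx).mul
    (hA _ _ hx.neg ht)).add ?_
  refine (hS _ _ fun x x' hx => ((hA _ _ hx.neg hx).mul (hA _ _ hx hx.neg)).add
    (((hA _ _ hx hx).mul (hA _ _ hx.neg hx)).add
      ((hA _ _ hx.neg hx).mul (hA _ _ hx.neg hx.neg)))).neg.add ?_
  refine (hS _ _ fun x x' hx => (hA _ _ hx hx).mul (hA _ _ hx hx)).add ?_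
  refine (hS _ _ fun x x' hx => hS _ _ fun z z' hz =>
    ((P_rep _ _ hx hz).add (P_rep _ _ hx hx.neg)).mul (hA _ _ hz hx)).add ?_
  refine (h2.mul (hS _ _ fun x x' hx => (P_rep _ _ hx hx.neg).mul (hA _ _ hx.neg hx))).neg.add ?_
  refine (hS _ _ fun x x' hx => hS _ _ fun t t' ht =>
    (hA _ _ ht hx).mul ((P_rep _ _ ht hx).add (P_rep _ _ ht ht.neg))).add ?_
  refine (h2.mul (hS _ _ fun x x' hx => (hA _ _ hx.neg hx).mul (P_rep _ _ hx.neg hx))).neg.add ?_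
  exact (hS _ _ fun x x' hx => (P_rep _ _ hx hx).mul (P_rep _ _ hx hx)).add
    (hS _ _ fun x x' hx => (P_rep _ _ hx hx.neg).mul (P_rep _ _ hx hx.neg)).neg

end

end Pool.Agent.Helper663
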