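import Mathlib

/-!
# Orbit arrangements: the lattice `Π_λ` and reduced homology of a poset
-/

namespace Pool.Agent.Helper663.Orb

open Classical in
/-- The blocks of a set partition of `{0, ..., n-1}`, given as an equivalence relation. -/
noncomputable def blocks {n : ℕ} (s : Setoid (Fin n)) : Finset (Finset (Fin n)) :=
  Finset.univ.image fun a => Finset.univ.filter fun b => s a b

/-- The shape of a set partition: the multiset of its block sizes. -/
noncomputable def shape {n : ℕ} (s : Setoid (Fin n)) : Multiset ℕ :=
  (blocks s).val.map Finset.card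

/-- `Π_λ`: all joins of set partitions of shape `lam`, in the lattice of all set partitions
(ordered by refinement, finer partitions being lower). The empty join is the partition into
singletons. -/
def PiLam {n : ℕ} (lam : n.Partition) : Set (Setoid (Fin n)) :=
  {s | ∃ T : Set (Setoid (Fin n)), (∀ t ∈ T, shape t = lam.parts) ∧ s = sSup T}

/-- The proper part of `Π_λ`: the bottom element `⊥` (the partition into singletons) and the top
element `⊤` (the partition with one block) are removed. -/
abbrev ProperPart {n : ℕ} (lam : n.Partition) : Type :=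
  {s : Setoid (Fin n) // s ∈ PiLam lam ∧ s ≠ ⊥ ∧ s ≠ ⊤}

/-- The simplices with `k` vertices of the order complex of `P`: strictly increasing lists of
length `k` (for `k = 0` this is the empty simplex). -/
abbrev Simplex (P : Type) [PartialOrder P] (k : ℕ) : Type :=
  {l : List P // l.length = k ∧ l.Pairwise (· < ·)}

/-- The face obtained by deleting the vertex number `i`. -/
def face {P : Type} [PartialOrder P] {k : ℕ} (c : Simplex P (k + 1)) (i : Fin (k + 1)) :
    Simplex P k :=
  ⟨c.1.eraseIdx i, by
    rw [List.length_eraseIdx_of_lt (by rw [c.2.1]; exact i.2), c.2.1]; rfl,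
    c.2.2.sublist (List.eraseIdx_sublist _ _)⟩

/-- The simplicial boundary map of the augmented chain complex with integer coefficients, from
chains of simplices with `k + 1` vertices to chains of simplices with `k` vertices. -/
noncomputable def boundary (P : Type) [PartialOrder P] (k : ℕ) :
    (Simplex P (k + 1) →₀ ℤ) →ₗ[ℤ] (Simplex P k →₀ ℤ) :=
  Finsupp.linearCombination ℤ fun c =>
    ∑ i : Fin (k + 1), (-1 : ℤ) ^ (i : ℕ) • Finsupp.single (face c i) (1 : ℤ)

/-- The reduced simplicial homology in dimension `i` of the order complex of `P`, with integer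
coefficients (cycles modulo boundaries), has a nonzero element of finite order: there is a cycle
`z` which is not a boundary, while some multiple `m z` with `m ≥ 2` is a boundary. -/
def HasTorsion (P : Type) [PartialOrder P] (i : ℕ) : Prop :=
  ∃ z : Simplex P (i + 1) →₀ ℤ, boundary P i z = 0 ∧ (¬ ∃ w, boundary P (i + 1) w = z) ∧
    ∃ m : ℕ, 2 ≤ m ∧ ∃ w, boundary P (i + 1) w = m • z

/-- The reduced homology group itself, cycles modulo boundaries (used only for comparison). -/
abbrev RedHomology (P : Type) [PartialOrder P] (i : ℕ) : Type :=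
  LinearMap.ker (boundary P i) ⧸
    (LinearMap.range (boundary P (i + 1))).submoduleOf (LinearMap.ker (boundary P i))

/-- `HasTorsion` says that the group `RedHomology P i` has a nonzero element of finite order. -/
theorem hasTorsion_iff (P : Type) [PartialOrder P] (i : ℕ) :
    HasTorsion P i ↔ ∃ x : RedHomology P i, x ≠ 0 ∧ ∃ m : ℕ, 2 ≤ m ∧ m • x = 0 := by
  constructor
  · rintro ⟨z, hz, hn, m, hm, w, hw⟩
    refine ⟨Submodule.Quotient.mk ⟨z, LinearMap.mem_ker.2 hz⟩, ?_, m, hm, ?_⟩
    · intro h
      rw [Submodule.Quotient.mk_eq_zero] at h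
      have h' : z ∈ LinearMap.range (boundary P (i + 1)) := h
      exact hn h'
    · rw [← Submodule.Quotient.mk_smul, Submodule.Quotient.mk_eq_zero]
      have h' : m • z ∈ LinearMap.range (boundary P (i + 1)) := ⟨w, hw⟩
      exact h'
  · rintro ⟨x, hx, m, hm, h⟩
    obtain ⟨⟨z, hz⟩, rfl⟩ := Submodule.Quotient.mk_surjective _ x
    refine ⟨z, LinearMap.mem_ker.1 hz, ?_, m, hm, ?_⟩
    · intro h'
      apply hx
      rw [Submodule.Quotient.mk_eq_zero]
      exact h'
    · rw [← Submodule.Quotient.mk_smul, Submodule.Quotient.mk_eq_zero] at h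
      exact h

end Pool.Agent.Helper663.Orb
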