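import Mathlib
import Pool.Agent.Helper663.OrbDefs

/-! # Chains as combinations of lists, and prism operators -/

namespace Pool.Agent.Helper663.Orb

open Finsupp

/-- formal combinations of lists -/
abbrev FL (α : Type*) : Type _ := List α →₀ ℤ

section Alg

variable {α β : Type*}

noncomputable def consL (a : α) : FL α →ₗ[ℤ] FL α := Finsupp.lmapDomain ℤ ℤ (List.cons a)

@[simp] theorem consL_single (a : α) (l : List α) (c : ℤ) :
    consL a (single l c) = single (a :: l) c := by
  simp [consL]

noncomputable def mp (f : α → β) : FL α →ₗ[ℤ] FL β := Finsupp.lmapDomain ℤ ℤ (List.map f)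

@[simp] theorem mp_single (f : α → β) (l : List α) (c : ℤ) :
    mp f (single l c) = single (l.map f) c := by
  simp [mp]

theorem mp_mp {γ : Type*} (g : β → γ) (f : α → β) (x : FL α) : mp g (mp f x) = mp (g ∘ f) x := by
  induction x using Finsupp.induction_linear with
  | zero => simp
  | add x y hx hy => simp [hx, hy]
  | single l c => simp

theorem mp_consL (f : α → β) (a : α) (x : FL α) : mp f (consL a x) = consL (f a) (mp f x) := by
  induction x using Finsupp.induction_linear with
  | zero => simp
  | add x y hx hy => simp [hx, hy]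
  | single l c => simp

noncomputable def bdL : List α → FL α
  | [] => 0
  | a :: l => single l 1 - consL a (bdL l)

noncomputable def bd : FL α →ₗ[ℤ] FL α := Finsupp.linearCombination ℤ bdL

@[simp] theorem bd_single (l : List α) (c : ℤ) : bd (single l c) = c • bdL l := by
  simp [bd]

theorem bd_consL (a : α) (x : FL α) : bd (consL a x) = x - consL a (bd x) := by
  induction x using Finsupp.induction_linear with
  | zero => simp
  | add x y hx hy => rw [map_add, map_add, hx, hy, map_add, map_add]; abel
  | single l c =>
    rw [consL_single, bd_single, bd_single, bdL, smul_sub, map_smul]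
    congr 1
    simp

theorem bd_bd (x : FL α) : bd (bd x) = 0 := by
  have h : ∀ l : List α, bd (bdL l) = 0 := by
    intro l
    induction l with
    | nil => simp [bdL]
    | cons a l ih =>
      rw [bdL, map_sub, bd_consL, ih, bd_single]
      simp
  induction x using Finsupp.induction_linear with
  | zero => simp
  | add x y hx hy => simp [hx, hy]
  | single l c => rw [bd_single, map_smul, h, smul_zero]

theorem bd_mp (f : α → β) (x : FL α) : bd (mp f x) = mp f (bd x) := by
  have h : ∀ l : List α, bdL (l.map f) = mp f (bdL l) := by
    intro l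
    induction l with
    | nil => simp [bdL]
    | cons a l ih =>
      rw [List.map_cons, bdL, bdL, map_sub, mp_consL, ih, mp_single]
  induction x using Finsupp.induction_linear with
  | zero => simp
  | add x y hx hy => simp [hx, hy]
  | single l c => rw [mp_single, bd_single, bd_single, h, map_smul]

/-- the prism operator between the identity and `f` -/
noncomputable def prL (f : α → α) : List α → FL α
  | [] => 0
  | a :: l => single (a :: f a :: l.map f) 1 - consL a (prL f l)

noncomputable def pr (f : α → α) : FL α →ₗ[ℤ] FL α := Finsupp.linearCombination ℤ (prL f)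

@[simp] theorem pr_single (f : α → α) (l : List α) (c : ℤ) :
    pr f (single l c) = c • prL f l := by
  simp [pr]

theorem pr_consL (f : α → α) (a : α) (x : FL α) :
    pr f (consL a x) = consL a (consL (f a) (mp f x)) - consL a (pr f x) := by
  induction x using Finsupp.induction_linear with
  | zero => simp
  | add x y hx hy => simp only [map_add, hx, hy]; abel
  | single l c =>
    rw [consL_single, pr_single, pr_single, prL, smul_sub, map_smul]
    congr 1
    simp

theorem bd_pr (f : α → α) (x : FL α) : bd (pr f x) + pr f (bd x) = mp f x - x := by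
  have h : ∀ l : List α, bd (prL f l) + pr f (bdL l) = single (l.map f) 1 - single l 1 := by
    intro l
    induction l with
    | nil => simp [bdL, prL]
    | cons a l ih =>
      have e1 : bd (prL f (a :: l)) = single (f a :: l.map f) 1 - consL a (single (l.map f) 1) +
          consL a (consL (f a) (bdL (l.map f))) - prL f l + consL a (bd (prL f l)) := by
        rw [prL, map_sub, bd_single, bd_consL, one_smul, bdL, bdL, map_sub]
        abel
      have e2 : pr f (bdL (a :: l)) = prL f l - consL a (consL (f a) (bdL (l.map f))) +
          consL a (pr f (bdL l)) := by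
        rw [bdL, map_sub, pr_single, one_smul, pr_consL]
        have : mp f (bdL l) = bdL (l.map f) := by
          have := bd_mp f (single l (1 : ℤ))
          rw [mp_single, bd_single, bd_single, one_smul, one_smul] at this
          exact this.symm
        rw [this]
        abel
      rw [e1, e2]
      have e3 : consL a (bd (prL f l)) + consL a (pr f (bdL l)) =
          consL a (single (l.map f) 1) - consL a (single l 1) := by
        rw [← map_add, ih, map_sub]
      rw [List.map_cons]
      have e4 : consL a (single l (1 : ℤ)) = single (a :: l) 1 := consL_single a l 1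
      rw [e4] at e3
      rw [eq_sub_iff_add_eq] at e3
      rw [← e3]
      abel
  induction x using Finsupp.induction_linear with
  | zero => simp
  | add x y hx hy =>
    simp only [map_add]
    rw [show bd (pr f x) + bd (pr f y) + (pr f (bd x) + pr f (bd y)) =
      (bd (pr f x) + pr f (bd x)) + (bd (pr f y) + pr f (bd y)) by abel, hx, hy]
    abel
  | single l c =>
    rw [pr_single, bd_single, map_smul, map_smul, ← smul_add, h, mp_single, smul_sub,
      Finsupp.smul_single, Finsupp.smul_single]
    simp

/-- difference of a prism and its image under `g` -/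
noncomputable def Eo (f g : α → α) : FL α →ₗ[ℤ] FL α := pr f - (mp g) ∘ₗ (pr f)

theorem bd_Eo (f g : α → α) (hgf : ∀ a, g (f a) = f a) (x : FL α) :
    bd (Eo f g x) + Eo f g (bd x) = mp g x - x := by
  have e1 : ∀ y : FL α, Eo f g y = pr f y - mp g (pr f y) := fun y => rfl
  rw [e1, e1, map_sub, bd_mp]
  have h := bd_pr f x
  have h2 : mp g (bd (pr f x)) + mp g (pr f (bd x)) = mp g (mp f x) - mp g x := by
    rw [← map_add, h, map_sub]
  have h3 : mp g (mp f x) = mp f x := by
    rw [mp_mp]
    congr 1
    have : g ∘ f = f := funext hgf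
    rw [this]
  rw [h3] at h2
  have : bd (pr f x) - mp g (bd (pr f x)) + (pr f (bd x) - mp g (pr f (bd x))) =
      (bd (pr f x) + pr f (bd x)) - (mp g (bd (pr f x)) + mp g (pr f (bd x))) := by abel
  rw [this, h, h2]
  abel

section Triple

variable (f g : Fin 3 → α → α)

/-- `g_i - 1` -/
noncomputable def Gm (i : Fin 3) : FL α →ₗ[ℤ] FL α := mp (g i) - LinearMap.id

noncomputable def To (x : FL α) : FL α :=
  Eo (f 0) (g 0) (Eo (f 1) (g 1) (Eo (f 2) (g 2) x))

noncomputable def Ko (x : FL α) : FL α :=
  Gm g 0 (Eo (f 1) (g 1) (Eo (f 2) (g 2) x)) - Eo (f 0) (g 0) (Gm g 1 (Eo (f 2) (g 2) x)) +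
    Eo (f 0) (g 0) (Eo (f 1) (g 1) (Gm g 2 x))

variable {f g}

theorem bd_To (h : ∀ i a, g i (f i a) = f i a) (x : FL α) :
    bd (To f g x) = Ko f g x - To f g (bd x) := by
  have k : ∀ i y, bd (Eo (f i) (g i) y) = Gm g i y - Eo (f i) (g i) (bd y) := by
    intro i y
    rw [eq_sub_iff_add_eq, bd_Eo _ _ (h i)]
    rfl
  unfold To Ko
  rw [k, k, map_sub, k, map_sub, map_sub]
  abel

theorem To_add (x y : FL α) : To f g (x + y) = To f g x + To f g y := by
  simp [To]

theorem To_sub (x y : FL α) : To f g (x - y) = To f g x - To f g y := by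
  simp [To]

theorem To_smul (c : ℤ) (x : FL α) : To f g (c • x) = c • To f g x := by
  simp only [To, map_smul]

theorem Ko_sub (x y : FL α) : Ko f g (x - y) = Ko f g x - Ko f g y := by
  simp only [Ko, map_sub]; abel

theorem Ko_smul (c : ℤ) (x : FL α) : Ko f g (c • x) = c • Ko f g x := by
  simp only [Ko, map_smul, smul_add, smul_sub]

theorem bd_Ko (h : ∀ i a, g i (f i a) = f i a) (x : FL α) :
    bd (Ko f g x) = Ko f g (bd x) := by
  have h1 : Ko f g x = bd (To f g x) + To f g (bd x) := by rw [bd_To h]; abel
  rw [h1, map_add, bd_bd, bd_To h, bd_bd]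
  simp [To]

/-- The main construction: from `z`, `b` with `∂ z = 0`, `∂ b = 2 z` and their cones `zx`, `bx`
one gets a cycle and a chain whose boundary is twice this cycle. -/
theorem main_cycle (h : ∀ i a, g i (f i a) = f i a) {z b zx bx : FL α} (h1 : bd z = 0)
    (h2 : bd b = (2 : ℤ) • z) (h3 : bd zx = z) (h4 : bd bx = (2 : ℤ) • zx - b) :
    bd (Ko f g zx - To f g z) = 0 ∧
    bd (Ko f g bx + To f g b) = (2 : ℤ) • (Ko f g zx - To f g z) := by
  constructor
  · rw [map_sub, bd_Ko h, h3, bd_To h, h1]
    simp [To]
  · rw [map_add, bd_Ko h, h4, bd_To h, h2, Ko_sub, Ko_smul, To_smul, smul_sub]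
    abel

end Triple

end Alg

end Pool.Agent.Helper663.Orb
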