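import Mathlib
import Pool.Agent.Helper663.OrbShape

/-! # The cocycle on the set partitions below the four-block partition -/

set_option linter.unusedSectionVars false

namespace Pool.Agent.Helper663.Orb

open Finset

/-- the combinatorial cocycle -/
def phiYB (w w' : Fin 3 → Bool) : ZMod 2 :=
  if ∃ i : Fin 3, w i = false ∧ w (i + 1) = false ∧ w (i + 2) = true ∧ w' i = true ∧
    w' (i + 1) = false ∧ w' (i + 2) = true then 1 else 0

def hB (a b : Fin 3 → Bool) : ZMod 2 :=
  if ∃ i, a i = true then
    (if ∃ j, b j = true then (if ∃ j : Fin 3, a (j + 1) = true ∧ b j = true then 1 else 0) else 0)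
  else (if ∃ j, b j = true then 1 else 0)

theorem fin3_or : ∀ i j k m : Fin 3, i ≠ j → i ≠ k → j ≠ k → m = i ∨ m = j ∨ m = k := by decide

set_option synthInstance.maxSize 2000 in
theorem fin3_third : ∀ i j k m : Fin 3, i ≠ j → i ≠ k → j ≠ k → m ≠ i → m ≠ j → m = k := by
  decide

theorem fun3_eq (w : Fin 3 → Bool) : w = ![w 0, w 1, w 2] := by
  funext i; fin_cases i <;> rfl

set_option synthInstance.maxSize 2000 in
theorem caseA : ∀ a0 a1 a2 b0 b1 b2 c0 c1 c2 : Bool,
    a0 ≤ b0 → a1 ≤ b1 → a2 ≤ b2 → b0 ≤ c0 → b1 ≤ c1 → b2 ≤ c2 →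
    (a0 = true ∨ a1 = true ∨ a2 = true) → (c0 = false ∨ c1 = false ∨ c2 = false) →
    phiYB ![a0, a1, a2] ![b0, b1, b2] + phiYB ![a0, a1, a2] ![c0, c1, c2] +
      phiYB ![b0, b1, b2] ![c0, c1, c2] = 0 := by
  decide +kernel

set_option synthInstance.maxSize 2000 in
theorem caseB : ∀ i j k : Fin 3, i ≠ j → i ≠ k → j ≠ k → ∀ p q p' q' : Bool, p ≤ p' → q ≤ q' →
    ¬ (p' = true ∧ q' = true) →
    hB (fun m => decide (m = i) && !p) (fun m => decide (m = j) && !q) +
    hB (fun m => decide (m = i) && !p') (fun m => decide (m = j) && !q') +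
    phiYB (fun m => if m = i then p else if m = j then q else true)
      (fun m => if m = i then p' else if m = j then q' else true) = 0 := by
  decide +kernel

theorem card_blk : ∀ m : Fin 3, (univ.filter fun u : Fin 25 => blk u = m.castSucc).card = 7 := by
  decide +kernel

theorem card_blk3 : (univ.filter fun u : Fin 25 => blk u = 3).card = 4 := by decide +kernel

section

open Classical

/-- the code of the four-block partition -/
def rX : Al := ((true, true), (true, true), (true, true), true, 0, 0, 0)

/-- the four-block partition -/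
def X : Setoid (Fin 25) := Phi rX

theorem lab_rX : ∀ u, lab rX u = 10 * (blk u).val := by decide +kernel

theorem X_rel (u v : Fin 25) : X u v ↔ blk u = blk v := by
  show lab rX u = lab rX v ↔ _
  rw [lab_rX, lab_rX]
  constructor
  · intro h; exact Fin.ext (by omega)
  · intro h; rw [h]

/-- the elements of the block number `m` -/
noncomputable def Bl (m : Fin 4) : Finset (Fin 25) := univ.filter fun u => blk u = m

theorem mem_Bl {m : Fin 4} {u : Fin 25} : u ∈ Bl m ↔ blk u = m := by simp [Bl]

theorem card_Bl (m : Fin 3) : (Bl m.castSucc).card = 7 := by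
  unfold Bl
  convert card_blk m

theorem card_Bl3 : (Bl 3).card = 4 := by
  unfold Bl
  convert card_blk3

/-- the class of `u` -/
noncomputable def cl (c : Setoid (Fin 25)) (u : Fin 25) : Finset (Fin 25) :=
  univ.filter fun v => c u v

theorem mem_cl {c : Setoid (Fin 25)} {u v : Fin 25} : v ∈ cl c u ↔ c u v := by simp [cl]

theorem cl_mono {c d : Setoid (Fin 25)} (h : c ≤ d) (u : Fin 25) : cl c u ⊆ cl d u := by
  intro v hv
  rw [mem_cl] at hv ⊢
  exact h hv

theorem cl_eq {c : Setoid (Fin 25)} {u v : Fin 25} (h : c u v) : cl c u = cl c v := by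
  ext w
  rw [mem_cl, mem_cl]
  exact ⟨fun hw => c.trans (c.symm h) hw, fun hw => c.trans h hw⟩

theorem cl_disj {c : Setoid (Fin 25)} {u v : Fin 25} (h : ¬ c u v) : Disjoint (cl c u) (cl c v) := by
  rw [Finset.disjoint_left]
  intro w h1 h2
  rw [mem_cl] at h1 h2
  exact h (c.trans h1 (c.symm h2))

theorem cl_sub {c : Setoid (Fin 25)} (h : c ≤ X) (u : Fin 25) : cl c u ⊆ Bl (blk u) := by
  intro v hv
  rw [mem_cl] at hv
  rw [mem_Bl]
  exact ((X_rel u v).1 (h hv)).symm

/-- the block number `m` is a class -/
def whole (m : Fin 4) (c : Setoid (Fin 25)) : Prop := ∀ u v, blk u = m → blk v = m → c u v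

theorem whole_mono {m : Fin 4} {c d : Setoid (Fin 25)} (h : c ≤ d) (hc : whole m c) : whole m d :=
  fun u v hu hv => h (hc u v hu hv)

theorem cl_whole {m : Fin 4} {c : Setoid (Fin 25)} (h : c ≤ X) (hc : whole m c) {u : Fin 25}
    (hu : blk u = m) : cl c u = Bl m := by
  apply Finset.Subset.antisymm
  · rw [← hu]; exact cl_sub h u
  · intro v hv
    rw [mem_Bl] at hv
    rw [mem_cl]
    exact hc u v hu hv

theorem whole_of_card {m : Fin 4} {c : Setoid (Fin 25)} (h : c ≤ X) {u : Fin 25} (hu : blk u = m)
    (hcard : (Bl m).card ≤ (cl c u).card) : whole m c := by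
  have h1 : cl c u ⊆ Bl m := by rw [← hu]; exact cl_sub h u
  have h2 : cl c u = Bl m := Finset.eq_of_subset_of_card_le h1 hcard
  intro v w hv hw
  have hv' : v ∈ cl c u := by rw [h2, mem_Bl]; exact hv
  have hw' : w ∈ cl c u := by rw [h2, mem_Bl]; exact hw
  rw [mem_cl] at hv' hw'
  exact c.trans (c.symm hv') hw'

theorem eq_X_of_whole {c : Setoid (Fin 25)} (h : c ≤ X) (hc : ∀ m, whole m c) : c = X := by
  apply le_antisymm h
  intro u v huv
  exact hc (blk u) u v rfl ((X_rel u v).1 huv).symm

/-- some class in the block number `m` has `5` elements -/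
def has5 (m : Fin 3) (c : Setoid (Fin 25)) : Prop := ∃ u, blk u = m.castSucc ∧ (cl c u).card = 5

/-- some class in the block number `m` has `4` elements -/
def has4 (m : Fin 3) (c : Setoid (Fin 25)) : Prop := ∃ u, blk u = m.castSucc ∧ (cl c u).card = 4

noncomputable def wv (c : Setoid (Fin 25)) (m : Fin 3) : Bool := decide (whole m.castSucc c)
noncomputable def av (c : Setoid (Fin 25)) (m : Fin 3) : Bool := decide (has5 m c)
noncomputable def bv (c : Setoid (Fin 25)) (m : Fin 3) : Bool := decide (has4 m c)

/-- the cocycle -/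
noncomputable def phi (c d : Setoid (Fin 25)) : ZMod 2 :=
  if whole 3 d then (if whole 3 c then phiYB (wv c) (wv d) else hB (av d) (bv d)) else 0

/-! ### Structure of the set partitions of shape `7 + 5 + 4 + 3 + 2 + 2 + 2` below `X` -/

section Struct

variable {s : Setoid (Fin 25)}

theorem exists_cl_card (hs : shape s = lam25.parts) {k : ℕ} (hk : k ∈ lam25.parts) :
    ∃ u, (cl s u).card = k := by
  rw [← hs] at hk
  unfold shape at hk
  rw [Multiset.mem_map] at hk
  obtain ⟨C, hC, hCk⟩ := hk
  have hC' : C ∈ blocks s := hC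
  obtain ⟨a, ha⟩ := mem_blocks.1 hC'
  exact ⟨a, by rw [← hCk, ha]; rfl⟩

theorem two_le_cl (hs : shape s = lam25.parts) (u : Fin 25) : 2 ≤ (cl s u).card := by
  apply lam25_ge
  rw [← hs]
  have h : cl s u ∈ blocks s := mem_blocks.2 ⟨u, rfl⟩
  exact Multiset.mem_map_of_mem _ h

theorem exists_whole (hs : shape s = lam25.parts) (hX : s ≤ X) :
    ∃ k : Fin 3, whole k.castSucc s := by
  obtain ⟨u, hu⟩ := exists_cl_card hs (show 7 ∈ lam25.parts by unfold lam25; decide)
  have hsub := Finset.card_le_card (cl_sub hX u)
  rcases Fin.eq_castSucc_or_eq_last (blk u) with ⟨k, hk⟩ | hk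
  · refine ⟨k, whole_of_card hX hk ?_⟩
    rw [card_Bl, hu]
  · exfalso
    have h3 : blk u = 3 := hk
    rw [h3, card_Bl3, hu] at hsub
    omega

/-- In a block with a class `cl s u` whose complement in the block has at most three elements,
a coarser partition either joins everything or changes nothing. -/
theorem two_classes (hs : shape s = lam25.parts) (hX : s ≤ X) {m : Fin 3} {u : Fin 25}
    (hu : blk u = m.castSucc) (hcard : 4 ≤ (cl s u).card) {c : Setoid (Fin 25)} (hsc : s ≤ c)
    (hcX : c ≤ X) (hw : ¬ whole m.castSucc c) {v : Fin 25} (hv : blk v = m.castSucc) :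
    (s u v → (cl c v).card = (cl s u).card) ∧ (¬ s u v → (cl c v).card = 7 - (cl s u).card) := by
  have hsub : cl s u ⊆ Bl m.castSucc := by rw [← hu]; exact cl_sub hX u
  have hcomp : (Bl m.castSucc \ cl s u).card = 7 - (cl s u).card := by
    rw [Finset.card_sdiff_of_subset hsub, card_Bl]
  -- elements outside the class are equivalent
  have hout : ∀ v w, blk v = m.castSucc → blk w = m.castSucc → ¬ s u v → ¬ s u w → s v w := by
    intro v w hv hw hv' hw'
    by_contra hvw
    have hin : ∀ v, blk v = m.castSucc → ¬ s u v → cl s v ⊆ Bl m.castSucc \ cl s u := by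
      intro v hv hv' t ht
      rw [mem_sdiff]
      refine ⟨by rw [← hv]; exact cl_sub hX v ht, ?_⟩
      intro ht'
      rw [mem_cl] at ht ht'
      exact hv' (s.trans ht' (s.symm ht))
    have h1 := two_le_cl hs v
    have h2 := two_le_cl hs w
    have h3 := Finset.card_le_card (Finset.union_subset (hin v hv hv') (hin w hw hw'))
    rw [Finset.card_union_of_disjoint (cl_disj hvw), hcomp] at h3
    have h4 := Finset.card_le_card hsub
    rw [card_Bl] at h4
    omega
  -- `c` does not join the class with its complement
  have hsep : ∀ t, blk t = m.castSucc → c u t → s u t := by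
    intro t ht hct
    by_contra hst
    apply hw
    have hall : ∀ w, blk w = m.castSucc → c u w := by
      intro w hw'
      by_cases h : s u w
      · exact hsc h
      · exact c.trans hct (hsc (hout t w ht hw' hst h))
    intro a b ha hb
    exact c.trans (c.symm (hall a ha)) (hall b hb)
  constructor
  · intro huv
    have : cl c v = cl s u := by
      ext w
      rw [mem_cl, mem_cl]
      constructor
      · intro hw'
        have hcuw : c u w := c.trans (hsc huv) hw'
        have hbw : blk w = m.castSucc := by
          rw [← hu]; exact ((X_rel u w).1 (hcX hcuw)).symm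
        exact hsep w hbw hcuw
      · intro hw'
        exact hsc (s.trans (s.symm huv) hw')
    rw [this]
  · intro huv
    have : cl c v = Bl m.castSucc \ cl s u := by
      ext w
      rw [mem_cl, mem_sdiff, mem_Bl, mem_cl]
      constructor
      · intro hw'
        have hbw : blk w = m.castSucc := by
          rw [← hv]; exact ((X_rel v w).1 (hcX hw')).symm
        refine ⟨hbw, ?_⟩
        intro hsw
        exact huv (hsep v hv (c.trans (hsc hsw) (c.symm hw')))
      · rintro ⟨h1, h2⟩
        exact hsc (hout v w hv h1 huv h2)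
    rw [this, hcomp]

/-- The structure when the block with four elements is split. -/
theorem structure_split (hs : shape s = lam25.parts) (hX : s ≤ X) (h3 : ¬ whole 3 s) :
    ∃ i j k : Fin 3, i ≠ j ∧ i ≠ k ∧ j ≠ k ∧ ∀ c : Setoid (Fin 25), s ≤ c → c ≤ X →
      whole k.castSucc c ∧ (∀ m, has5 m c ↔ (m = i ∧ ¬ whole i.castSucc c)) ∧
      (∀ m, has4 m c ↔ (m = j ∧ ¬ whole j.castSucc c)) := by
  obtain ⟨k, hk⟩ := exists_whole hs hX
  obtain ⟨u5, hu5⟩ := exists_cl_card hs (show 5 ∈ lam25.parts by unfold lam25; decide)
  obtain ⟨u4, hu4⟩ := exists_cl_card hs (show 4 ∈ lam25.parts by unfold lam25; decide)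
  have hks : ∀ u, blk u = k.castSucc → (cl s u).card = 7 := by
    intro u hu
    rw [cl_whole hX hk hu, card_Bl]
  obtain ⟨i, hi⟩ : ∃ i : Fin 3, blk u5 = i.castSucc := by
    rcases Fin.eq_castSucc_or_eq_last (blk u5) with ⟨i, hi⟩ | hi
    · exact ⟨i, hi⟩
    · exfalso
      have h3' : blk u5 = 3 := hi
      have := Finset.card_le_card (cl_sub hX u5)
      rw [h3', card_Bl3, hu5] at this
      omega
  obtain ⟨j, hj⟩ : ∃ j : Fin 3, blk u4 = j.castSucc := by
    rcases Fin.eq_castSucc_or_eq_last (blk u4) with ⟨j, hj⟩ | hj
    · exact ⟨j, hj⟩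
    · exfalso
      apply h3
      have h3' : blk u4 = 3 := hj
      exact whole_of_card hX h3' (by rw [card_Bl3, hu4])
  have hik : i ≠ k := by
    rintro rfl
    have := hks u5 hi
    omega
  have hjk : j ≠ k := by
    rintro rfl
    have := hks u4 hj
    omega
  have hij : i ≠ j := by
    rintro rfl
    have hn : ¬ s u5 u4 := by
      intro h
      rw [cl_eq h] at hu5
      omega
    have h1 : cl s u5 ⊆ Bl i.castSucc := by rw [← hi]; exact cl_sub hX u5
    have h2 : cl s u4 ⊆ Bl i.castSucc := by rw [← hj]; exact cl_sub hX u4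
    have h4 := Finset.card_le_card (Finset.union_subset h1 h2)
    rw [Finset.card_union_of_disjoint (cl_disj hn), card_Bl] at h4
    omega
  have hcase : ∀ m : Fin 3, m = i ∨ m = j ∨ m = k := fun m => fin3_or i j k m hij hik hjk
  refine ⟨i, j, k, hij, hik, hjk, ?_⟩
  intro c hsc hcX
  have hkc : whole k.castSucc c := whole_mono hsc hk
  have whole_card : ∀ m : Fin 3, whole m.castSucc c → ∀ u, blk u = m.castSucc →
      (cl c u).card = 7 := by
    intro m hm u hu
    rw [cl_whole hcX hm hu, card_Bl]
  have ci : ¬ whole i.castSucc c → ∀ v, blk v = i.castSucc → (cl c v).card = 5 ∨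
      (cl c v).card = 2 := by
    intro hw v hv
    have := two_classes hs hX hi (by omega) hsc hcX hw hv
    by_cases h : s u5 v
    · left; rw [this.1 h, hu5]
    · right; rw [this.2 h, hu5]
  have cj : ¬ whole j.castSucc c → ∀ v, blk v = j.castSucc → (cl c v).card = 4 ∨
      (cl c v).card = 3 := by
    intro hw v hv
    have := two_classes hs hX hj (by omega) hsc hcX hw hv
    by_cases h : s u4 v
    · left; rw [this.1 h, hu4]
    · right; rw [this.2 h, hu4]
  refine ⟨hkc, ?_, ?_⟩
  · intro m
    constructor
    · rintro ⟨u, hu, hc5⟩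
      rcases hcase m with rfl | rfl | rfl
      · refine ⟨rfl, fun hw => ?_⟩
        have := whole_card _ hw u hu
        omega
      · exfalso
        by_cases hw : whole m.castSucc c
        · have := whole_card _ hw u hu
          omega
        · rcases cj hw u hu with h | h <;> omega
      · exfalso
        have := whole_card _ hkc u hu
        omega
    · rintro ⟨rfl, hw⟩
      refine ⟨u5, hi, ?_⟩
      rw [(two_classes hs hX hi (by omega) hsc hcX hw hi).1 (s.refl u5), hu5]
  · intro m
    constructor
    · rintro ⟨u, hu, hc4⟩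
      rcases hcase m with rfl | rfl | rfl
      · exfalso
        by_cases hw : whole m.castSucc c
        · have := whole_card _ hw u hu
          omega
        · rcases ci hw u hu with h | h <;> omega
      · refine ⟨rfl, fun hw => ?_⟩
        have := whole_card _ hw u hu
        omega
      · exfalso
        have := whole_card _ hkc u hu
        omega
    · rintro ⟨rfl, hw⟩
      refine ⟨u4, hj, ?_⟩
      rw [(two_classes hs hX hj (by omega) hsc hcX hw hj).1 (s.refl u4), hu4]

end Struct

theorem exists_below {c : Setoid (Fin 25)} (hc : c ∈ PiLam lam25) (hb : c ≠ ⊥) :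
    ∃ s, shape s = lam25.parts ∧ s ≤ c := by
  obtain ⟨T, hT, rfl⟩ := hc
  by_cases h : T = ∅
  · exfalso
    apply hb
    rw [h, sSup_empty]
  · obtain ⟨t, ht⟩ := Set.nonempty_iff_ne_empty.2 h
    exact ⟨t, hT t ht, le_sSup ht⟩

theorem wv_mono {c d : Setoid (Fin 25)} (h : c ≤ d) (m : Fin 3) : wv c m ≤ wv d m := by
  unfold wv
  by_cases h1 : whole m.castSucc c
  · have h2 := whole_mono h h1
    simp [h1, h2]
  · simp [h1]

theorem zmod2_add_self (x : ZMod 2) : x + x = 0 := CharTwo.add_self_eq_zero x

/-- the cocycle condition -/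
theorem phi_cocycle {c0 c1 c2 : Setoid (Fin 25)} (hP : c0 ∈ PiLam lam25) (hb : c0 ≠ ⊥)
    (h01 : c0 ≤ c1) (h12 : c1 ≤ c2) (h2X : c2 ≤ X) (hne : c2 ≠ X) :
    phi c0 c1 + phi c0 c2 + phi c1 c2 = 0 := by
  obtain ⟨s, hs, hs0⟩ := exists_below hP hb
  have h1X : c1 ≤ X := h12.trans h2X
  have h0X : c0 ≤ X := h01.trans h1X
  have hsX : s ≤ X := hs0.trans h0X
  by_cases w2 : whole 3 c2
  · have hnw : ∃ m : Fin 3, ¬ whole m.castSucc c2 := by
      by_contra hcon
      push Not at hcon
      apply hne
      apply eq_X_of_whole h2X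
      intro m
      rcases Fin.eq_castSucc_or_eq_last m with ⟨k, rfl⟩ | hm
      · exact hcon k
      · rw [hm]; exact w2
    by_cases w1 : whole 3 c1
    · by_cases w0 : whole 3 c0
      · -- all whole
        have e1 : phi c0 c1 = phiYB (wv c0) (wv c1) := by simp [phi, w0, w1]
        have e2 : phi c0 c2 = phiYB (wv c0) (wv c2) := by simp [phi, w0, w2]
        have e3 : phi c1 c2 = phiYB (wv c1) (wv c2) := by simp [phi, w1, w2]
        rw [e1, e2, e3, fun3_eq (wv c0), fun3_eq (wv c1), fun3_eq (wv c2)]
        obtain ⟨k, hk⟩ := exists_whole hs hsX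
        have hk0 : wv c0 k = true := by simp [wv, whole_mono hs0 hk]
        obtain ⟨m, hm⟩ := hnw
        have hm2 : wv c2 m = false := by simp [wv, hm]
        refine caseA _ _ _ _ _ _ _ _ _ (wv_mono h01 _) (wv_mono h01 _) (wv_mono h01 _)
          (wv_mono h12 _) (wv_mono h12 _) (wv_mono h12 _) ?_ ?_
        · rcases fin3_cases k with rfl | rfl | rfl
          · exact Or.inl hk0
          · exact Or.inr (Or.inl hk0)
          · exact Or.inr (Or.inr hk0)
        · rcases fin3_cases m with rfl | rfl | rfl
          · exact Or.inl hm2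
          · exact Or.inr (Or.inl hm2)
          · exact Or.inr (Or.inr hm2)
      · -- split, whole, whole
        have e1 : phi c0 c1 = hB (av c1) (bv c1) := by simp [phi, w0, w1]
        have e2 : phi c0 c2 = hB (av c2) (bv c2) := by simp [phi, w0, w2]
        have e3 : phi c1 c2 = phiYB (wv c1) (wv c2) := by simp [phi, w1, w2]
        have ws : ¬ whole 3 s := fun h => w0 (whole_mono hs0 h)
        obtain ⟨i, j, k, hij, hik, hjk, hst⟩ := structure_split hs hsX ws
        have key : ∀ c : Setoid (Fin 25), s ≤ c → c ≤ X →
            av c = (fun m => decide (m = i) && !(wv c i)) ∧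
            bv c = (fun m => decide (m = j) && !(wv c j)) ∧
            wv c = (fun m => if m = i then wv c i else if m = j then wv c j else true) := by
          intro c hsc hcX
          obtain ⟨g1, g2, g3⟩ := hst c hsc hcX
          refine ⟨?_, ?_, ?_⟩
          · funext m
            unfold av wv
            by_cases h : m = i
            · by_cases h' : whole i.castSucc c
              · have : ¬ has5 m c := fun hh => ((g2 m).1 hh).2 h'
                simp [this, h']
              · have : has5 m c := (g2 m).2 ⟨h, h'⟩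
                rw [decide_eq_true this, decide_eq_true h, decide_eq_false h']
                rfl
            · have : ¬ has5 m c := fun hh => h ((g2 m).1 hh).1
              simp [this, h]
          · funext m
            unfold bv wv
            by_cases h : m = j
            · by_cases h' : whole j.castSucc c
              · have : ¬ has4 m c := fun hh => ((g3 m).1 hh).2 h'
                simp [this, h']
              · have : has4 m c := (g3 m).2 ⟨h, h'⟩
                rw [decide_eq_true this, decide_eq_true h, decide_eq_false h']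
                rfl
            · have : ¬ has4 m c := fun hh => h ((g3 m).1 hh).1
              simp [this, h]
          · funext m
            by_cases h : m = i
            · rw [if_pos h, h]
            · rw [if_neg h]
              by_cases h' : m = j
              · rw [if_pos h', h']
              · rw [if_neg h']
                have hmk : m = k := fin3_third i j k m hij hik hjk h h'
                rw [hmk]
                simp [wv, g1]
        have hs1 : s ≤ c1 := hs0.trans h01
        have hs2 : s ≤ c2 := hs1.trans h12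
        obtain ⟨a1, a2, a3⟩ := key c1 hs1 h1X
        obtain ⟨b1, b2, b3⟩ := key c2 hs2 h2X
        have hfin := caseB i j k hij hik hjk (wv c1 i) (wv c1 j) (wv c2 i) (wv c2 j)
          (wv_mono h12 _) (wv_mono h12 _) (by
            rintro ⟨g1, g2⟩
            obtain ⟨m, hm⟩ := hnw
            have hm2 : wv c2 m = false := by simp [wv, hm]
            have hm3 : wv c2 m = if m = i then wv c2 i else if m = j then wv c2 j else true :=
              congrFun b3 m
            rw [hm2, g1, g2] at hm3
            split_ifs at hm3)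
        rw [← a1, ← a2, ← a3, ← b1, ← b2, ← b3] at hfin
        rw [e1, e2, e3]
        exact hfin
    · -- split, split, whole
      have w0 : ¬ whole 3 c0 := fun h => w1 (whole_mono h01 h)
      have e1 : phi c0 c1 = 0 := by simp [phi, w1]
      have e2 : phi c0 c2 = hB (av c2) (bv c2) := by simp [phi, w0, w2]
      have e3 : phi c1 c2 = hB (av c2) (bv c2) := by simp [phi, w1, w2]
      rw [e1, e2, e3, zero_add]
      exact zmod2_add_self _
  · have w1 : ¬ whole 3 c1 := fun h => w2 (whole_mono h12 h)
    have e1 : phi c0 c1 = 0 := by simp [phi, w1]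
    have e2 : phi c0 c2 = 0 := by simp [phi, w2]
    have e3 : phi c1 c2 = 0 := by simp [phi, w2]
    rw [e1, e2, e3]
    rfl

end

end Pool.Agent.Helper663.Orb
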