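import Mathlib
import Pool.Agent.Helper663.OrbAlg

/-! # Supports of chains, and passage to the simplicial chain complex -/

namespace Pool.Agent.Helper663.Orb

open Finsupp

section Supp

variable {α β : Type*}

/-- strictly increasing lists of length `k` with entries satisfying `A` -/
def W (R : α → α → Prop) (A : α → Prop) (k : ℕ) : Set (List α) :=
  {l | l.length = k ∧ l.Pairwise R ∧ ∀ a ∈ l, A a}

theorem linComb_mem {S : Set (List α)} {S' : Set (List β)} {F : List α → FL β}
    (h : ∀ l ∈ S, F l ∈ supported ℤ ℤ S') {x : FL α} (hx : x ∈ supported ℤ ℤ S) :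
    linearCombination ℤ F x ∈ supported ℤ ℤ S' := by
  rw [linearCombination_apply]
  refine Submodule.sum_mem _ fun l hl => Submodule.smul_mem _ _ (h l ?_)
  exact (mem_supported ℤ x).1 hx hl

theorem single_mem {S : Set (List α)} {l : List α} (h : l ∈ S) (c : ℤ) :
    (single l c : FL α) ∈ supported ℤ ℤ S := by
  rw [mem_supported]
  intro m hm
  have := Finsupp.support_single_subset hm
  rw [Finset.mem_singleton] at this
  rw [this]; exact h

theorem mp_supp {R : α → α → Prop} {R' : β → β → Prop} {A : α → Prop} {A' : β → Prop} {k : ℕ}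
    {f : α → β} (h1 : ∀ a b, A a → A b → R a b → R' (f a) (f b)) (h2 : ∀ a, A a → A' (f a))
    {x : FL α} (hx : x ∈ supported ℤ ℤ (W R A k)) : mp f x ∈ supported ℤ ℤ (W R' A' k) := by
  have : mp f x = linearCombination ℤ (fun l => (single (l.map f) 1 : FL β)) x := by
    induction x using Finsupp.induction_linear with
    | zero => simp
    | add x y hx hy =>
      have e : ∀ z : FL α, mp f z = linearCombination ℤ (fun l => (single (l.map f) 1 : FL β)) z := by
        intro z
        have : (mp f : FL α →ₗ[ℤ] FL β) =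
          linearCombination ℤ (fun l => (single (l.map f) 1 : FL β)) := by
          ext l; simp
        rw [this]
      exact e _
    | single l c => simp
  rw [this]
  refine linComb_mem (fun l hl => single_mem ?_ 1) hx
  obtain ⟨e, hp, hA⟩ := hl
  refine ⟨by rw [List.length_map, e], ?_, ?_⟩
  · rw [List.pairwise_map]
    exact List.Pairwise.imp_of_mem (fun {a b} ha hb hab => h1 a b (hA a ha) (hA b hb) hab) hp
  · intro a ha
    obtain ⟨b, hb, rfl⟩ := List.mem_map.1 ha
    exact h2 b (hA b hb)

theorem consL_mem {S : Set (List α)} {S' : Set (List α)} {a : α}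
    (h : ∀ l ∈ S, a :: l ∈ S') {x : FL α} (hx : x ∈ supported ℤ ℤ S) :
    consL a x ∈ supported ℤ ℤ S' := by
  have : (consL a : FL α →ₗ[ℤ] FL α) = linearCombination ℤ (fun l => (single (a :: l) 1 : FL α)) := by
    ext l; simp
  rw [this]
  exact linComb_mem (fun l hl => single_mem (h l hl) 1) hx

theorem prL_supp {R : α → α → Prop} (tr : ∀ a b c, R a b → R b c → R a c) {A : α → Prop}
    {f : α → α} (h1 : ∀ a, A a → R a (f a)) (h2 : ∀ a b, A a → A b → R a b → R (f a) (f b))
    (l : List α) (hl : l.Pairwise R) (hA : ∀ a ∈ l, A a) :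
    prL f l ∈ supported ℤ ℤ {m | m.length = l.length + 1 ∧ m.Pairwise R ∧
      ∀ u ∈ m, ∃ b ∈ l, u = b ∨ u = f b} := by
  induction l with
  | nil => simp only [prL]; exact Submodule.zero_mem _
  | cons a l ih =>
    rw [List.pairwise_cons] at hl
    have hAl : ∀ b ∈ l, A b := fun b hb => hA b (List.mem_cons_of_mem _ hb)
    have hAa : A a := hA a List.mem_cons_self
    have ih' := ih hl.2 hAl
    rw [prL]
    refine Submodule.sub_mem _ (single_mem ?_ 1) (consL_mem ?_ ih')
    · refine ⟨by simp, ?_, ?_⟩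
      · rw [List.pairwise_cons, List.pairwise_cons]
        refine ⟨?_, ?_, ?_⟩
        · intro b hb
          rcases List.mem_cons.1 hb with rfl | hb
          · exact h1 a hAa
          · obtain ⟨c, hc, rfl⟩ := List.mem_map.1 hb
            exact tr _ _ _ (hl.1 c hc) (h1 c (hAl c hc))
        · intro b hb
          obtain ⟨c, hc, rfl⟩ := List.mem_map.1 hb
          exact h2 a c hAa (hAl c hc) (hl.1 c hc)
        · rw [List.pairwise_map]
          exact List.Pairwise.imp_of_mem (fun {b c} hb hc hbc => h2 b c (hAl b hb) (hAl c hc) hbc)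
            hl.2
      · intro u hu
        rcases List.mem_cons.1 hu with rfl | hu
        · exact ⟨u, List.mem_cons_self, Or.inl rfl⟩
        · rcases List.mem_cons.1 hu with rfl | hu
          · exact ⟨a, List.mem_cons_self, Or.inr rfl⟩
          · obtain ⟨c, hc, rfl⟩ := List.mem_map.1 hu
            exact ⟨c, List.mem_cons_of_mem _ hc, Or.inr rfl⟩
    · rintro m ⟨e, hm, hu⟩
      refine ⟨by simp [e], ?_, ?_⟩
      · rw [List.pairwise_cons]
        refine ⟨?_, hm⟩
        intro u hu'
        obtain ⟨b, hb, rfl | rfl⟩ := hu u hu'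
        · exact hl.1 _ hb
        · exact tr _ _ _ (hl.1 b hb) (h1 b (hAl b hb))
      · intro u hu'
        rcases List.mem_cons.1 hu' with rfl | hu'
        · exact ⟨u, List.mem_cons_self, Or.inl rfl⟩
        · obtain ⟨b, hb, h⟩ := hu u hu'
          exact ⟨b, List.mem_cons_of_mem _ hb, h⟩

theorem pr_supp {R : α → α → Prop} (tr : ∀ a b c, R a b → R b c → R a c) {A A' : α → Prop}
    {f : α → α} (h1 : ∀ a, A a → R a (f a)) (h2 : ∀ a b, A a → A b → R a b → R (f a) (f b))
    (h3 : ∀ a, A a → A' a) (h4 : ∀ a, A a → A' (f a)) {k : ℕ} {x : FL α}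
    (hx : x ∈ supported ℤ ℤ (W R A k)) : pr f x ∈ supported ℤ ℤ (W R A' (k + 1)) := by
  refine linComb_mem (fun l hl => ?_) hx
  obtain ⟨e, hp, hA⟩ := hl
  refine supported_mono ?_ (prL_supp tr h1 h2 l hp hA)
  rintro m ⟨e', hm, hu⟩
  refine ⟨by rw [e', e], hm, ?_⟩
  intro u hu'
  obtain ⟨b, hb, rfl | rfl⟩ := hu u hu'
  · exact h3 _ (hA _ hb)
  · exact h4 _ (hA _ hb)

theorem Eo_supp {R : α → α → Prop} (tr : ∀ a b c, R a b → R b c → R a c) {A A' : α → Prop}
    {f g : α → α} (h1 : ∀ a, A a → R a (f a)) (h2 : ∀ a b, A a → A b → R a b → R (f a) (f b))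
    (h3 : ∀ a, A a → A' a) (h4 : ∀ a, A a → A' (f a)) (h5 : ∀ a b, R a b → R (g a) (g b))
    (h6 : ∀ a, A' a → A' (g a)) {k : ℕ} {x : FL α}
    (hx : x ∈ supported ℤ ℤ (W R A k)) : Eo f g x ∈ supported ℤ ℤ (W R A' (k + 1)) := by
  have hp := pr_supp tr h1 h2 h3 h4 hx
  have : Eo f g x = pr f x - mp g (pr f x) := rfl
  rw [this]
  exact Submodule.sub_mem _ hp (mp_supp (fun a b _ _ => h5 a b) h6 hp)

theorem Gm_supp {R : α → α → Prop} {A : α → Prop} {g : Fin 3 → α → α} {i : Fin 3}
    (h5 : ∀ a b, R a b → R (g i a) (g i b)) (h6 : ∀ a, A a → A (g i a)) {k : ℕ} {x : FL α}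
    (hx : x ∈ supported ℤ ℤ (W R A k)) : Gm g i x ∈ supported ℤ ℤ (W R A k) := by
  have : Gm g i x = mp (g i) x - x := rfl
  rw [this]
  exact Submodule.sub_mem _ (mp_supp (fun a b _ _ => h5 a b) h6 hx) hx

end Supp

section Simplicial

variable {P : Type} [PartialOrder P]

open Classical in
/-- a strictly increasing list of length `k` as a simplex -/
noncomputable def toS (k : ℕ) (l : List P) : Simplex P k →₀ ℤ :=
  if h : l.length = k ∧ l.Pairwise (· < ·) then single ⟨l, h⟩ 1 else 0

noncomputable def Nk (k : ℕ) : FL P →ₗ[ℤ] (Simplex P k →₀ ℤ) := linearCombination ℤ (toS k)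

@[simp] theorem Nk_single (k : ℕ) (l : List P) (c : ℤ) : Nk k (single l c) = c • toS k l := by
  simp [Nk]

theorem bdL_eq {α : Type*} (l : List α) :
    bdL l = ∑ i ∈ Finset.range l.length, (-1 : ℤ) ^ i • single (l.eraseIdx i) (1 : ℤ) := by
  induction l with
  | nil => simp [bdL]
  | cons a l ih =>
    rw [bdL, List.length_cons, Finset.sum_range_succ', ih, map_sum]
    simp only [List.eraseIdx_cons_succ, List.eraseIdx_cons_zero, pow_zero, one_smul, pow_succ]
    rw [add_comm, sub_eq_add_neg]
    congr 1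
    rw [← Finset.sum_neg_distrib]
    refine Finset.sum_congr rfl fun i _ => ?_
    rw [map_smul, consL_single]
    simp

theorem boundary_toS (k : ℕ) (l : List P) (h : l.length = k + 1 ∧ l.Pairwise (· < ·)) :
    boundary P k (toS (k + 1) l) = Nk k (bdL l) := by
  rw [toS, dif_pos h, boundary, linearCombination_single, one_smul, bdL_eq, map_sum, h.1,
    ← Fin.sum_univ_eq_sum_range (fun i => Nk k ((-1 : ℤ) ^ i • single (l.eraseIdx i) (1 : ℤ)))]
  refine Finset.sum_congr rfl fun i _ => ?_
  have hf : (l.eraseIdx i).length = k ∧ (l.eraseIdx i).Pairwise (· < ·) :=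
    (face (⟨l, h⟩ : Simplex P (k + 1)) i).2
  rw [map_smul, Nk_single, one_smul, toS, dif_pos hf]
  rfl

theorem boundary_Nk (k : ℕ) {A : P → Prop} {x : FL P}
    (hx : x ∈ supported ℤ ℤ (W (· < ·) A (k + 1))) :
    boundary P k (Nk (k + 1) x) = Nk k (bd x) := by
  have e : x = x.sum fun l c => c • single l (1 : ℤ) := by
    conv_lhs => rw [← Finsupp.sum_single x]
    refine Finset.sum_congr rfl fun l _ => ?_
    simp
  rw [e]
  simp only [Finsupp.sum, map_sum, map_smul]
  refine Finset.sum_congr rfl fun l hl => ?_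
  have hl' := (mem_supported ℤ x).1 hx hl
  rw [Nk_single, one_smul, boundary_toS k l ⟨hl'.1, hl'.2.1⟩, bd_single, one_smul]

/-- sanity check: the composite of two boundary maps vanishes -/
theorem boundary_boundary (k : ℕ) (x : Simplex P (k + 2) →₀ ℤ) :
    boundary P k (boundary P (k + 1) x) = 0 := by
  have hW : ∀ l : List P, l.length = k + 2 → l.Pairwise (· < ·) →
      bdL l ∈ supported ℤ ℤ (W (· < ·) (fun _ : P => True) (k + 1)) := by
    intro l h1 h2
    rw [bdL_eq]
    refine Submodule.sum_mem _ fun i hi => Submodule.smul_mem _ _ (single_mem ?_ 1)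
    rw [Finset.mem_range] at hi
    refine ⟨?_, h2.sublist (List.eraseIdx_sublist _ _), fun _ _ => trivial⟩
    rw [List.length_eraseIdx_of_lt hi, h1]; rfl
  induction x using Finsupp.induction_linear with
  | zero => simp
  | add x y hx hy => simp [hx, hy]
  | single c n =>
    have h1 : (single c n : Simplex P (k + 2) →₀ ℤ) = n • toS (k + 2) c.1 := by
      rw [toS, dif_pos c.2]; simp
    rw [h1, map_smul, map_smul, boundary_toS (k + 1) c.1 c.2,
      boundary_Nk k (hW c.1 c.2.1 c.2.2)]
    have := bd_bd (single c.1 (1 : ℤ))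
    rw [bd_single, one_smul] at this
    rw [this]
    simp

end Simplicial

end Pool.Agent.Helper663.Orb
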