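import Mathlib
import Pool.Agent.Helper663.OrbSupp

/-! # A triangulated projective plane: a one-cycle and a two-chain with twice the cycle as boundary -/

namespace Pool.Agent.Helper663.Orb

/-- the one-cycle -/
def zS : List (ℤ × List ℕ) :=
  [(-1, [87, 95]), (1, [87, 119]), (1, [93, 95]), (-1, [93, 125]), (-1, [117, 119]),
   (1, [117, 125])]

/-- the two-chain: all triangles of the projective plane -/
def bS : List (ℤ × List ℕ) :=
  [(-1, [23, 31, 63]), (1, [23, 31, 95]), (1, [23, 55, 63]), (-1, [23, 55, 119]),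
   (-1, [23, 87, 95]), (1, [23, 87, 119]), (1, [29, 31, 63]), (-1, [29, 31, 95]),
   (-1, [29, 61, 63]), (1, [29, 61, 125]), (1, [29, 93, 95]), (-1, [29, 93, 125]),
   (-1, [54, 55, 63]), (1, [54, 55, 119]), (1, [54, 62, 63]), (-1, [54, 62, 126]),
   (-1, [54, 118, 119]), (1, [54, 118, 126]), (1, [60, 61, 63]), (-1, [60, 61, 125]),
   (-1, [60, 62, 63]), (1, [60, 62, 126]), (1, [60, 124, 125]), (-1, [60, 124, 126]),
   (1, [71, 79, 95]), (-1, [71, 79, 111]), (-1, [71, 87, 95]), (1, [71, 87, 119]),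
   (1, [71, 103, 111]), (-1, [71, 103, 119]), (-1, [78, 79, 95]), (1, [78, 79, 111]),
   (1, [78, 94, 95]), (-1, [78, 94, 126]), (-1, [78, 110, 111]), (1, [78, 110, 126]),
   (-1, [89, 91, 95]), (1, [89, 91, 123]), (1, [89, 93, 95]), (-1, [89, 93, 125]),
   (-1, [89, 121, 123]), (1, [89, 121, 125]), (1, [90, 91, 95]), (-1, [90, 91, 123]),
   (-1, [90, 94, 95]), (1, [90, 94, 126]), (1, [90, 122, 123]), (-1, [90, 122, 126]),
   (-1, [101, 103, 111]), (1, [101, 103, 119]), (1, [101, 109, 111]), (-1, [101, 109, 125]),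
   (-1, [101, 117, 119]), (1, [101, 117, 125]), (-1, [108, 109, 111]), (1, [108, 109, 125]),
   (1, [108, 110, 111]), (-1, [108, 110, 126]), (-1, [108, 124, 125]), (1, [108, 124, 126]),
   (1, [113, 115, 119]), (-1, [113, 115, 123]), (-1, [113, 117, 119]), (1, [113, 117, 125]),
   (1, [113, 121, 123]), (-1, [113, 121, 125]), (-1, [114, 115, 119]), (1, [114, 115, 123]),
   (1, [114, 118, 119]), (-1, [114, 118, 126]), (-1, [114, 122, 123]), (1, [114, 122, 126])]

end Pool.Agent.Helper663.Orb
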