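import Mathlib
import Pool.Agent.Helper663.OrbData
import Pool.Agent.Helper663.OrbShape

/-! # The cycle and the chain, on the level of codes -/

namespace Pool.Agent.Helper663.Orb

open Finsupp

section ToF

variable {α β : Type*}

/-- a formal combination given by a list -/
noncomputable def toF (S : List (ℤ × List α)) : FL α := (S.map fun p => single p.2 p.1).sum

theorem toF_nil : toF ([] : List (ℤ × List α)) = 0 := rfl

theorem toF_cons (p : ℤ × List α) (S : List (ℤ × List α)) :
    toF (p :: S) = single p.2 p.1 + toF S := by
  simp [toF]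

theorem toF_append (S T : List (ℤ × List α)) : toF (S ++ T) = toF S + toF T := by
  simp [toF]

theorem mp_toF (f : α → β) (S : List (ℤ × List α)) :
    mp f (toF S) = toF (S.map fun p => (p.1, p.2.map f)) := by
  induction S with
  | nil => simp [toF_nil]
  | cons p S ih => rw [toF_cons, map_add, ih, List.map_cons, toF_cons, mp_single]

theorem toF_mem {S : List (ℤ × List α)} {T : Set (List α)} (h : ∀ p ∈ S, p.2 ∈ T) :
    toF S ∈ supported ℤ ℤ T := by
  induction S with
  | nil => rw [toF_nil]; exact Submodule.zero_mem _
  | cons p S ih =>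
    rw [toF_cons]
    exact Submodule.add_mem _ (single_mem (h p List.mem_cons_self) _)
      (ih fun q hq => h q (List.mem_cons_of_mem _ hq))

/-- append a last element -/
noncomputable def apx (x : α) : FL α →ₗ[ℤ] FL α := Finsupp.lmapDomain ℤ ℤ (· ++ [x])

@[simp] theorem apx_single (x : α) (l : List α) (c : ℤ) :
    apx x (single l c) = single (l ++ [x]) c := by
  simp [apx]

theorem apx_consL (x a : α) (y : FL α) : apx x (consL a y) = consL a (apx x y) := by
  induction y using Finsupp.induction_linear with
  | zero => simp
  | add x y hx hy => simp [hx, hy]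
  | single l c => simp

theorem bdL_append (l : List α) (x : α) :
    bdL (l ++ [x]) = apx x (bdL l) + (-1 : ℤ) ^ l.length • single l (1 : ℤ) := by
  induction l with
  | nil => simp [bdL]
  | cons a l ih =>
    rw [List.cons_append, bdL, ih, bdL, map_sub, map_add, apx_single, apx_consL, map_smul,
      consL_single, List.length_cons, pow_succ]
    rw [mul_neg_one, neg_smul]
    abel

theorem bd_apx {k : ℕ} {T : Set (List α)} (hT : ∀ l ∈ T, l.length = k) (x : α) {y : FL α}
    (hy : y ∈ supported ℤ ℤ T) : bd (apx x y) = apx x (bd y) + (-1 : ℤ) ^ k • y := by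
  have e : y = y.sum fun l c => c • single l (1 : ℤ) := by
    conv_lhs => rw [← Finsupp.sum_single y]
    refine Finset.sum_congr rfl fun l _ => ?_
    simp
  have h : ∀ l ∈ y.support, bd (apx x (single l (1 : ℤ))) =
      apx x (bd (single l (1 : ℤ))) + (-1 : ℤ) ^ k • single l (1 : ℤ) := by
    intro l hl
    have hk := hT l ((mem_supported ℤ y).1 hy hl)
    rw [apx_single, bd_single, bd_single, one_smul, one_smul, bdL_append, hk]
  rw [e]
  simp only [Finsupp.sum, map_sum, map_smul, Finset.smul_sum]
  rw [← Finset.sum_add_distrib]
  refine Finset.sum_congr rfl fun l hl => ?_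
  rw [h l hl, smul_add, smul_comm]

/-- the coefficient of a list -/
def coef [DecidableEq α] (S : List (ℤ × List α)) (l : List α) : ℤ :=
  (S.map fun p => if p.2 = l then p.1 else 0).sum

theorem toF_apply [DecidableEq α] (S : List (ℤ × List α)) (l : List α) :
    toF S l = coef S l := by
  induction S with
  | nil => rfl
  | cons p S ih =>
    rw [toF_cons, Finsupp.add_apply, ih, Finsupp.single_apply]
    simp [coef]

theorem coef_eq_zero [DecidableEq α] {S : List (ℤ × List α)} {l : List α}
    (h : ∀ p ∈ S, p.2 ≠ l) : coef S l = 0 := by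
  induction S with
  | nil => rfl
  | cons p S ih =>
    have h1 := h p List.mem_cons_self
    have h2 := ih fun q hq => h q (List.mem_cons_of_mem _ hq)
    unfold coef at h2 ⊢
    rw [List.map_cons, List.sum_cons, if_neg h1, h2, zero_add]

theorem toF_eq [DecidableEq α] {S T : List (ℤ × List α)}
    (h : ∀ p ∈ S ++ T, coef S p.2 = coef T p.2) : toF S = toF T := by
  ext l
  rw [toF_apply, toF_apply]
  by_cases hl : ∃ p ∈ S ++ T, p.2 = l
  · obtain ⟨p, hp, rfl⟩ := hl
    exact h p hp
  · push Not at hl
    rw [coef_eq_zero fun p hp => hl p (List.mem_append_left _ hp),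
      coef_eq_zero fun p hp => hl p (List.mem_append_right _ hp)]

/-- the boundary of a formal combination given by a list -/
def bdS (S : List (ℤ × List α)) : List (ℤ × List α) :=
  S.flatMap fun p => (List.range p.2.length).map fun i => ((-1) ^ i * p.1, p.2.eraseIdx i)

theorem sum_range_list {M : Type*} [AddCommMonoid M] (n : ℕ) (f : ℕ → M) :
    ∑ i ∈ Finset.range n, f i = ((List.range n).map f).sum := by
  induction n with
  | zero => simp
  | succ n ih => rw [Finset.sum_range_succ, ih, List.range_succ]; simp

theorem bd_toF (S : List (ℤ × List α)) : bd (toF S) = toF (bdS S) := by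
  induction S with
  | nil => simp [toF_nil, bdS]
  | cons p S ih =>
    have h1 : bdS (p :: S) = ((List.range p.2.length).map fun i =>
      ((-1) ^ i * p.1, p.2.eraseIdx i)) ++ bdS S := by simp [bdS]
    rw [toF_cons, map_add, ih, h1, toF_append]
    congr 1
    rw [bd_single, bdL_eq, Finset.smul_sum, toF, List.map_map, sum_range_list]
    congr 1
    refine List.map_congr_left fun i _ => ?_
    simp [mul_comm]

end ToF

/-- test that the formal combinations given by two lists agree -/
def eqS (S T : List (ℤ × List ℕ)) : Bool :=
  (S ++ T).all fun p => decide (coef S p.2 = coef T p.2)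

theorem eqS_spec {S T : List (ℤ × List ℕ)} (h : eqS S T = true) : toF S = toF T := by
  refine toF_eq fun p hp => ?_
  have := List.all_eq_true.1 h p hp
  exact of_decide_eq_true this

theorem bd_zS : bd (toF zS) = 0 := by
  rw [bd_toF]
  exact eqS_spec (T := []) (by decide +kernel)

theorem bd_bS : bd (toF bS) = (2 : ℤ) • toF zS := by
  have h : (2 : ℤ) • toF zS = toF (zS ++ zS) := by
    rw [toF_append, two_smul]
  rw [bd_toF, h]
  exact eqS_spec (by decide +kernel)

end Pool.Agent.Helper663.Orb
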