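import Mathlib
import Pool.Agent.Helper663.OrbCycle
import Pool.Agent.Helper663.OrbCocycle

/-! # The operators on codes, and the supports of the cycle and of the chain -/

namespace Pool.Agent.Helper663.Orb

open Finsupp

/-- merge along the connection number `i` -/
def fJ (i : Fin 3) (r : Al) : Al :=
  cond (Nat.beq i.val 0)
    (r.1, r.2.1, r.2.2.1, r.2.2.2.1, 2, r.2.2.2.2.2.1, r.2.2.2.2.2.2)
    (cond (Nat.beq i.val 1)
      (r.1, r.2.1, r.2.2.1, r.2.2.2.1, r.2.2.2.2.1, 2, r.2.2.2.2.2.2)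
      (r.1, r.2.1, r.2.2.1, r.2.2.2.1, r.2.2.2.2.1, r.2.2.2.2.2.1, 2))

/-- exchange the states `0` and `1` -/
def sw01 (t : Fin 3) : Fin 3 := cond (Nat.beq t.val 0) 1 (cond (Nat.beq t.val 1) 0 2)

/-- apply the transposition number `i` -/
def gG (i : Fin 3) (r : Al) : Al :=
  cond (Nat.beq i.val 0)
    (r.1, r.2.1, r.2.2.1, r.2.2.2.1, sw01 r.2.2.2.2.1, r.2.2.2.2.2.1, r.2.2.2.2.2.2)
    (cond (Nat.beq i.val 1)
      (r.1, r.2.1, r.2.2.1, r.2.2.2.1, r.2.2.2.2.1, sw01 r.2.2.2.2.2.1, r.2.2.2.2.2.2)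
      (r.1, r.2.1, r.2.2.1, r.2.2.2.1, r.2.2.2.2.1, r.2.2.2.2.2.1, sw01 r.2.2.2.2.2.2))

/-- the state number `i` -/
def stt (i : Fin 3) (r : Al) : Fin 3 :=
  cond (Nat.beq i.val 0) r.2.2.2.2.1 (cond (Nat.beq i.val 1) r.2.2.2.2.2.1 r.2.2.2.2.2.2)

theorem gG_fJ (i : Fin 3) (r : Al) : gG i (fJ i r) = fJ i r := by
  rcases fin3_cases i with rfl | rfl | rfl <;> rfl

theorem tle_sw : ∀ s t : Fin 3, tle (sw01 s) (sw01 t) ↔ tle s t := by decide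

theorem tle_two : ∀ s : Fin 3, tle s 2 := by decide

theorem tle_eq : ∀ s t : Fin 3, s ≠ 2 → t ≠ 2 → tle s t → tle t s := by decide

theorem not_tle_two : ∀ s : Fin 3, s ≠ 2 → ¬ tle 2 s := by decide

theorem sw01_ne : ∀ s : Fin 3, s ≠ 2 → sw01 s ≠ 2 := by decide

theorem alt_fJ {i : Fin 3} {a : Al} (h : stt i a ≠ 2) : alt a (fJ i a) := by
  rcases fin3_cases i with rfl | rfl | rfl
  · exact ⟨⟨(ale_refl a).1, tle_two _, tle_refl _, tle_refl _⟩,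
      fun hh => not_tle_two _ h hh.2.1⟩
  · exact ⟨⟨(ale_refl a).1, tle_refl _, tle_two _, tle_refl _⟩,
      fun hh => not_tle_two _ h hh.2.2.1⟩
  · exact ⟨⟨(ale_refl a).1, tle_refl _, tle_refl _, tle_two _⟩,
      fun hh => not_tle_two _ h hh.2.2.2⟩

theorem alt_fJ_fJ {i : Fin 3} {a b : Al} (ha : stt i a ≠ 2) (hb : stt i b ≠ 2) (h : alt a b) :
    alt (fJ i a) (fJ i b) := by
  obtain ⟨⟨h0, h1, h2, h3⟩, hn⟩ := h
  rcases fin3_cases i with rfl | rfl | rfl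
  · exact ⟨⟨h0, tle_refl _, h2, h3⟩, fun hh =>
      hn ⟨hh.1, tle_eq _ _ ha hb h1, hh.2.2.1, hh.2.2.2⟩⟩
  · exact ⟨⟨h0, h1, tle_refl _, h3⟩, fun hh =>
      hn ⟨hh.1, hh.2.1, tle_eq _ _ ha hb h2, hh.2.2.2⟩⟩
  · exact ⟨⟨h0, h1, h2, tle_refl _⟩, fun hh =>
      hn ⟨hh.1, hh.2.1, hh.2.2.1, tle_eq _ _ ha hb h3⟩⟩

theorem alt_gG {i : Fin 3} {a b : Al} (h : alt a b) : alt (gG i a) (gG i b) := by
  obtain ⟨⟨h0, h1, h2, h3⟩, hn⟩ := h
  rcases fin3_cases i with rfl | rfl | rfl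
  · exact ⟨⟨h0, (tle_sw _ _).2 h1, h2, h3⟩, fun hh =>
      hn ⟨hh.1, (tle_sw _ _).1 hh.2.1, hh.2.2.1, hh.2.2.2⟩⟩
  · exact ⟨⟨h0, h1, (tle_sw _ _).2 h2, h3⟩, fun hh =>
      hn ⟨hh.1, hh.2.1, (tle_sw _ _).1 hh.2.2.1, hh.2.2.2⟩⟩
  · exact ⟨⟨h0, h1, h2, (tle_sw _ _).2 h3⟩, fun hh =>
      hn ⟨hh.1, hh.2.1, hh.2.2.1, (tle_sw _ _).1 hh.2.2.2⟩⟩

/-- a property of codes which depends on the contents only -/
def ContProp (B : Al → Prop) : Prop :=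
  (∀ i a, B a → B (fJ i a)) ∧ (∀ i a, B a → B (gG i a))

theorem stt_fJ {i j : Fin 3} (hij : i ≠ j) {a : Al} (h : stt j a ≠ 2) : stt j (fJ i a) ≠ 2 := by
  rcases fin3_cases i with rfl | rfl | rfl <;> rcases fin3_cases j with rfl | rfl | rfl <;>
    first
    | exact absurd rfl hij
    | exact h

theorem stt_gG {i j : Fin 3} {a : Al} (h : stt j a ≠ 2) : stt j (gG i a) ≠ 2 := by
  rcases fin3_cases i with rfl | rfl | rfl <;> rcases fin3_cases j with rfl | rfl | rfl <;>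
    first
    | exact h
    | exact sw01_ne _ h

section Supports

variable {B : Al → Prop} (hB : ContProp B)

include hB

/-- one operator `E_i`: it uses that the state `i` is not `2`, and it keeps the other
conditions -/
theorem Eo_step {i : Fin 3} {C C' : Al → Prop}
    (hC : ∀ a, C a → stt i a ≠ 2) (h1 : ∀ a, C a → C' a) (h2 : ∀ a, C a → C' (fJ i a))
    (h3 : ∀ a, C' a → C' (gG i a)) {k : ℕ} {x : FL Al}
    (hx : x ∈ supported ℤ ℤ (W alt (fun a => B a ∧ C a) k)) :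
    Eo (fJ i) (gG i) x ∈ supported ℤ ℤ (W alt (fun a => B a ∧ C' a) (k + 1)) := by
  refine Eo_supp alt_trans (fun a ha => alt_fJ (hC a ha.2))
    (fun _ _ ha hb hab => alt_fJ_fJ (hC _ ha.2) (hC _ hb.2) hab)
    (fun a ha => ⟨ha.1, h1 a ha.2⟩) (fun a ha => ⟨hB.1 i a ha.1, h2 a ha.2⟩)
    (fun _ _ hab => alt_gG hab) (fun a ha => ⟨hB.2 i a ha.1, h3 a ha.2⟩) hx

theorem Gm_step {i : Fin 3} {C : Al → Prop} (h3 : ∀ a, C a → C (gG i a)) {k : ℕ} {x : FL Al}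
    (hx : x ∈ supported ℤ ℤ (W alt (fun a => B a ∧ C a) k)) :
    Gm gG i x ∈ supported ℤ ℤ (W alt (fun a => B a ∧ C a) k) :=
  Gm_supp (fun _ _ hab => alt_gG hab) (fun a ha => ⟨hB.2 i a ha.1, h3 a ha.2⟩) hx

/-- all three states differ from `2` -/
def S012 (a : Al) : Prop := stt 0 a ≠ 2 ∧ stt 1 a ≠ 2 ∧ stt 2 a ≠ 2

theorem To_supp {k : ℕ} {x : FL Al} (hx : x ∈ supported ℤ ℤ (W alt (fun a => B a ∧ S012 a) k)) :
    To fJ gG x ∈ supported ℤ ℤ (W alt (fun a => B a ∧ True) (k + 3)) := by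
  have s1 := Eo_step hB (i := 2) (C' := fun a => stt 0 a ≠ 2 ∧ stt 1 a ≠ 2)
    (fun a ha => ha.2.2) (fun a ha => ⟨ha.1, ha.2.1⟩)
    (fun a ha => ⟨stt_fJ (by decide) ha.1, stt_fJ (by decide) ha.2.1⟩)
    (fun a ha => ⟨stt_gG ha.1, stt_gG ha.2⟩) hx
  have s2 := Eo_step hB (i := 1) (C' := fun a => stt 0 a ≠ 2)
    (fun a ha => ha.2) (fun a ha => ha.1)
    (fun a ha => stt_fJ (by decide) ha.1) (fun a ha => stt_gG ha) s1
  exact Eo_step hB (i := 0) (C' := fun _ => True)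
    (fun a ha => ha) (fun a ha => trivial) (fun a ha => trivial) (fun a ha => trivial) s2

/-- some state differs from `2` -/
def Some2 (a : Al) : Prop := stt 0 a ≠ 2 ∨ stt 1 a ≠ 2 ∨ stt 2 a ≠ 2

theorem Ko_supp {k : ℕ} {x : FL Al} (hx : x ∈ supported ℤ ℤ (W alt (fun a => B a ∧ S012 a) k)) :
    Ko fJ gG x ∈ supported ℤ ℤ (W alt (fun a => B a ∧ Some2 a) (k + 2)) := by
  have s1 := Eo_step hB (i := 2) (C' := fun a => stt 0 a ≠ 2 ∧ stt 1 a ≠ 2)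
    (fun a ha => ha.2.2) (fun a ha => ⟨ha.1, ha.2.1⟩)
    (fun a ha => ⟨stt_fJ (by decide) ha.1, stt_fJ (by decide) ha.2.1⟩)
    (fun a ha => ⟨stt_gG ha.1, stt_gG ha.2⟩) hx
  have s2 := Eo_step hB (i := 1) (C' := fun a => stt 0 a ≠ 2)
    (fun a ha => ha.2) (fun a ha => ha.1)
    (fun a ha => stt_fJ (by decide) ha.1) (fun a ha => stt_gG ha) s1
  have t1 := Gm_step hB (i := 0) (C := fun a => stt 0 a ≠ 2) (fun a ha => stt_gG ha) s2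
  have u1 := Gm_step hB (i := 1) (C := fun a => stt 0 a ≠ 2 ∧ stt 1 a ≠ 2)
    (fun a ha => ⟨stt_gG ha.1, stt_gG ha.2⟩) s1
  have t2 := Eo_step hB (i := 0) (C' := fun a => stt 1 a ≠ 2)
    (fun a ha => ha.1) (fun a ha => ha.2)
    (fun a ha => stt_fJ (by decide) ha.2) (fun a ha => stt_gG ha) u1
  have v1 := Gm_step hB (i := 2) (C := S012)
    (fun a ha => ⟨stt_gG ha.1, stt_gG ha.2.1, stt_gG ha.2.2⟩) hx
  have v2 := Eo_step hB (i := 1) (C' := fun a => stt 0 a ≠ 2 ∧ stt 2 a ≠ 2)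
    (fun a ha => ha.2.1) (fun a ha => ⟨ha.1, ha.2.2⟩)
    (fun a ha => ⟨stt_fJ (by decide) ha.1, stt_fJ (by decide) ha.2.2⟩)
    (fun a ha => ⟨stt_gG ha.1, stt_gG ha.2⟩) v1
  have t3 := Eo_step hB (i := 0) (C' := fun a => stt 2 a ≠ 2)
    (fun a ha => ha.1) (fun a ha => ha.2)
    (fun a ha => stt_fJ (by decide) ha.2) (fun a ha => stt_gG ha) v2
  have m1 : W alt (fun a => B a ∧ stt 0 a ≠ 2) (k + 1 + 1) ⊆ W alt (fun a => B a ∧ Some2 a) (k + 2) :=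
    fun l hl => ⟨hl.1, hl.2.1, fun a ha => ⟨(hl.2.2 a ha).1, Or.inl (hl.2.2 a ha).2⟩⟩
  have m2 : W alt (fun a => B a ∧ stt 1 a ≠ 2) (k + 1 + 1) ⊆ W alt (fun a => B a ∧ Some2 a) (k + 2) :=
    fun l hl => ⟨hl.1, hl.2.1, fun a ha => ⟨(hl.2.2 a ha).1, Or.inr (Or.inl (hl.2.2 a ha).2)⟩⟩
  have m3 : W alt (fun a => B a ∧ stt 2 a ≠ 2) (k + 1 + 1) ⊆ W alt (fun a => B a ∧ Some2 a) (k + 2) :=
    fun l hl => ⟨hl.1, hl.2.1, fun a ha => ⟨(hl.2.2 a ha).1, Or.inr (Or.inr (hl.2.2 a ha).2)⟩⟩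
  exact Submodule.add_mem _ (Submodule.sub_mem _ (supported_mono m1 t1) (supported_mono m2 t2))
    (supported_mono m3 t3)

end Supports

end Pool.Agent.Helper663.Orb
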