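import Mathlib
import Pool.Agent.Helper663.OrbOps

/-! # The torsion class -/

namespace Pool.Agent.Helper663.Orb

open Finsupp

def tleB (s t : Fin 3) : Bool := Nat.beq s.val t.val || Nat.beq t.val 2

theorem tleB_iff : ∀ s t : Fin 3, tleB s t = true ↔ tle s t := by decide

theorem leB_iff : ∀ a b : Bool, leB a b = true ↔ a ≤ b := by decide

def leAl (r s : Al) : Bool :=
  leB r.1.1 s.1.1 && (leB r.1.2 s.1.2 && (leB r.2.1.1 s.2.1.1 && (leB r.2.1.2 s.2.1.2 &&
    (leB r.2.2.1.1 s.2.2.1.1 && (leB r.2.2.1.2 s.2.2.1.2 && (leB r.2.2.2.1 s.2.2.2.1 &&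
      (tleB r.2.2.2.2.1 s.2.2.2.2.1 && (tleB r.2.2.2.2.2.1 s.2.2.2.2.2.1 &&
        tleB r.2.2.2.2.2.2 s.2.2.2.2.2.2))))))))

theorem leAl_iff (r s : Al) : leAl r s = true ↔ ale r s := by
  unfold leAl ale
  simp only [Bool.and_eq_true, leB_iff, tleB_iff, Prod.le_def]
  tauto

def ltAl (r s : Al) : Bool := leAl r s && !leAl s r

theorem ltAl_spec {r s : Al} (h : ltAl r s = true) : alt r s := by
  unfold ltAl at h
  rw [Bool.and_eq_true] at h
  refine ⟨(leAl_iff r s).1 h.1, fun hh => ?_⟩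
  rw [(leAl_iff s r).2 hh] at h
  exact absurd h.2 (by decide)

def pwB : List Al → Bool
  | [] => true
  | a :: l => l.all (fun b => ltAl a b) && pwB l

theorem pwB_spec : ∀ l : List Al, pwB l = true → l.Pairwise alt
  | [], _ => List.Pairwise.nil
  | a :: l, h => by
    unfold pwB at h
    rw [Bool.and_eq_true] at h
    exact List.Pairwise.cons (fun b hb => ltAl_spec (List.all_eq_true.1 h.1 b hb))
      (pwB_spec l h.2)

/-- contents of a code are all whole -/
def topC (r : Al) : Bool :=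
  r.1.1 && (r.1.2 && (r.2.1.1 && (r.2.1.2 && (r.2.2.1.1 && (r.2.2.1.2 && r.2.2.2.1)))))

def st0 (r : Al) : Bool :=
  Nat.beq r.2.2.2.2.1.val 0 && (Nat.beq r.2.2.2.2.2.1.val 0 && Nat.beq r.2.2.2.2.2.2.val 0)

theorem st0_spec {r : Al} (h : st0 r = true) : S012 r := by
  unfold st0 at h
  rw [Bool.and_eq_true, Bool.and_eq_true] at h
  have e0 : r.2.2.2.2.1 = 0 := Fin.ext (Nat.eq_of_beq_eq_true h.1)
  have e1 : r.2.2.2.2.2.1 = 0 := Fin.ext (Nat.eq_of_beq_eq_true h.2.1)
  have e2 : r.2.2.2.2.2.2 = 0 := Fin.ext (Nat.eq_of_beq_eq_true h.2.2)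
  refine ⟨?_, ?_, ?_⟩
  · show r.2.2.2.2.1 ≠ 2
    rw [e0]; decide
  · show r.2.2.2.2.2.1 ≠ 2
    rw [e1]; decide
  · show r.2.2.2.2.2.2 ≠ 2
    rw [e2]; decide

/-- decode a number -/
def dec7 (n : ℕ) : Al :=
  ((n.testBit 6, n.testBit 5), (n.testBit 4, n.testBit 3), (n.testBit 2, n.testBit 1),
    n.testBit 0, 0, 0, 0)

noncomputable def zA : FL Al := mp dec7 (toF zS)
noncomputable def bA : FL Al := mp dec7 (toF bS)
noncomputable def zx : FL Al := apx rX zA
noncomputable def bx : FL Al := apx rX bA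

theorem zA_eq : zA = toF (zS.map fun p => (p.1, p.2.map dec7)) := mp_toF _ _
theorem bA_eq : bA = toF (bS.map fun p => (p.1, p.2.map dec7)) := mp_toF _ _

theorem apx_toF {α : Type*} (x : α) (S : List (ℤ × List α)) :
    apx x (toF S) = toF (S.map fun p => (p.1, p.2 ++ [x])) := by
  induction S with
  | nil => simp [toF_nil]
  | cons p S ih => rw [toF_cons, map_add, ih, List.map_cons, toF_cons, apx_single]

theorem zx_eq : zx = toF (zS.map fun p => (p.1, p.2.map dec7 ++ [rX])) := by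
  rw [zx, zA_eq, apx_toF, List.map_map]; rfl

theorem bx_eq : bx = toF (bS.map fun p => (p.1, p.2.map dec7 ++ [rX])) := by
  rw [bx, bA_eq, apx_toF, List.map_map]; rfl

theorem bd_zA : bd zA = 0 := by
  rw [zA, bd_mp, bd_zS, map_zero]

theorem bd_bA : bd bA = (2 : ℤ) • zA := by
  rw [bA, bd_mp, bd_bS, map_smul]; rfl

/-- condition of the codes occurring in the cycle -/
def Bz (r : Al) : Prop := valid r = true ∧ r.2.2.2.1 = true
def Bz' (r : Al) : Prop := Bz r ∧ topC r = false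
def Bb (r : Al) : Prop := valid r = true
def Bb' (r : Al) : Prop := valid r = true ∧ topC r = false

theorem cont_valid (i : Fin 3) (a : Al) : valid (fJ i a) = valid a ∧ valid (gG i a) = valid a := by
  rcases fin3_cases i with rfl | rfl | rfl <;> exact ⟨rfl, rfl⟩

theorem cont_topC (i : Fin 3) (a : Al) : topC (fJ i a) = topC a ∧ topC (gG i a) = topC a := by
  rcases fin3_cases i with rfl | rfl | rfl <;> exact ⟨rfl, rfl⟩

theorem cont_d (i : Fin 3) (a : Al) : (fJ i a).2.2.2.1 = a.2.2.2.1 ∧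
    (gG i a).2.2.2.1 = a.2.2.2.1 := by
  rcases fin3_cases i with rfl | rfl | rfl <;> exact ⟨rfl, rfl⟩

theorem cont_Bz : ContProp Bz :=
  ⟨fun i a h => ⟨(cont_valid i a).1.trans h.1, (cont_d i a).1.trans h.2⟩,
    fun i a h => ⟨(cont_valid i a).2.trans h.1, (cont_d i a).2.trans h.2⟩⟩

theorem cont_Bz' : ContProp Bz' :=
  ⟨fun i a h => ⟨cont_Bz.1 i a h.1, (cont_topC i a).1.trans h.2⟩,
    fun i a h => ⟨cont_Bz.2 i a h.1, (cont_topC i a).2.trans h.2⟩⟩

theorem cont_Bb : ContProp Bb :=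
  ⟨fun i a h => (cont_valid i a).1.trans h, fun i a h => (cont_valid i a).2.trans h⟩

theorem cont_Bb' : ContProp Bb' :=
  ⟨fun i a h => ⟨(cont_valid i a).1.trans h.1, (cont_topC i a).1.trans h.2⟩,
    fun i a h => ⟨(cont_valid i a).2.trans h.1, (cont_topC i a).2.trans h.2⟩⟩

def chk (k : ℕ) (A : Al → Bool) (l : List Al) : Bool :=
  Nat.beq l.length k && (pwB l && l.all fun a => st0 a && A a)

theorem chk_spec {k : ℕ} {A : Al → Bool} {B : Al → Prop} (hA : ∀ a, A a = true → B a)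
    {l : List Al} (h : chk k A l = true) : l ∈ W alt (fun a => B a ∧ S012 a) k := by
  unfold chk at h
  rw [Bool.and_eq_true, Bool.and_eq_true] at h
  refine ⟨Nat.eq_of_beq_eq_true h.1, pwB_spec l h.2.1, fun a ha => ?_⟩
  have := List.all_eq_true.1 h.2.2 a ha
  rw [Bool.and_eq_true] at this
  exact ⟨hA a this.2, st0_spec this.1⟩

theorem zA_supp : zA ∈ supported ℤ ℤ (W alt (fun a => Bz' a ∧ S012 a) 2) := by
  rw [zA_eq]
  refine toF_mem fun p hp => ?_
  have h : ((zS.map fun p => (p.1, p.2.map dec7)).all fun p =>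
    chk 2 (fun a => valid a && (a.2.2.2.1 && !topC a)) p.2) = true := by decide +kernel
  refine chk_spec ?_ (List.all_eq_true.1 h p hp)
  intro a ha
  simp only [Bool.and_eq_true, Bool.not_eq_true'] at ha
  exact ⟨⟨ha.1, ha.2.1⟩, ha.2.2⟩

theorem zx_supp : zx ∈ supported ℤ ℤ (W alt (fun a => Bz a ∧ S012 a) 3) := by
  rw [zx_eq]
  refine toF_mem fun p hp => ?_
  have h : ((zS.map fun p => (p.1, p.2.map dec7 ++ [rX])).all fun p =>
    chk 3 (fun a => valid a && a.2.2.2.1) p.2) = true := by decide +kernel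
  refine chk_spec ?_ (List.all_eq_true.1 h p hp)
  intro a ha
  simp only [Bool.and_eq_true] at ha
  exact ⟨ha.1, ha.2⟩

theorem bA_supp : bA ∈ supported ℤ ℤ (W alt (fun a => Bb' a ∧ S012 a) 3) := by
  rw [bA_eq]
  refine toF_mem fun p hp => ?_
  have h : ((bS.map fun p => (p.1, p.2.map dec7)).all fun p =>
    chk 3 (fun a => valid a && !topC a) p.2) = true := by decide +kernel
  refine chk_spec ?_ (List.all_eq_true.1 h p hp)
  intro a ha
  simp only [Bool.and_eq_true, Bool.not_eq_true'] at ha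
  exact ⟨ha.1, ha.2⟩

theorem bx_supp : bx ∈ supported ℤ ℤ (W alt (fun a => Bb a ∧ S012 a) 4) := by
  rw [bx_eq]
  refine toF_mem fun p hp => ?_
  have h : ((bS.map fun p => (p.1, p.2.map dec7 ++ [rX])).all fun p =>
    chk 4 (fun a => valid a) p.2) = true := by decide +kernel
  exact chk_spec (fun a ha => ha) (List.all_eq_true.1 h p hp)

theorem bd_zx : bd zx = zA := by
  rw [zx, bd_apx (fun l (hl : l ∈ W alt (fun a => Bz' a ∧ S012 a) 2) => hl.1) rX zA_supp, bd_zA]
  simp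

theorem bd_bx : bd bx = (2 : ℤ) • zx - bA := by
  rw [bx, bd_apx (fun l (hl : l ∈ W alt (fun a => Bb' a ∧ S012 a) 3) => hl.1) rX bA_supp, bd_bA,
    map_smul, zx]
  simp [pow_succ]
  abel

/-- the cycle -/
noncomputable def zt : FL Al := Ko fJ gG zx - To fJ gG zA
/-- the chain whose boundary is twice the cycle -/
noncomputable def bt : FL Al := Ko fJ gG bx + To fJ gG bA

theorem bd_zt : bd zt = 0 := (main_cycle gG_fJ bd_zA bd_bA bd_zx bd_bx).1
theorem bd_bt : bd bt = (2 : ℤ) • zt := (main_cycle gG_fJ bd_zA bd_bA bd_zx bd_bx).2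

theorem good_of_Some2 {a : Al} (h : Some2 a) : good a := by
  rintro ⟨_, _, _, _, h0, h1, h2⟩
  rcases h with h | h | h
  · exact h h0
  · exact h h1
  · exact h h2

theorem good_of_topC {a : Al} (h : topC a = false) : good a := by
  rintro ⟨h1, h2, h3, h4, _⟩
  unfold topC at h
  rw [h1, h2, h3, h4] at h
  exact absurd h (by decide)

theorem zt_supp : zt ∈ supported ℤ ℤ (W alt (fun a => Bz a ∧ good a) 5) := by
  have h1 := Ko_supp cont_Bz zx_supp
  have h2 := To_supp cont_Bz' zA_supp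
  refine Submodule.sub_mem _ (supported_mono ?_ h1) (supported_mono ?_ h2)
  · exact fun l hl => ⟨hl.1, hl.2.1, fun a ha => ⟨(hl.2.2 a ha).1, good_of_Some2 (hl.2.2 a ha).2⟩⟩
  · exact fun l hl => ⟨hl.1, hl.2.1, fun a ha =>
      ⟨(hl.2.2 a ha).1.1, good_of_topC (hl.2.2 a ha).1.2⟩⟩

theorem bt_supp : bt ∈ supported ℤ ℤ (W alt (fun a => Bb a ∧ good a) 6) := by
  have h1 := Ko_supp cont_Bb bx_supp
  have h2 := To_supp cont_Bb' bA_supp
  refine Submodule.add_mem _ (supported_mono ?_ h1) (supported_mono ?_ h2)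
  · exact fun l hl => ⟨hl.1, hl.2.1, fun a ha => ⟨(hl.2.2 a ha).1, good_of_Some2 (hl.2.2 a ha).2⟩⟩
  · exact fun l hl => ⟨hl.1, hl.2.1, fun a ha =>
      ⟨(hl.2.2 a ha).1.1, good_of_topC (hl.2.2 a ha).1.2⟩⟩

/-! ### Passage to the proper part of `Π_λ` -/

theorem good_rX : good rX := by
  rintro ⟨_, _, _, _, h0, _⟩
  exact absurd h0 (by decide)

theorem valid_rX : valid rX = true := by decide +kernel

/-- the proper part of `Π_λ` for `λ = (7, 5, 4, 3, 2, 2, 2)` -/
abbrev PP : Type := ProperPart lam25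

open Classical in
noncomputable def PhiP (r : Al) : PP :=
  if h : valid r = true ∧ good r then ⟨Phi r, Phi_mem h.1, Phi_ne_bot r, Phi_ne_top h.2⟩
  else ⟨Phi rX, Phi_mem valid_rX, Phi_ne_bot rX, Phi_ne_top good_rX⟩

theorem PhiP_val {r : Al} (h1 : valid r = true) (h2 : good r) : (PhiP r).1 = Phi r := by
  unfold PhiP
  rw [dif_pos ⟨h1, h2⟩]

theorem mp_PhiP_supp {B : Al → Prop} (hB : ∀ a, B a → valid a = true) {k : ℕ} {x : FL Al}
    (hx : x ∈ supported ℤ ℤ (W alt (fun a => B a ∧ good a) k)) :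
    mp PhiP x ∈ supported ℤ ℤ (W (· < ·) (fun _ : PP => True) k) := by
  refine mp_supp ?_ (fun _ _ => trivial) hx
  intro a b ha hb hab
  show (PhiP a).1 < (PhiP b).1
  rw [PhiP_val (hB a ha.1) ha.2, PhiP_val (hB b hb.1) hb.2]
  exact Phi_strict hab

noncomputable def zP : Simplex PP 5 →₀ ℤ := Nk 5 (mp PhiP zt)
noncomputable def bP : Simplex PP 6 →₀ ℤ := Nk 6 (mp PhiP bt)

theorem boundary_zP : boundary PP 4 zP = 0 := by
  rw [zP, boundary_Nk 4 (mp_PhiP_supp (fun a ha => ha.1) zt_supp), bd_mp, bd_zt, map_zero,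
    map_zero]

theorem boundary_bP : boundary PP 5 bP = (2 : ℤ) • zP := by
  rw [bP, boundary_Nk 5 (mp_PhiP_supp (fun a ha => ha) bt_supp), bd_mp, bd_bt, map_smul,
    map_smul]
  rfl

end Pool.Agent.Helper663.Orb
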