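import Mathlib
import Pool.Agent.Helper663.OrbMain

/-! # The cocycle on the chains of `Π_λ`, and its value on the cycle -/

set_option linter.unusedSectionVars false

namespace Pool.Agent.Helper663.Orb

open Finsupp

def rY : Al := ((true, true), (true, true), (true, true), true, 2, 0, 0)
def rZ : Al := ((true, true), (true, true), (true, true), true, 2, 2, 0)

/-- a coarsening which only merges two blocks is a cover -/
theorem merge_cover {F : Fin 25 → ℕ} {a b : Fin 25} {c : Setoid (Fin 25)}
    (h1 : Setoid.ker F ≤ c) (h2 : c ≤ Setoid.ker (tw a b 2 F)) :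
    c = Setoid.ker F ∨ c = Setoid.ker (tw a b 2 F) := by
  have hF : ∀ {u v}, F u = F v → c u v := fun h => h1 h
  by_cases hab : c a b
  · right
    refine le_antisymm h2 ?_
    intro u v huv
    have huv' : tw a b 2 F u = tw a b 2 F v := huv
    rw [tw_two, tw_two] at huv'
    by_cases hu : F u = F b
    · rw [if_pos hu] at huv'
      by_cases hv : F v = F b
      · exact hF (hu.trans hv.symm)
      · rw [if_neg hv] at huv'
        exact c.trans (hF hu) (c.trans (c.symm hab) (hF huv'))
    · rw [if_neg hu] at huv'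
      by_cases hv : F v = F b
      · rw [if_pos hv] at huv'
        exact c.trans (hF huv') (c.trans hab (c.symm (hF hv)))
      · rw [if_neg hv] at huv'
        exact hF huv'
  · left
    refine le_antisymm ?_ h1
    intro u v huv
    have huv' : tw a b 2 F u = tw a b 2 F v := h2 huv
    rw [tw_two, tw_two] at huv'
    show F u = F v
    by_cases hu : F u = F b
    · rw [if_pos hu] at huv'
      by_cases hv : F v = F b
      · exact hu.trans hv.symm
      · rw [if_neg hv] at huv'
        exfalso
        exact hab (c.trans (hF huv') (c.trans (c.symm huv) (hF hu)))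
    · rw [if_neg hu] at huv'
      by_cases hv : F v = F b
      · rw [if_pos hv] at huv'
        exfalso
        exact hab (c.trans (c.symm (hF huv')) (c.trans huv (hF hv)))
      · rw [if_neg hv] at huv'
        exact huv'

theorem Phi_rX_eq : Phi rX = Setoid.ker (slab rX) := rfl
theorem Phi_rY_eq : Phi rY = Setoid.ker (tw 0 7 2 (slab rX)) := rfl
theorem Phi_rZ_eq : Phi rZ = Setoid.ker (tw 8 14 2 (tw 0 7 2 (slab rX))) := rfl
theorem Phi_top_eq : Phi topAl = Setoid.ker (tw 15 21 2 (tw 8 14 2 (tw 0 7 2 (slab rX)))) := rfl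

theorem Phi_top : Phi topAl = ⊤ := by
  have h : ∀ u : Fin 25, lab topAl u = lab topAl 0 := by decide +kernel
  rw [eq_top_iff]
  intro u v _
  show lab topAl u = lab topAl v
  rw [h u, h v]

theorem no_between_XY {c : Setoid (Fin 25)} (h1 : Phi rX < c) (h2 : c < Phi rY) : False := by
  rw [Phi_rX_eq] at h1
  rw [Phi_rY_eq] at h2
  rcases merge_cover h1.le h2.le with h | h
  · exact h1.ne h.symm
  · exact h2.ne h

theorem no_between_YZ {c : Setoid (Fin 25)} (h1 : Phi rY < c) (h2 : c < Phi rZ) : False := by
  rw [Phi_rY_eq] at h1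
  rw [Phi_rZ_eq] at h2
  rcases merge_cover h1.le h2.le with h | h
  · exact h1.ne h.symm
  · exact h2.ne h

theorem above_Z {c : Setoid (Fin 25)} (h1 : Phi rZ < c) : c = ⊤ := by
  have h2 : c ≤ Phi topAl := by rw [Phi_top]; exact le_top
  rw [Phi_rZ_eq] at h1
  rw [Phi_top_eq] at h2
  rcases merge_cover h1.le h2 with h | h
  · exact absurd h.symm h1.ne
  · rw [h, ← Phi_top_eq, Phi_top]

open Classical in
/-- the cochain -/
noncomputable def psi : List PP → ZMod 2
  | [c0, c1, c2, c3, c4] =>
    if c2.1 = Phi rX ∧ c3.1 = Phi rY ∧ c4.1 = Phi rZ then phi c0.1 c1.1 else 0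
  | _ => 0

open Classical in
theorem psi_eq (c0 c1 c2 c3 c4 : PP) : psi [c0, c1, c2, c3, c4] =
    if c2.1 = Phi rX ∧ c3.1 = Phi rY ∧ c4.1 = Phi rZ then phi c0.1 c1.1 else 0 := rfl

theorem neg_z2 (x : ZMod 2) : -x = x := CharTwo.neg_eq x

theorem psi_cocycle (c0 c1 c2 c3 c4 c5 : PP) (h01 : c0 < c1) (h12 : c1 < c2) (h23 : c2 < c3)
    (h34 : c3 < c4) (h45 : c4 < c5) :
    psi [c1, c2, c3, c4, c5] + psi [c0, c2, c3, c4, c5] + psi [c0, c1, c3, c4, c5] +
      psi [c0, c1, c2, c4, c5] + psi [c0, c1, c2, c3, c5] + psi [c0, c1, c2, c3, c4] = 0 := by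
  have e3 : psi [c0, c1, c2, c4, c5] = 0 := by
    rw [psi_eq, if_neg]
    rintro ⟨g1, g2, _⟩
    have g3 : Phi rX < c3.1 := by rw [← g1]; exact h23
    have g4 : c3.1 < Phi rY := by rw [← g2]; exact h34
    exact no_between_XY g3 g4
  have e4 : psi [c0, c1, c2, c3, c5] = 0 := by
    rw [psi_eq, if_neg]
    rintro ⟨_, g1, g2⟩
    have g3 : Phi rY < c4.1 := by rw [← g1]; exact h34
    have g4 : c4.1 < Phi rZ := by rw [← g2]; exact h45
    exact no_between_YZ g3 g4
  have e5 : psi [c0, c1, c2, c3, c4] = 0 := by
    rw [psi_eq, if_neg]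
    rintro ⟨_, _, g2⟩
    have g3 : Phi rZ < c5.1 := by rw [← g2]; exact h45
    exact c5.2.2.2 (above_Z g3)
  rw [e3, e4, e5, add_zero, add_zero, add_zero, psi_eq, psi_eq, psi_eq]
  by_cases h : c3.1 = Phi rX ∧ c4.1 = Phi rY ∧ c5.1 = Phi rZ
  · rw [if_pos h, if_pos h, if_pos h]
    have h2X : c2.1 < X := by
      show c2.1 < Phi rX
      rw [← h.1]; exact h23
    have := phi_cocycle c0.2.1 c0.2.2.1 (le_of_lt (show c0.1 < c1.1 from h01))
      (le_of_lt (show c1.1 < c2.1 from h12)) h2X.le h2X.ne
    rw [← this]
    ring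
  · rw [if_neg h, if_neg h, if_neg h]
    rfl

/-- the functional on chains -/
noncomputable def Psi : (Simplex PP 5 →₀ ℤ) →ₗ[ℤ] ZMod 2 :=
  Finsupp.linearCombination ℤ fun c => psi c.1

theorem Psi_single (c : Simplex PP 5) (n : ℤ) : Psi (single c n) = n • psi c.1 := by
  simp [Psi]

theorem Psi_boundary (w : Simplex PP 6 →₀ ℤ) : Psi (boundary PP 5 w) = 0 := by
  induction w using Finsupp.induction_linear with
  | zero => simp
  | add x y hx hy => rw [map_add, map_add, hx, hy, add_zero]
  | single c n =>
    rw [boundary, linearCombination_single, map_smul, map_sum]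
    have key : ∑ i : Fin 6, Psi ((-1 : ℤ) ^ (i : ℕ) • single (face c i) (1 : ℤ)) = 0 := by
      have h1 : ∀ i : Fin 6, Psi ((-1 : ℤ) ^ (i : ℕ) • single (face c i) (1 : ℤ)) =
          psi (c.1.eraseIdx i) := by
        intro i
        rw [map_smul, Psi_single, one_smul]
        have h2 : (face c i).1 = c.1.eraseIdx i := rfl
        rw [h2]
        rcases neg_one_pow_eq_or ℤ (i : ℕ) with h | h
        · rw [h, one_smul]
        · rw [h, neg_smul, one_smul, neg_z2]
      simp only [h1]
      obtain ⟨l, hl, hs⟩ := c
      match l, hl, hs with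
      | [c0, c1, c2, c3, c4, c5], _, hs =>
        simp only [List.pairwise_cons] at hs
        obtain ⟨a0, a1, a2, a3, a4, _⟩ := hs
        rw [Fin.sum_univ_six]
        exact psi_cocycle c0 c1 c2 c3 c4 c5 (a0 c1 (by simp)) (a1 c2 (by simp)) (a2 c3 (by simp))
          (a3 c4 (by simp)) (a4 c5 (by simp))
    rw [key, smul_zero]

/-! ### Evaluation -/

/-- evaluation of a function of lists on chains -/
noncomputable def ev {α M : Type*} [AddCommGroup M] (f : List α → M) : FL α →ₗ[ℤ] M :=
  Finsupp.linearCombination ℤ f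

section Ev

variable {α M : Type*} [AddCommGroup M]

@[simp] theorem ev_single (f : List α → M) (l : List α) (c : ℤ) : ev f (single l c) = c • f l := by
  simp [ev]

theorem ev_congr {f g : List α → M} {S : Set (List α)} (h : ∀ l ∈ S, f l = g l) {x : FL α}
    (hx : x ∈ supported ℤ ℤ S) : ev f x = ev g x := by
  unfold ev
  rw [linearCombination_apply, linearCombination_apply]
  refine Finset.sum_congr rfl fun l hl => ?_
  show x l • f l = x l • g l
  rw [h l ((mem_supported ℤ x).1 hx hl)]

theorem ev_consL (f : List α → M) (a : α) (x : FL α) :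
    ev f (consL a x) = ev (fun l => f (a :: l)) x := by
  induction x using Finsupp.induction_linear with
  | zero => simp
  | add x y hx hy => simp [hx, hy]
  | single l c => simp

theorem ev_mp {β : Type*} (f : List β → M) (g : α → β) (x : FL α) :
    ev f (mp g x) = ev (fun l => f (l.map g)) x := by
  induction x using Finsupp.induction_linear with
  | zero => simp
  | add x y hx hy => simp [hx, hy]
  | single l c => simp

/-- the transpose of the prism operator -/
def prT (g : α → α) : (List α → M) → List α → M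
  | _, [] => 0
  | f, a :: l => f (a :: g a :: l.map g) - prT g (fun m => f (a :: m)) l

theorem ev_prL (g : α → α) (l : List α) : ∀ f : List α → M, ev f (prL g l) = prT g f l := by
  induction l with
  | nil => intro f; simp [prL, prT]
  | cons a l ih =>
    intro f
    rw [prL, map_sub, ev_single, one_smul, ev_consL, ih, prT]

theorem ev_pr (g : α → α) (f : List α → M) (x : FL α) : ev f (pr g x) = ev (prT g f) x := by
  induction x using Finsupp.induction_linear with
  | zero => simp
  | add x y hx hy => simp [hx, hy]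
  | single l c => rw [pr_single, map_smul, ev_prL, ev_single]

/-- the transpose of `E` -/
def ET (f g : α → α) (p : List α → M) (l : List α) : M :=
  prT f p l - prT f (fun m => p (m.map g)) l

theorem ev_Eo (f g : α → α) (p : List α → M) (x : FL α) :
    ev p (Eo f g x) = ev (ET f g p) x := by
  have h1 : Eo f g x = pr f x - mp g (pr f x) := rfl
  rw [h1, map_sub, ev_mp, ev_pr, ev_pr]
  induction x using Finsupp.induction_linear with
  | zero => simp
  | add x y hx hy => rw [map_add, map_add, map_add, ← hx (by rfl), ← hy (by rfl)]; abel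
  | single l c => rw [ev_single, ev_single, ev_single, ← smul_sub]; rfl

/-- the transpose of `g - 1` -/
def GT (g : α → α) (p : List α → M) (l : List α) : M := p (l.map g) - p l

theorem ev_Gm (g : Fin 3 → α → α) (i : Fin 3) (p : List α → M) (x : FL α) :
    ev p (Gm g i x) = ev (GT (g i) p) x := by
  have h1 : Gm g i x = mp (g i) x - x := rfl
  rw [h1, map_sub, ev_mp]
  induction x using Finsupp.induction_linear with
  | zero => simp
  | add x y hx hy => rw [map_add, map_add, map_add, ← hx (by rfl), ← hy (by rfl)]; abel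
  | single l c => rw [ev_single, ev_single, ev_single, ← smul_sub]; rfl

theorem ev_toF (f : List α → M) (S : List (ℤ × List α)) :
    ev f (toF S) = (S.map fun p => p.1 • f p.2).sum := by
  induction S with
  | nil => simp [toF_nil]
  | cons p S ih => rw [toF_cons, map_add, ih, ev_single]; simp

end Ev

end Pool.Agent.Helper663.Orb
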