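import Mathlib
import Pool.Agent.Helper663.OrbPsi

/-! # The value of the cocycle on the cycle is odd -/

set_option linter.unusedSectionVars false

namespace Pool.Agent.Helper663.Orb

open Finsupp

/-- the content of the block number `m` is whole -/
def wb (r : Al) (m : Fin 3) : Bool := (con r m.castSucc).1 && (con r m.castSucc).2

def phiBool (w w' : Fin 3 → Bool) : Bool :=
  [0, 1, 2].any fun i : Fin 3 => !(w i) && (!(w (i + 1)) && (w (i + 2) && (w' i &&
    (!(w' (i + 1)) && w' (i + 2)))))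

def psiZ : List Al → ℤ
  | [r0, r1, r2, r3, r4] =>
    cond (eqAl r2 rX) (cond (eqAl r3 rY) (cond (eqAl r4 rZ)
      (cond (phiBool (wb r0) (wb r1)) 1 0) 0) 0) 0
  | _ => 0

theorem psiZ_eq (r0 r1 r2 r3 r4 : Al) : psiZ [r0, r1, r2, r3, r4] =
    cond (eqAl r2 rX) (cond (eqAl r3 rY) (cond (eqAl r4 rZ)
      (cond (phiBool (wb r0) (wb r1)) 1 0) 0) 0) 0 := rfl

theorem mem012 : ∀ i : Fin 3, i ∈ ([0, 1, 2] : List (Fin 3)) := by decide

theorem wv_eq {c : Setoid (Fin 25)} {m : Fin 3} {b : Bool} (h : whole m.castSucc c ↔ b = true) :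
    wv c m = b := by
  classical
  unfold wv
  cases b
  · simp only [Bool.false_eq_true, iff_false] at h
    simp [h]
  · simp only [iff_true] at h
    simp [h]

theorem phiYB_eq (w w' : Fin 3 → Bool) :
    phiYB w w' = (((cond (phiBool w w') 1 0 : ℤ) : ℤ) : ZMod 2) := by
  unfold phiYB
  by_cases h : ∃ i : Fin 3, w i = false ∧ w (i + 1) = false ∧ w (i + 2) = true ∧ w' i = true ∧
    w' (i + 1) = false ∧ w' (i + 2) = true
  · rw [if_pos h]
    have h1 : phiBool w w' = true := by
      obtain ⟨i, h1, h2, h3, h4, h5, h6⟩ := h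
      unfold phiBool
      rw [List.any_eq_true]
      refine ⟨i, ?_, ?_⟩
      · exact mem012 i
      · rw [h1, h2, h3, h4, h5, h6]; rfl
    rw [h1]; rfl
  · rw [if_neg h]
    have h1 : phiBool w w' = false := by
      rw [Bool.eq_false_iff]
      intro hh
      apply h
      unfold phiBool at hh
      rw [List.any_eq_true] at hh
      obtain ⟨i, _, hi⟩ := hh
      simp only [Bool.and_eq_true, Bool.not_eq_true'] at hi
      exact ⟨i, hi.1, hi.2.1, hi.2.2.1, hi.2.2.2.1, hi.2.2.2.2.1, hi.2.2.2.2.2⟩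
    rw [h1]; rfl

theorem eqAl_self (r : Al) : eqAl r r = true := by
  have h : allAl (fun r => eqAl r r) = true := by decide +kernel
  exact allAl_spec h r

theorem eqAl_iff (r s : Al) : eqAl r s = true ↔ r = s :=
  ⟨eqAl_spec, fun h => by rw [h]; exact eqAl_self s⟩

def el (m : Fin 3) (p : Fin 7) : Fin 25 := ⟨7 * m.val + p.val, by have := m.2; have := p.2; omega⟩

theorem blk_el : ∀ (m : Fin 3) (p : Fin 7), blk (el m p) = m.castSucc := by decide

theorem pos_el : ∀ (m : Fin 3) (p : Fin 7), pos (el m p) = p := by decide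

theorem subc_whole : ∀ (m : Fin 3) (x y : Bool),
    subc m.castSucc (x, y) 2 = subc m.castSucc (x, y) 3 →
    subc m.castSucc (x, y) 4 = subc m.castSucc (x, y) 5 → (x && y) = true := by decide

theorem subc_true : ∀ (m : Fin 3) (p : Fin 7), subc m.castSucc (true, true) p = 0 := by decide

theorem whole_iff (c0 c1 c2 : Con) (d : Bool) (m : Fin 3) :
    whole m.castSucc (Phi (c0, c1, c2, d, 0, 0, 0)) ↔ wb (c0, c1, c2, d, 0, 0, 0) m = true := by
  set r : Al := (c0, c1, c2, d, 0, 0, 0) with hr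
  have hlab : ∀ u, lab r u = 10 * (blk u).val + subc (blk u) (con r (blk u)) (pos u) := by
    intro u; rw [hr]; rfl
  have hel : ∀ p, lab r (el m p) = 10 * m.val + subc m.castSucc (con r m.castSucc) p := by
    intro p; rw [hlab, blk_el, pos_el]; rfl
  constructor
  · intro h
    have h1 : lab r (el m 2) = lab r (el m 3) := h _ _ (blk_el m 2) (blk_el m 3)
    have h2 : lab r (el m 4) = lab r (el m 5) := h _ _ (blk_el m 4) (blk_el m 5)
    rw [hel, hel] at h1 h2
    exact subc_whole m _ _ (by simpa using h1) (by simpa using h2)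
  · intro h u v hu hv
    show lab r u = lab r v
    unfold wb at h
    rw [Bool.and_eq_true] at h
    have hc : con r m.castSucc = (true, true) := Prod.ext h.1 h.2
    rw [hlab, hlab, hu, hv, hc, subc_true, subc_true]

theorem whole3 (c0 c1 c2 : Con) : whole 3 (Phi (c0, c1, c2, true, 0, 0, 0)) := by
  set r : Al := (c0, c1, c2, true, 0, 0, 0) with hr
  have hlab : ∀ u, lab r u = 10 * (blk u).val + subc (blk u) (con r (blk u)) (pos u) := by
    intro u; rw [hr]; rfl
  intro u v hu hv
  show lab r u = lab r v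
  have hc : con r 3 = (true, true) := rfl
  have h3 : ∀ p, subc 3 (true, true) p = 0 := by decide
  rw [hlab, hlab, hu, hv, hc, h3, h3]

theorem tle_zero : ∀ t : Fin 3, tle t 0 → t = 0 := by decide

theorem psi_eq_psiZ {l : List Al} (hl : l ∈ W alt (fun a => Bz a ∧ good a) 5) :
    psi (l.map PhiP) = ((psiZ l : ℤ) : ZMod 2) := by
  obtain ⟨h5, hs, hA⟩ := hl
  match l, h5, hs, hA with
  | [r0, r1, r2, r3, r4], _, hs, hA =>
    have g0 := hA r0 (by simp)
    have g1 := hA r1 (by simp)
    have g2 := hA r2 (by simp)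
    have g3 := hA r3 (by simp)
    have g4 := hA r4 (by simp)
    simp only [List.pairwise_cons] at hs
    obtain ⟨a0, a1, _⟩ := hs
    have l01 := (a0 r1 (by simp)).1
    have l12 := (a1 r2 (by simp)).1
    rw [psiZ_eq]
    show psi [PhiP r0, PhiP r1, PhiP r2, PhiP r3, PhiP r4] = _
    rw [psi_eq, PhiP_val g0.1.1 g0.2, PhiP_val g1.1.1 g1.2, PhiP_val g2.1.1 g2.2,
      PhiP_val g3.1.1 g3.2, PhiP_val g4.1.1 g4.2]
    by_cases h2 : r2 = rX
    · by_cases h3 : r3 = rY
      · by_cases h4 : r4 = rZ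
        · rw [if_pos ⟨by rw [h2], by rw [h3], by rw [h4]⟩, (eqAl_iff _ _).2 h2,
            (eqAl_iff _ _).2 h3, (eqAl_iff _ _).2 h4]
          show phi (Phi r0) (Phi r1) = (((cond (phiBool (wb r0) (wb r1)) 1 0 : ℤ) : ℤ) : ZMod 2)
          rw [← phiYB_eq]
          rw [h2] at l12
          obtain ⟨c0, c1, c2, d, t0, t1, t2⟩ := r1
          obtain ⟨e0, e1, e2, d', s0, s1, s2⟩ := r0
          have d1 : d = true := g1.1.2
          have d0 : d' = true := g0.1.2
          have u0 : t0 = 0 := tle_zero _ l12.2.1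
          have u1 : t1 = 0 := tle_zero _ l12.2.2.1
          have u2 : t2 = 0 := tle_zero _ l12.2.2.2
          subst u0 u1 u2
          have v0 : s0 = 0 := tle_zero _ l01.2.1
          have v1 : s1 = 0 := tle_zero _ l01.2.2.1
          have v2 : s2 = 0 := tle_zero _ l01.2.2.2
          subst v0 v1 v2 d0 d1
          unfold phi
          rw [if_pos (whole3 _ _ _), if_pos (whole3 _ _ _)]
          congr 1
          · funext m
            exact wv_eq (whole_iff _ _ _ _ m)
          · funext m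
            exact wv_eq (whole_iff _ _ _ _ m)
        · have e4 : eqAl r4 rZ = false := by
            rw [Bool.eq_false_iff]; exact fun h => h4 (eqAl_spec h)
          rw [if_neg (fun h => h4 (Phi_inj h.2.2)), e4]
          cases eqAl r2 rX <;> cases eqAl r3 rY <;> rfl
      · have e3 : eqAl r3 rY = false := by
          rw [Bool.eq_false_iff]; exact fun h => h3 (eqAl_spec h)
        rw [if_neg (fun h => h3 (Phi_inj h.2.1)), e3]
        cases eqAl r2 rX <;> rfl
    · have e2 : eqAl r2 rX = false := by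
        rw [Bool.eq_false_iff]; exact fun h => h2 (eqAl_spec h)
      rw [if_neg (fun h => h2 (Phi_inj h.1)), e2]
      rfl

theorem Psi_Nk {A : PP → Prop} {x : FL PP} (hx : x ∈ supported ℤ ℤ (W (· < ·) A 5)) :
    Psi (Nk 5 x) = ev psi x := by
  have e : x = x.sum fun l c => c • single l (1 : ℤ) := by
    conv_lhs => rw [← Finsupp.sum_single x]
    refine Finset.sum_congr rfl fun l _ => ?_
    simp
  rw [e]
  simp only [Finsupp.sum, map_sum, map_smul]
  refine Finset.sum_congr rfl fun l hl => ?_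
  have hl' := (mem_supported ℤ x).1 hx hl
  rw [Nk_single, one_smul, ev_single, one_smul, toS, dif_pos ⟨hl'.1, hl'.2.1⟩, Psi_single,
    one_smul]

theorem ev_cast (f : List Al → ℤ) (x : FL Al) :
    ev (fun l => ((f l : ℤ) : ZMod 2)) x = ((ev f x : ℤ) : ZMod 2) := by
  induction x using Finsupp.induction_linear with
  | zero => simp
  | add x y hx hy => rw [map_add, map_add, hx, hy, Int.cast_add]
  | single l c => simp

theorem Psi_zP_eq : Psi zP = ((ev psiZ zt : ℤ) : ZMod 2) := by
  rw [zP, Psi_Nk (mp_PhiP_supp (fun a ha => ha.1) zt_supp), ev_mp,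
    ev_congr (fun l hl => psi_eq_psiZ hl) zt_supp, ev_cast]

/-- the transpose of `Ko` -/
def KT (p : List Al → ℤ) (l : List Al) : ℤ :=
  ET (fJ 2) (gG 2) (ET (fJ 1) (gG 1) (GT (gG 0) p)) l -
    ET (fJ 2) (gG 2) (GT (gG 1) (ET (fJ 0) (gG 0) p)) l +
    GT (gG 2) (ET (fJ 1) (gG 1) (ET (fJ 0) (gG 0) p)) l

/-- the transpose of `To` -/
def TT (p : List Al → ℤ) (l : List Al) : ℤ :=
  ET (fJ 2) (gG 2) (ET (fJ 1) (gG 1) (ET (fJ 0) (gG 0) p)) l

theorem ev_Ko (p : List Al → ℤ) (S : List (ℤ × List Al)) :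
    ev p (Ko fJ gG (toF S)) = (S.map fun q => q.1 * KT p q.2).sum := by
  have h : ev p (Ko fJ gG (toF S)) = ev (KT p) (toF S) := by
    unfold Ko
    rw [map_add, map_sub, ev_Gm, ev_Eo, ev_Eo, ev_Eo, ev_Gm, ev_Eo, ev_Eo, ev_Eo, ev_Gm,
      ev_toF, ev_toF, ev_toF, ev_toF]
    induction S with
    | nil => simp
    | cons q S ih =>
      simp only [List.map_cons, List.sum_cons]
      rw [← ih]
      unfold KT
      simp only [smul_eq_mul]
      ring
  rw [h, ev_toF]
  simp only [smul_eq_mul]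

theorem ev_To (p : List Al → ℤ) (S : List (ℤ × List Al)) :
    ev p (To fJ gG (toF S)) = (S.map fun q => q.1 * TT p q.2).sum := by
  unfold To
  rw [ev_Eo, ev_Eo, ev_Eo, ev_toF]
  simp only [smul_eq_mul]
  rfl

theorem ev_zt : ev psiZ zt = -3 := by
  unfold zt
  rw [map_sub, zx_eq, zA_eq, ev_Ko, ev_To]
  have h1 : ((zS.map fun p => (p.1, p.2.map dec7 ++ [rX])).map fun q =>
    q.1 * KT psiZ q.2).sum = -3 := by decide +kernel
  have h2 : ((zS.map fun p => (p.1, p.2.map dec7)).map fun q =>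
    q.1 * TT psiZ q.2).sum = 0 := by decide +kernel
  rw [h1, h2]
  norm_num

theorem Psi_zP : Psi zP = 1 := by
  rw [Psi_zP_eq, ev_zt]
  decide

/-- The class of `zP` in the reduced homology of `Π_λ` in dimension `4` is nonzero, twice the
class is zero. -/
theorem torsion_class : HasTorsion PP 4 := by
  refine ⟨zP, boundary_zP, ?_, 2, le_refl 2, bP, ?_⟩
  · rintro ⟨w, hw⟩
    have h1 : Psi (boundary PP 5 w) = Psi zP := by rw [hw]
    rw [Psi_boundary, Psi_zP] at h1
    exact absurd h1 (by decide)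
  · rw [boundary_bP, two_smul, two_nsmul]

end Pool.Agent.Helper663.Orb
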