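import Mathlib
import Pool.Agent.Helper663.OrbSupp

/-! # The finite poset of labelled partitions of a 25-element set -/

namespace Pool.Agent.Helper663.Orb

/-- contents of a block with seven elements: `(true, true)` is the whole block,
`(true, false)` is `5 + 2`, `(false, true)` is `3 + 4`, `(false, false)` is `3 + 2 + 2` -/
abbrev Con : Type := Bool × Bool

/-- three contents, the content of the block with four elements (`true` if it is whole), and
three states (`0` untouched, `1` swapped, `2` merged) for the three connections of blocks -/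
abbrev Al : Type := Con × Con × Con × Bool × Fin 3 × Fin 3 × Fin 3

def blk (u : Fin 25) : Fin 4 := ⟨u.val / 7, by have := u.2; omega⟩

def pos (u : Fin 25) : Fin 7 := ⟨u.val % 7, by omega⟩

def sub7 (c : Con) (p : Fin 7) : ℕ :=
  cond c.1 (cond c.2 0 (cond (Nat.blt p.val 5) 0 1))
    (cond c.2 (cond (Nat.blt p.val 3) 0 1)
      (cond (Nat.blt p.val 3) 0 (cond (Nat.blt p.val 5) 1 2)))

def sub4 (c : Con) (p : Fin 7) : ℕ := cond c.1 0 (cond (Nat.blt p.val 2) 0 1)

def subc (j : Fin 4) (c : Con) (p : Fin 7) : ℕ := cond (Nat.beq j.val 3) (sub4 c p) (sub7 c p)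

def con (r : Al) (j : Fin 4) : Con :=
  cond (Nat.beq j.val 0) r.1 (cond (Nat.beq j.val 1) r.2.1
    (cond (Nat.beq j.val 2) r.2.2.1 (r.2.2.2.1, true)))

/-- the label function of the partition without connections -/
def slab (r : Al) (u : Fin 25) : ℕ := 10 * (blk u).val + subc (blk u) (con r (blk u)) (pos u)

def sw (a b u : Fin 25) : Fin 25 := cond (Nat.beq u.val a.val) b (cond (Nat.beq u.val b.val) a u)

/-- the effect of one connection on a label function -/
def tw (a b : Fin 25) (t : Fin 3) (F : Fin 25 → ℕ) (u : Fin 25) : ℕ :=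
  cond (Nat.beq t.val 0) (F u) (cond (Nat.beq t.val 1) (F (sw a b u))
    (cond (Nat.beq (F u) (F b)) (F a) (F u)))

/-- the label function -/
def lab (r : Al) : Fin 25 → ℕ :=
  tw 15 21 r.2.2.2.2.2.2 (tw 8 14 r.2.2.2.2.2.1 (tw 0 7 r.2.2.2.2.1 (slab r)))

/-- the set partition -/
def Phi (r : Al) : Setoid (Fin 25) := Setoid.ker (lab r)

theorem Phi_rel (r : Al) (u v : Fin 25) : Phi r u v ↔ lab r u = lab r v := Iff.rfl

def tle (s t : Fin 3) : Prop := s = t ∨ t = 2

instance (s t : Fin 3) : Decidable (tle s t) := inferInstanceAs (Decidable (_ ∨ _))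

theorem tle_refl (s : Fin 3) : tle s s := Or.inl rfl

theorem tle_trans : ∀ s t u : Fin 3, tle s t → tle t u → tle s u := by decide

def ale (r s : Al) : Prop :=
  (r.1 ≤ s.1 ∧ r.2.1 ≤ s.2.1 ∧ r.2.2.1 ≤ s.2.2.1 ∧ r.2.2.2.1 ≤ s.2.2.2.1) ∧
    tle r.2.2.2.2.1 s.2.2.2.2.1 ∧ tle r.2.2.2.2.2.1 s.2.2.2.2.2.1 ∧
    tle r.2.2.2.2.2.2 s.2.2.2.2.2.2

theorem ale_refl (r : Al) : ale r r :=
  ⟨⟨le_refl _, le_refl _, le_refl _, le_refl _⟩, tle_refl _, tle_refl _, tle_refl _⟩

theorem ale_trans {r s t : Al} (h1 : ale r s) (h2 : ale s t) : ale r t :=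
  ⟨⟨h1.1.1.trans h2.1.1, h1.1.2.1.trans h2.1.2.1, h1.1.2.2.1.trans h2.1.2.2.1,
    h1.1.2.2.2.trans h2.1.2.2.2⟩, tle_trans _ _ _ h1.2.1 h2.2.1,
    tle_trans _ _ _ h1.2.2.1 h2.2.2.1, tle_trans _ _ _ h1.2.2.2 h2.2.2.2⟩

/-- the strict order -/
def alt (r s : Al) : Prop := ale r s ∧ ¬ ale s r

theorem alt_trans (r s t : Al) (h1 : alt r s) (h2 : alt s t) : alt r t :=
  ⟨ale_trans h1.1 h2.1, fun h => h1.2 (ale_trans h2.1 h)⟩

theorem subc_lt : ∀ (j : Fin 4) (x y : Bool) (p : Fin 7), subc j (x, y) p < 10 := by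
  decide +kernel

theorem subc_mono : ∀ (j : Fin 4) (x y x' y' : Bool), x ≤ x' → y ≤ y' → ∀ p q : Fin 7,
    subc j (x, y) p = subc j (x, y) q → subc j (x', y') p = subc j (x', y') q := by
  decide +kernel

theorem slab_mono {r s : Al} (h : ale r s) (u v : Fin 25) (e : slab r u = slab r v) :
    slab s u = slab s v := by
  have hc : ∀ j, (con r j).1 ≤ (con s j).1 ∧ (con r j).2 ≤ (con s j).2 := by
    intro j
    obtain ⟨⟨h1, h2, h3, h4⟩, _⟩ := h
    fin_cases j
    · exact h1
    · exact h2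
    · exact h3
    · exact ⟨h4, le_refl _⟩
  unfold slab at e ⊢
  have l1 := subc_lt (blk u) (con r (blk u)).1 (con r (blk u)).2 (pos u)
  have l2 := subc_lt (blk v) (con r (blk v)).1 (con r (blk v)).2 (pos v)
  simp only [Prod.mk.eta] at l1 l2
  have hb : (blk u).val = (blk v).val := by omega
  have hb' : blk u = blk v := Fin.ext hb
  rw [hb'] at e ⊢
  have e' : subc (blk v) (con r (blk v)) (pos u) = subc (blk v) (con r (blk v)) (pos v) := by omega
  have := subc_mono (blk v) _ _ _ _ (hc (blk v)).1 (hc (blk v)).2 (pos u) (pos v) e'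
  simp only [Prod.mk.eta] at this
  rw [this]

theorem tw_zero (a b : Fin 25) (F : Fin 25 → ℕ) (u : Fin 25) : tw a b 0 F u = F u := rfl

theorem tw_one (a b : Fin 25) (F : Fin 25 → ℕ) (u : Fin 25) : tw a b 1 F u = F (sw a b u) := rfl

theorem tw_two (a b : Fin 25) (F : Fin 25 → ℕ) (u : Fin 25) :
    tw a b 2 F u = if F u = F b then F a else F u := by
  unfold tw
  show cond (Nat.beq (F u) (F b)) (F a) (F u) = _
  by_cases h : F u = F b
  · rw [if_pos h, h, Nat.beq_refl]; rfl
  · rw [if_neg h]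
    have : Nat.beq (F u) (F b) = false := by
      rw [Bool.eq_false_iff]; intro hh; exact h (Nat.eq_of_beq_eq_true hh)
    rw [this]; rfl

theorem sw_cases (a b u : Fin 25) : (u = a ∧ sw a b u = b) ∨ (u = b ∧ sw a b u = a) ∨
    sw a b u = u := by
  unfold sw
  by_cases h : u.val = a.val
  · left
    refine ⟨Fin.ext h, ?_⟩
    rw [h, Nat.beq_refl]; rfl
  · have h1 : Nat.beq u.val a.val = false := by
      rw [Bool.eq_false_iff]; intro hh; exact h (Nat.eq_of_beq_eq_true hh)
    rw [h1]
    by_cases h' : u.val = b.val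
    · right; left
      refine ⟨Fin.ext h', ?_⟩
      rw [h', Nat.beq_refl]; rfl
    · right; right
      have h2 : Nat.beq u.val b.val = false := by
        rw [Bool.eq_false_iff]; intro hh; exact h' (Nat.eq_of_beq_eq_true hh)
      rw [h2]; rfl

theorem fin3_cases : ∀ t : Fin 3, t = 0 ∨ t = 1 ∨ t = 2 := by decide

/-- monotonicity of `tw` in the label function -/
theorem tw_mono (a b : Fin 25) (t : Fin 3) {F F' : Fin 25 → ℕ}
    (h : ∀ u v, F u = F v → F' u = F' v) (u v : Fin 25) (e : tw a b t F u = tw a b t F v) :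
    tw a b t F' u = tw a b t F' v := by
  rcases fin3_cases t with rfl | rfl | rfl
  · exact h _ _ e
  · exact h _ _ e
  · rw [tw_two, tw_two] at e ⊢
    by_cases h1 : F u = F b
    · rw [if_pos h1] at e
      rw [if_pos (h _ _ h1)]
      by_cases h2 : F v = F b
      · rw [if_pos (h _ _ h2)]
      · rw [if_neg h2] at e
        have := h _ _ e
        by_cases h3 : F' v = F' b
        · rw [if_pos h3]
        · rw [if_neg h3]; exact this
    · rw [if_neg h1] at e
      by_cases h2 : F v = F b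
      · rw [if_pos h2] at e
        rw [if_pos (h _ _ h2)]
        have := h _ _ e
        by_cases h3 : F' u = F' b
        · rw [if_pos h3]
        · rw [if_neg h3]; exact this
      · rw [if_neg h2] at e
        have := h _ _ e
        by_cases h3 : F' u = F' b
        · rw [if_pos h3, if_pos (this ▸ h3)]
        · rw [if_neg h3, if_neg (this ▸ h3)]; exact this

/-- monotonicity of `tw` in the state -/
theorem tw_mono_state (a b : Fin 25) {s t : Fin 3} (hst : tle s t) (F : Fin 25 → ℕ)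
    (u v : Fin 25) (e : tw a b s F u = tw a b s F v) : tw a b t F u = tw a b t F v := by
  rcases hst with rfl | rfl
  · exact e
  · have key : ∀ w, tw a b 2 F (sw a b w) = tw a b 2 F w := by
      intro w
      rw [tw_two, tw_two]
      rcases sw_cases a b w with ⟨h1, h2⟩ | ⟨h1, h2⟩ | h2
      · rw [h2, h1]
        simp
      · rw [h2, h1]
        simp
      · rw [h2]
    have id_mono : ∀ u v, F u = F v → tw a b 2 F u = tw a b 2 F v := by
      intro u v h
      rw [tw_two, tw_two, h]
    rcases fin3_cases s with rfl | rfl | rfl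
    · exact id_mono _ _ e
    · have := id_mono _ _ e
      rwa [key, key] at this
    · exact e

theorem lab_mono {r s : Al} (h : ale r s) (u v : Fin 25) (e : lab r u = lab r v) :
    lab s u = lab s v := by
  unfold lab at e ⊢
  refine tw_mono_state _ _ h.2.2.2 _ _ _ (tw_mono _ _ _ ?_ _ _ e)
  intro u v e
  refine tw_mono_state _ _ h.2.2.1 _ _ _ (tw_mono _ _ _ ?_ _ _ e)
  intro u v e
  refine tw_mono_state _ _ h.2.1 _ _ _ (tw_mono _ _ _ ?_ _ _ e)
  exact slab_mono h

theorem Phi_mono {r s : Al} (h : ale r s) : Phi r ≤ Phi s := fun {_ _} e => lab_mono h _ _ e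

/-- recover the code from the equivalence relation -/
def dec (E : Fin 25 → Fin 25 → Bool) : Al :=
  ((E 2 3, E 4 5), (E 9 10, E 11 12), (E 16 17, E 18 19), E 22 23,
    cond (E 0 7) 2 (cond (E 7 2) 1 0), cond (E 8 14) 2 (cond (E 14 9) 1 0),
    cond (E 15 21) 2 (cond (E 21 16) 1 0))

def allB (f : Bool → Bool) : Bool := cond (f false) (f true) false

def all3 (f : Fin 3 → Bool) : Bool := cond (f 0) (cond (f 1) (f 2) false) false

/-- check a property for all codes -/
def allAl (f : Al → Bool) : Bool :=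
  allB fun b1 => allB fun b2 => allB fun b3 => allB fun b4 => allB fun b5 => allB fun b6 =>
    allB fun b7 => all3 fun t0 => all3 fun t1 => all3 fun t2 =>
      f ((b1, b2), (b3, b4), (b5, b6), b7, t0, t1, t2)

theorem allB_spec {f : Bool → Bool} (h : allB f = true) (b : Bool) : f b = true := by
  unfold allB at h
  cases h1 : f false
  · rw [h1] at h; exact absurd h Bool.false_ne_true
  · rw [h1] at h
    cases b
    · exact h1
    · exact h

theorem all3_spec {f : Fin 3 → Bool} (h : all3 f = true) (t : Fin 3) : f t = true := by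
  unfold all3 at h
  cases h1 : f 0
  · rw [h1] at h; exact absurd h Bool.false_ne_true
  · rw [h1] at h
    cases h2 : f 1
    · rw [h2] at h; exact absurd h Bool.false_ne_true
    · rw [h2] at h
      rcases fin3_cases t with rfl | rfl | rfl
      · exact h1
      · exact h2
      · exact h

theorem allAl_spec {f : Al → Bool} (h : allAl f = true) (r : Al) : f r = true := by
  obtain ⟨⟨b1, b2⟩, ⟨b3, b4⟩, ⟨b5, b6⟩, b7, t0, t1, t2⟩ := r
  exact all3_spec (all3_spec (all3_spec (allB_spec (allB_spec (allB_spec (allB_spec (allB_spec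
    (allB_spec (allB_spec h b1) b2) b3) b4) b5) b6) b7) t0) t1) t2

def eqB (a b : Bool) : Bool := cond a b (cond b false true)

theorem eqB_spec : ∀ a b : Bool, eqB a b = true → a = b := by decide

/-- equality test for codes -/
def eqAl (r s : Al) : Bool :=
  cond (eqB r.1.1 s.1.1) (cond (eqB r.1.2 s.1.2) (cond (eqB r.2.1.1 s.2.1.1)
    (cond (eqB r.2.1.2 s.2.1.2) (cond (eqB r.2.2.1.1 s.2.2.1.1) (cond (eqB r.2.2.1.2 s.2.2.1.2)
    (cond (eqB r.2.2.2.1 s.2.2.2.1) (cond (Nat.beq r.2.2.2.2.1.val s.2.2.2.2.1.val)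
    (cond (Nat.beq r.2.2.2.2.2.1.val s.2.2.2.2.2.1.val)
      (Nat.beq r.2.2.2.2.2.2.val s.2.2.2.2.2.2.val) false) false) false) false) false) false)
      false) false) false

theorem cond_and {a b : Bool} (h : cond a b false = true) : a = true ∧ b = true := by
  cases a
  · exact absurd h (by simp)
  · exact ⟨rfl, h⟩

theorem eqAl_spec {r s : Al} (h : eqAl r s = true) : r = s := by
  obtain ⟨⟨b1, b2⟩, ⟨b3, b4⟩, ⟨b5, b6⟩, b7, t0, t1, t2⟩ := r
  obtain ⟨⟨c1, c2⟩, ⟨c3, c4⟩, ⟨c5, c6⟩, c7, s0, s1, s2⟩ := s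
  unfold eqAl at h
  obtain ⟨h1, h⟩ := cond_and h
  obtain ⟨h2, h⟩ := cond_and h
  obtain ⟨h3, h⟩ := cond_and h
  obtain ⟨h4, h⟩ := cond_and h
  obtain ⟨h5, h⟩ := cond_and h
  obtain ⟨h6, h⟩ := cond_and h
  obtain ⟨h7, h⟩ := cond_and h
  obtain ⟨h8, h⟩ := cond_and h
  obtain ⟨h9, h10⟩ := cond_and h
  have e1 := eqB_spec _ _ h1
  have e2 := eqB_spec _ _ h2
  have e3 := eqB_spec _ _ h3
  have e4 := eqB_spec _ _ h4
  have e5 := eqB_spec _ _ h5
  have e6 := eqB_spec _ _ h6
  have e7 := eqB_spec _ _ h7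
  have e8 : t0 = s0 := Fin.ext (Nat.eq_of_beq_eq_true h8)
  have e9 : t1 = s1 := Fin.ext (Nat.eq_of_beq_eq_true h9)
  have e10 : t2 = s2 := Fin.ext (Nat.eq_of_beq_eq_true h10)
  simp only at e1 e2 e3 e4 e5 e6 e7
  rw [e1, e2, e3, e4, e5, e6, e7, e8, e9, e10]

theorem dec_lab_check : allAl (fun r => eqAl (dec (fun u v => Nat.beq (lab r u) (lab r v))) r) =
    true := by
  decide +kernel

theorem dec_lab (r : Al) : dec (fun u v => Nat.beq (lab r u) (lab r v)) = r :=
  eqAl_spec (allAl_spec dec_lab_check r)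

theorem Phi_inj : Function.Injective Phi := by
  intro r s h
  have h1 : (fun u v => Nat.beq (lab r u) (lab r v)) = fun u v => Nat.beq (lab s u) (lab s v) := by
    funext u v
    have h2 : lab r u = lab r v ↔ lab s u = lab s v := by
      rw [← Phi_rel, ← Phi_rel, h]
    by_cases h3 : lab r u = lab r v
    · rw [h3, h2.1 h3, Nat.beq_refl, Nat.beq_refl]
    · have h4 : ¬ lab s u = lab s v := fun hh => h3 (h2.2 hh)
      have e1 : Nat.beq (lab r u) (lab r v) = false := by
        rw [Bool.eq_false_iff]; intro hh; exact h3 (Nat.eq_of_beq_eq_true hh)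
      have e2 : Nat.beq (lab s u) (lab s v) = false := by
        rw [Bool.eq_false_iff]; intro hh; exact h4 (Nat.eq_of_beq_eq_true hh)
      rw [e1, e2]
  rw [← dec_lab r, ← dec_lab s, h1]

theorem Phi_strict {r s : Al} (h : alt r s) : Phi r < Phi s := by
  refine lt_of_le_of_ne (Phi_mono h.1) fun e => h.2 ?_
  rw [Phi_inj e]
  exact ale_refl s

end Pool.Agent.Helper663.Orb
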