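import Mathlib
import Pool.Agent.Helper663.OrbEval
import Pool.Agent.Helper663.Sc.OrdSpace
import Pool.Agent.Helper663.Sc.Wedge

/-! # The proper part of `Π_λ` is not homotopy equivalent to a wedge of spheres -/

namespace Pool.Agent.Helper663.Orb

open Finsupp Pool.Agent.Helper663.Sc

/-- the proper part as a set -/
def AP : Set (Setoid (Fin 25)) := {s | s ∈ PiLam lam25 ∧ s ≠ ⊥ ∧ s ≠ ⊤}

/-- the members of a chain -/
def toPP {k : ℕ} (c : Ch AP k) (i : Fin (k + 1)) : PP := ⟨c.1 i, c.2.2 i⟩

/-- chains as lists -/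
def TL' {k : ℕ} (c : Ch AP k) : Simplex PP (k + 1) :=
  ⟨List.ofFn (toPP c), List.length_ofFn, by
    rw [List.pairwise_ofFn]
    intro i j hij
    exact c.2.1 hij⟩

/-- lists as chains -/
def RL {k : ℕ} (s : Simplex PP (k + 1)) : Ch AP k :=
  ⟨fun i => (s.1.get (Fin.cast s.2.1.symm i)).1, by
    intro i j hij
    have h := List.pairwise_iff_get.1 s.2.2 (Fin.cast s.2.1.symm i) (Fin.cast s.2.1.symm j)
      (by simpa using hij)
    exact h, fun i => (s.1.get (Fin.cast s.2.1.symm i)).2⟩

theorem TL_RL {k : ℕ} (s : Simplex PP (k + 1)) : TL' (RL s) = s := by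
  apply Subtype.ext
  apply List.ext_getElem
  · rw [(TL' (RL s)).2.1, s.2.1]
  · intro i h1 h2
    have h3 : i < (List.ofFn (toPP (RL s))).length := h1
    have e : (TL' (RL s)).1[i] = (List.ofFn (toPP (RL s)))[i]'h3 := rfl
    refine e.trans ?_
    rw [List.getElem_ofFn]
    rfl

theorem RL_TL {k : ℕ} (c : Ch AP k) : RL (TL' c) = c := by
  apply Subtype.ext
  funext i
  have hi : i.val < (List.ofFn (toPP c)).length := by
    rw [List.length_ofFn]; exact i.2
  have e : (RL (TL' c)).1 i = ((List.ofFn (toPP c))[i.val]'hi).1 := rfl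
  rw [e, List.getElem_ofFn]
  rfl

theorem RL_face {k : ℕ} (s : Simplex PP (k + 2)) (i : Fin (k + 2)) :
    RL (face s i) = cface k i (RL s) := by
  apply Subtype.ext
  funext j
  simp only [RL, face, cface, Function.comp_apply, List.get_eq_getElem, Fin.val_cast,
    List.getElem_eraseIdx]
  congr 1
  split_ifs with h
  · have h' : j.castSucc < i := h
    congr 1
    rw [Fin.succAbove_of_castSucc_lt _ _ h']
    rfl
  · have h' : i ≤ j.castSucc := not_lt.mp h
    congr 1
    rw [Fin.succAbove_of_le_castSucc _ _ h']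
    rfl

theorem TL_cface {k : ℕ} (c : Ch AP (k + 1)) (i : Fin (k + 2)) :
    TL' (cface k i c) = face (TL' c) i := by
  conv_lhs => rw [← RL_TL c]
  rw [← RL_face, TL_RL]

/-- integral lift of the cochain -/
noncomputable def psiT (c : Ch AP 4) : ℤ := ((psi (TL' c).1).val : ℤ)

theorem psiT_cast (c : Ch AP 4) : ((psiT c : ℤ) : ZMod 2) = psi (TL' c).1 := by
  rw [psiT]
  simp

theorem dpsiT_even (c : Ch AP 5) : (2 : ℤ) ∣ altd ℤ (cface (Q := AP)) 4 psiT c := by
  have h1 : ((altd ℤ (cface (Q := AP)) 4 psiT c : ℤ) : ZMod 2) = 0 := by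
    rw [altd_apply]
    push_cast
    simp only [psiT_cast, TL_cface]
    have h2 := Psi_boundary (single (TL' c) 1)
    rw [boundary, linearCombination_single, one_smul, map_sum] at h2
    rw [← h2]
    refine Finset.sum_congr rfl fun i _ => ?_
    rw [map_smul, Psi_single, one_smul, zsmul_eq_mul]
    push_cast
    rfl
  have := (ZMod.intCast_zmod_eq_zero_iff_dvd _ 2).1 h1
  exact_mod_cast this

theorem chains_torsion (h : ∀ (g : Ch AP 5 → ℤ) (b : Ch AP 4 → ℤ),
    (2 : ℤ) • g = altd ℤ (cface (Q := AP)) 4 b → ∃ b', g = altd ℤ (cface (Q := AP)) 4 b') :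
    False := by
  obtain ⟨η, hη⟩ := h (fun c => altd ℤ (cface (Q := AP)) 4 psiT c / 2) psiT (by
    funext c
    rw [Pi.smul_apply, smul_eq_mul]
    exact Int.mul_ediv_cancel' (dpsiT_even c))
  let θ : Ch AP 4 → ℤ := psiT - (2 : ℤ) • η
  have hθ : altd ℤ (cface (Q := AP)) 4 θ = 0 := by
    rw [map_sub, map_smul, ← hη]
    funext c
    rw [Pi.sub_apply, Pi.smul_apply, smul_eq_mul, Int.mul_ediv_cancel' (dpsiT_even c), sub_self]
    rfl
  let L : (Simplex PP 5 →₀ ℤ) →ₗ[ℤ] ℤ := Finsupp.linearCombination ℤ fun s => θ (RL s)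
  have hL : ∀ w : Simplex PP 6 →₀ ℤ, L (boundary PP 5 w) = 0 := by
    intro w
    induction w using Finsupp.induction_linear with
    | zero => simp
    | add x y hx hy => rw [map_add, map_add, hx, hy, add_zero]
    | single c n =>
      rw [boundary, linearCombination_single, map_smul, map_sum]
      have h1 : ∑ i : Fin 6, L ((-1 : ℤ) ^ (i : ℕ) • single (face c i) (1 : ℤ)) =
          altd ℤ (cface (Q := AP)) 4 θ (RL c) := by
        rw [altd_apply]
        refine Finset.sum_congr rfl fun i _ => ?_
        rw [map_smul]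
        have : L (single (face c i) 1) = θ (RL (face c i)) := by
          simp [L]
        rw [this, RL_face, smul_eq_mul]
      have h2 : ∑ i : Fin (5 + 1), L ((-1 : ℤ) ^ (i : ℕ) • single (face c i) (1 : ℤ)) = 0 := by
        refine h1.trans ?_
        rw [hθ]
        rfl
      rw [h2, smul_zero]
  have h0 : L zP = 0 := by
    have h1 := hL bP
    rw [boundary_bP, map_smul, smul_eq_mul] at h1
    omega
  have hcast : ∀ z : Simplex PP 5 →₀ ℤ, ((L z : ℤ) : ZMod 2) = Psi z := by
    intro z
    induction z using Finsupp.induction_linear with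
    | zero => simp
    | add x y hx hy => rw [map_add, map_add, Int.cast_add, hx, hy]
    | single s n =>
      have h1 : L (single s n) = n * θ (RL s) := by simp [L]
      rw [h1, Psi_single]
      have h2 : ((θ (RL s) : ℤ) : ZMod 2) = psi s.1 := by
        have h3 : θ (RL s) = psiT (RL s) - 2 * η (RL s) := rfl
        rw [h3, Int.cast_sub, psiT_cast, TL_RL]
        have h4 : ((2 * η (RL s) : ℤ) : ZMod 2) = 0 := by
          push_cast
          have : (2 : ZMod 2) = 0 := by decide
          rw [this, zero_mul]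
        rw [h4, sub_zero]
      rw [Int.cast_mul, h2, zsmul_eq_mul]
  have h5 := hcast zP
  rw [h0, Psi_zP] at h5
  exact absurd h5 (by decide)

theorem AP_sup (M : Set (Setoid (Fin 25))) (hM : M ⊆ AP) (hne : M.Nonempty)
    (hb : ∃ p ∈ AP, ∀ m ∈ M, m ≤ p) : sSup M ∈ AP := by
  obtain ⟨p, hp, hpM⟩ := hb
  obtain ⟨m, hm⟩ := hne
  refine ⟨?_, ?_, ?_⟩
  · choose! T hT1 hT2 using fun m (hm : m ∈ M) => (hM hm).1
    refine ⟨⋃ m ∈ M, T m, ?_, ?_⟩
    · intro t ht
      simp only [Set.mem_iUnion] at ht
      obtain ⟨m, hm, ht⟩ := ht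
      exact hT1 m hm t ht
    · rw [sSup_iUnion]
      apply le_antisymm
      · apply sSup_le
        intro m hm
        rw [hT2 m hm]
        refine le_iSup_of_le m ?_
        rw [sSup_iUnion]
        exact le_iSup_of_le hm le_rfl
      · apply iSup_le
        intro m
        rw [sSup_iUnion]
        apply iSup_le
        intro hm
        rw [← hT2 m hm]
        exact le_sSup hm
  · intro h
    have := le_sSup hm
    rw [h, le_bot_iff] at this
    exact (hM hm).2.1 this
  · intro h
    have : sSup M ≤ p := sSup_le hpM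
    rw [h, top_le_iff] at this
    exact hp.2.2 this

theorem AP_nonempty : AP.Nonempty :=
  ⟨Phi rX, Phi_mem valid_rX, Phi_ne_bot rX, Phi_ne_top good_rX⟩

instance finite_setoid (n : ℕ) : Finite (Setoid (Fin n)) :=
  Finite.of_injective (fun s : Setoid (Fin n) => fun a b => s a b) (by
    intro s t h
    apply Setoid.ext
    intro a b
    exact iff_of_eq (congrFun (congrFun h a) b))

/-- The realization of the order complex of the proper part of `Π_λ` is not homotopy equivalent
to a wedge of spheres. -/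
theorem not_wedge {k : ℕ} (d : Fin k → ℕ)
    (e : ContinuousMap.HomotopyEquiv (RR AP) (Wd d)) : False := by
  obtain ⟨F⟩ := e.left_inv
  have hNT : NT (RR AP) 4 := by
    refine NT_of_retract e.toFun e.invFun
      (F.symm.toContinuousMap.comp ⟨Prod.swap, continuous_swap⟩) ?_ ?_ 4 (NT_Wd 4)
    · apply ContinuousMap.ext
      intro x
      exact F.symm.map_zero_left x
    · apply ContinuousMap.ext
      intro x
      exact F.symm.map_one_left x
  exact chains_torsion fun g b hg => no_two_chains AP_sup AP_nonempty hNT g b hg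

end Pool.Agent.Helper663.Orb
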