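import Mathlib

/-! # The coefficient of `X ^ 20` in the conjectured series is 38 -/

namespace Pool.Agent.Helper663

open PowerSeries

theorem coeff_rhs : PowerSeries.coeff 20 ((1 + X ^ 2 + X ^ 8 - X ^ 10) *
    ((1 - X ^ 2) * (1 - X ^ 4) * (1 - X ^ 6) * (1 - X ^ 10))⁻¹ : ℚ⟦X⟧) = 38 := by
  set P : ℚ⟦X⟧ := (1 - X ^ 2) * (1 - X ^ 4) * (1 - X ^ 6) * (1 - X ^ 10) with hP
  have h0 : constantCoeff P ≠ 0 := by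
    rw [hP]
    simp
  have h1 : P * P⁻¹ = 1 := PowerSeries.mul_inv_cancel P h0
  set Q : ℚ⟦X⟧ := 1 + 2 * X ^ 2 + 3 * X ^ 4 + 5 * X ^ 6 + 8 * X ^ 8 + 10 * X ^ 10 + 15 * X ^ 12 +
    19 * X ^ 14 + 24 * X ^ 16 + 31 * X ^ 18 + 38 * X ^ 20 with hQ
  set R : ℚ⟦X⟧ := 46 + 10 * X ^ 2 - 36 * X ^ 4 - 44 * X ^ 6 - 7 * X ^ 8 - 7 * X ^ 10 -
    10 * X ^ 12 + 36 * X ^ 14 + 45 * X ^ 16 + 7 * X ^ 18 - 38 * X ^ 20 with hR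
  have h2 : (1 + X ^ 2 + X ^ 8 - X ^ 10 : ℚ⟦X⟧) = Q * P + X ^ 22 * R := by
    rw [hP, hQ, hR]; ring
  have h3 : (1 + X ^ 2 + X ^ 8 - X ^ 10 : ℚ⟦X⟧) * P⁻¹ = Q + X ^ 22 * (R * P⁻¹) := by
    rw [h2, add_mul, mul_assoc, h1, mul_one, mul_assoc]
  rw [h3, map_add]
  have h4 : coeff 20 (X ^ 22 * (R * P⁻¹)) = 0 := by
    rw [PowerSeries.coeff_X_pow_mul']
    simp
  rw [h4, add_zero, hQ]
  have hc : ∀ (a : ℚ) (n : ℕ), coeff 20 (C a * X ^ n : ℚ⟦X⟧) = if 20 = n then a else 0 := by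
    intro a n
    rw [PowerSeries.coeff_C_mul, PowerSeries.coeff_X_pow]
    split_ifs <;> simp
  have e : (1 + 2 * X ^ 2 + 3 * X ^ 4 + 5 * X ^ 6 + 8 * X ^ 8 + 10 * X ^ 10 + 15 * X ^ 12 +
    19 * X ^ 14 + 24 * X ^ 16 + 31 * X ^ 18 + 38 * X ^ 20 : ℚ⟦X⟧) =
    C 1 * X ^ 0 + C 2 * X ^ 2 + C 3 * X ^ 4 + C 5 * X ^ 6 + C 8 * X ^ 8 + C 10 * X ^ 10 +
    C 15 * X ^ 12 + C 19 * X ^ 14 + C 24 * X ^ 16 + C 31 * X ^ 18 + C 38 * X ^ 20 := by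
    simp only [pow_zero, mul_one, map_one, map_ofNat]
  rw [e]
  simp only [map_add, hc]
  norm_num

end Pool.Agent.Helper663
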